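import Pool.Agent.P.MP_6c8efb_pr.Two.IfaceA

section RATIO2S

/-! Step RATIO2. -/

namespace Pool.Agent.P.MP_6c8efb_pr.One

open Polynomial Filter Topology
open Arm (q ah ac Nz Gen Near LPd LP1 TC Pt TConn q_eq q_cube q_ne_zero)

namespace RATIO2x

open HomA in
theorem hom (L : ℕ) : ∃ c : ℂ, c ≠ 0 ∧ ∀ (ψ C : ℝ) (g : ℝ → ℂ), Bc C g →
    (∀ s t : ℝ, phi (al ψ) (al ψ)⁻¹ (Complex.exp s) (Complex.exp t) =
      Complex.exp ((-(s + t) / 2 - (t - s) * ψ / Real.pi : ℝ) : ℂ) * (3 / 4) *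
        ∫ x : ℝ, g x * Complex.exp (Complex.I * (3 / 2 * (t - s) * x : ℝ)) * (wt0 x : ℂ)) →
    Tendsto (fun ε => DD (al ψ) (al ψ)⁻¹ (pts L ε)) (𝓝[>] 0) (𝓝 (c * HD L g)) := by
  obtain ⟨c, hc, hT⟩ := a_Toep L
  obtain ⟨c₁, hc₁, h₁⟩ := PQ_lim (List.ofFn fun j : Fin L => ((j : ℕ) : ℝ) + 1)
  obtain ⟨c₂, hc₂, h₂⟩ := VD_lim (List.ofFn fun j : Fin L => ((j : ℕ) : ℝ) + 1)
    (List.nodup_ofFn.2 fun i j e => Fin.ext (by exact_mod_cast add_right_cancel e))
  have h₃ := PR_lim (List.ofFn fun j : Fin L => ((j : ℕ) : ℝ) + 1)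
  simp only [← pts_eq, List.length_ofFn] at h₁ h₂ h₃
  refine ⟨c₁ ^ 2 * ((3 / 4) ^ L * (3 / 2) ^ (L * (L - 1)) * c) / c₂, by simp [hc, hc₁, hc₂],
    fun ψ C g hB hKer => ?_⟩
  have s : Tendsto (fun ε : ℝ => 3 / 2 * ε) (𝓝[>] 0) (𝓝[>] 0) := by
    refine tendsto_nhdsWithin_iff.2 ⟨?_, eventually_mem_nhdsWithin.mono fun ε h => ?_⟩
    · simpa using ((tendsto_id (x := 𝓝 (0 : ℝ))).const_mul (3 / 2)).mono_left nhdsWithin_le_nhds
    · exact mul_pos (by norm_num : (0 : ℝ) < 3 / 2) h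
  have hu := tendsto_finsetProd Finset.univ fun (j : Fin L) _ =>
    ex_lim ((((j : ℕ) : ℝ) + 1) * (-1 / 2 + ψ / Real.pi))
  have hv := tendsto_finsetProd Finset.univ fun (j : Fin L) _ =>
    (ex_lim ((((j : ℕ) : ℝ) + 1) * (-1 / 2 - ψ / Real.pi))).mul_const (3 / 4)
  have h := (((h₁.pow 2).mul ((hu.mul (hv.mul ((hT C _ hB).comp s))).mul_const
    ((3 / 2) ^ (L * (L - 1))))).mul (h₃.pow 2)).div (h₂.mul (h₃.pow L)) (by simpa using hc₂)
  refine (h.congr' (eventually_mem_nhdsWithin.mono fun ε hε => ?_)).trans_eq ?_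
  · have e0 : (ε : ℂ) ≠ 0 := by exact_mod_cast (ne_of_gt hε)
    have e : dphi (al ψ) (al ψ)⁻¹ (pts L ε) =
        (∏ j : Fin L, ex ε ((((j : ℕ) : ℝ) + 1) * (-1 / 2 + ψ / Real.pi))) *
        ((∏ j : Fin L, ex ε ((((j : ℕ) : ℝ) + 1) * (-1 / 2 - ψ / Real.pi)) * (3 / 4)) *
        Matrix.det (Matrix.of fun j k : Fin L => ∫ x : ℝ, g x *
          Complex.exp (Complex.I * (3 / 2 * ε * ((k : ℕ) - (j : ℕ)) * x : ℝ)) * (wt0 x : ℂ))) := by
      rw [← Matrix.det_mul_row, ← Matrix.det_mul_column, pts, dphi_ofFn]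
      congr 1
      ext j k
      simp only [Matrix.of_apply]
      rw [hKer, ← mul_assoc, ← mul_assoc, ex, ex, ← Complex.exp_add, ← Complex.ofReal_add]
      congr 4
      · ring_nf
      · ext x
        congr 4
        ring_nf
    have k : ∀ A U V D R W R' : ℂ, A * (U * (V * (D / ((3 / 2 * ε : ℝ) : ℂ) ^ (L * (L - 1)))) *
        (3 / 2) ^ (L * (L - 1))) * R / (W / (ε : ℂ) ^ (L * (L - 1)) * R') =
        A * (U * (V * D)) * R / (W * R') := fun A U V D R W R' => by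
      push_cast
      rw [mul_pow (3 / 2 : ℂ)]
      field_simp
    simp only [DD, e, Pi.div_apply, Function.comp_apply, show (pts L ε).length = L by simp [pts], k]
  · congr 1
    simp only [Finset.prod_const, one_pow, one_mul, Finset.card_univ, Fintype.card_fin]
    ring

theorem al_sq : al (Real.pi / 2) ^ 2 = -q ^ 2 := by
  rw [al, ← Complex.exp_nat_mul, show -q ^ 2 = 1 + q by linear_combination -q_eq]
  have e : ((2 : ℕ) : ℂ) * (((2 * (Real.pi / 2) / 3 - Real.pi / 6 : ℝ) : ℂ) * Complex.I) =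
      ((Real.pi / 3 : ℝ) : ℂ) * Complex.I := by push_cast; ring
  rw [e]
  apply Complex.ext
  · rw [Complex.exp_ofReal_mul_I_re, Real.cos_pi_div_three]; simp [q]; norm_num
  · rw [Complex.exp_ofReal_mul_I_im, Real.sin_pi_div_three]; simp [q]

theorem kap2 : 3 * kap (al (Real.pi / 2)) (al (Real.pi / 2))⁻¹ ^ 2 = 2 + -1 := by
  have hA := al_sq
  have h0 : al (Real.pi / 2) ≠ 0 := Complex.exp_ne_zero _
  have hAB := mul_inv_cancel₀ h0
  have hB : (al (Real.pi / 2))⁻¹ ^ 2 = -q := by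
    rw [inv_pow, hA]
    exact inv_eq_of_mul_eq_one_right (by linear_combination q_cube)
  rw [KapA.kap_eq]
  generalize (al (Real.pi / 2))⁻¹ = B at *
  generalize al (Real.pi / 2) = A at *
  have h : (1 - q) * (1 - q ^ 2) = 3 := by linear_combination (q - 2) * q_eq
  have h1 : (1 - q ^ 2) ^ 2 = -3 * q ^ 2 := by linear_combination (q ^ 2 - q + 1) * q_eq
  have h2 : (1 - q) ^ 2 = -3 * q := by linear_combination q_eq
  linear_combination (A ^ 2 / 3) * h1 + (B ^ 2 / 3) * h2 + (2 * A * B / 3) * h + 2 * hAB -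
    q ^ 2 * hA - q * hB + q * q_cube + q_eq

end RATIO2x

theorem p_RATIO2 (hFRM2 : S_FRM2) (hBB : S_BB) (hKER2 : S_KER2) (hNICE2 : S_NICE2) :
    S_RATIO2 := by
  intro F hF L hL h2
  obtain ⟨c, hc, hH⟩ := RATIO2x.hom L
  have pi0 := Real.pi_pos
  have key : ∀ (a : ℂ) (B : ℕ → W →ₗ[ℂ] W →ₗ[ℂ] ℂ) (ψ : ℝ) (g : ℝ → ℂ), Frm a B →
      Tendsto (fun ε => DD (al ψ) (al ψ)⁻¹ (pts L ε)) (𝓝[>] 0) (𝓝 (c * HD L g)) →
      3 * kap (al ψ) (al ψ)⁻¹ ^ 2 = 2 + a →
      NN B F (List.replicate L 1) = cc L * (c * HD L g) := by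
    intro a B ψ g hB g2 hk
    obtain ⟨n1, n2, n3, n4⟩ := a_Nsym a B F hB hF
    have hN : Nprop a (NN B F) := ⟨n1, n2, a_Narc a B F hB hF, a_Ntop a B F hB hF, n3⟩
    refine tendsto_nhds_unique ((n4 L).mono_left (nhdsWithin_le_nhds (s := Set.Ioi 0)))
      ((g2.const_mul (cc L)).congr' (eventually_mem_nhdsWithin.mono fun ε hε => ?_))
    have e : (pts L ε).length = L := by simp [pts]
    have := a_Main a (al ψ) (al ψ)⁻¹ _ hN (mul_inv_cancel₀ (Complex.exp_ne_zero _)) hk _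
      (HomA.gen_pts L hε) (e.symm ▸ hL)
    rw [e] at this
    exact this.symm
  obtain ⟨-, C, -, -, b1, -⟩ := hNICE2
  obtain ⟨-, C', -, -, b2, -⟩ := a_Nice (Real.pi / 4) (by positivity) (by linarith)
  rw [PP2, hBB F hF L hL h2, key (-1) Bm _ _ hFRM2 (hH _ C _ b1 hKER2) RATIO2x.kap2,
    key 1 Bt _ _ a_Frm.2 (hH _ C' _ b2 fun s t => a_Ker _ s t (by positivity) (by linarith)) a_Kap.2,
    mul_div_mul_left _ _ (cc_ne_zero L), mul_div_mul_left _ _ hc]

end Pool.Agent.P.MP_6c8efb_pr.One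

end RATIO2S

section EVFRS

/-! Step EVFR. -/

namespace Pool.Agent.P.MP_6c8efb_pr.One

open Polynomial Filter Topology
open Arm (q ah ac Nz Gen Near LPd LP1 TC Pt TConn q_eq q_cube q_ne_zero)

namespace EVFRx

theorem key {m n : ℕ} (hm : 1 ≤ m) {τ : TC} (hτ : τ ∈ EvN2 (2 * m) n) {j : ℤ}
    (hj : j = 0 ∨ j = 1) : τ ∈ Fr m n j := by
  classical
  by_contra hno
  set C : ℤ × ℤ → Prop := fun b => TConn (per (2 * m) τ) Set.univ (j, 0) b with hC
  have hin : ∀ a b : ℤ, C (a, b) → |a| < m ∧ |b| < n := fun a b h => by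
    by_contra h1
    exact hno ⟨(a, b), by dsimp only; omega, h⟩
  have hl : ∀ x y, Arm.link (per (2 * m) τ) Set.univ x y → (C x ↔ C y) := fun x y h =>
    ⟨fun h1 => h1.snoc h, fun h1 => h1.snoc h.symm⟩
  set Φ : ℤ → ℤ → K := fun a b =>
    (if C (a, b) then 1 else 0) - (if C (a - 2 * m, b) then 1 else 0) with hΦ
  have p1 : ∀ (s : ℕ) (t : ℤ), s < 2 * m → per (2 * m) τ (s, t) = τ (s, t) := fun s t hs => by
    unfold per
    rw [Int.emod_eq_of_lt (by omega) (by omega)]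
  have p2 : ∀ (s : ℕ) (t : ℤ), s < 2 * m → per (2 * m) τ (s - 2 * m, t) = τ (s, t) :=
    fun s t hs => by
      rw [← p1 s t hs]
      unfold per
      dsimp only
      push_cast
      rw [Int.sub_emod_right]
  have hT : ∀ (s : ℕ) (t : ℤ), s < 2 * m → τ (s, t) = true → Φ s t = Φ (s + 1) (t + 1) := by
    intro s t hs h
    have e1 := hl _ _ (Arm.link_iff.2 ⟨_, _, trivial,
      Or.inl ⟨(p1 s t hs).trans h, Or.inl ⟨rfl, rfl⟩⟩⟩)
    have e2 := hl _ _ (Arm.link_iff.2 ⟨_, _, trivial,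
      Or.inl ⟨(p2 s t hs).trans h, Or.inl ⟨rfl, rfl⟩⟩⟩)
    simp only [hΦ, e1, e2, show (s : ℤ) + 1 - 2 * m = s - 2 * m + 1 by ring]
  have hF : ∀ (s : ℕ) (t : ℤ), s < 2 * m → τ (s, t) = false → Φ (s + 1) t = Φ s (t + 1) := by
    intro s t hs h
    have e1 := hl _ _ (Arm.link_iff.2 ⟨_, _, trivial,
      Or.inr ⟨(p1 s t hs).trans h, Or.inl ⟨rfl, rfl⟩⟩⟩)
    have e2 := hl _ _ (Arm.link_iff.2 ⟨_, _, trivial,
      Or.inr ⟨(p2 s t hs).trans h, Or.inl ⟨rfl, rfl⟩⟩⟩)
    simp only [hΦ, e1, e2, show (s : ℤ) + 1 - 2 * m = s - 2 * m + 1 by ring]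
  have hS : ∀ t : ℤ, Φ (2 * m : ℕ) t = -Φ (0 : ℕ) t := fun t => by
    have e1 : ¬ C ((2 * m : ℕ), t) := fun h => by
      have := (hin _ _ h).1
      rw [abs_lt] at this
      omega
    have e2 : ¬ C (((0 : ℕ) : ℤ) - 2 * m, t) := fun h => by
      have := (hin _ _ h).1
      rw [abs_lt] at this
      omega
    simp only [hΦ, if_neg e1, if_neg e2]
    simp
  have hR : ∀ a b : ℤ, |b| = n → Φ a b = 0 := fun a b hb => by
    have e : ∀ a, ¬ C (a, b) := fun a h => by
      have := (hin _ _ h).2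
      omega
    simp only [hΦ, if_neg (e _), sub_self]
  have hev : Even (2 * m) := even_two_mul m
  have c1 := EvFarA.mem_of a_Col (n := n) hev (τ := τ) (fun s t => Φ s t)
    (fun s t a c => by push_cast; exact hT s t a c)
    (fun s t a c => by push_cast; exact hF s t a c) (fun t => hS t)
    (fun s => hR _ _ (by simp))
  have c2 := EvFarA.mem_of a_Col (n := n) hev (τ := flp τ) (fun s t => Φ s (-t))
    (fun s t a c => by
      have := hF s (-1 - t) a (by simpa [flp] using c)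
      push_cast
      rw [show -((t : ℤ) + 1) = -1 - t by ring, this]
      congr 1
      ring)
    (fun s t a c => by
      have := hT s (-1 - t) a (by simpa [flp] using c)
      push_cast
      rw [show -((t : ℤ) + 1) = -1 - t by ring, this]
      congr 1
      ring) (fun t => hS _) (fun s => hR _ _ (by simp))
  simp only [Nat.cast_zero, neg_zero] at c1 c2
  have h := hτ _ c1 c2
  have e2 : ¬ C (0 - 2 * (m : ℤ), 0) := fun h => by
    have := (hin _ _ h).1
    rw [abs_lt] at this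
    omega
  have e3 : ¬ C (1 - 2 * (m : ℤ), 0) := fun h => by
    have := (hin _ _ h).1
    rw [abs_lt] at this
    omega
  rw [if_pos (by omega)] at h
  simp only [hΦ, Nat.cast_zero, zero_add, Nat.cast_one, if_neg e2, if_neg e3] at h
  rcases hj with rfl | rfl
  · have e0 : C (0, 0) := Relation.ReflTransGen.refl
    have e1 : ¬ C (1, 0) := fun h => absurd (TConn.even h) (by decide)
    rw [if_pos e0, if_neg e1] at h
    exact absurd h (by decide)
  · have e0 : C (1, 0) := Relation.ReflTransGen.refl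
    have e1 : ¬ C (0, 0) := fun h => absurd (TConn.even h) (by decide)
    rw [if_pos e0, if_neg e1] at h
    exact absurd h (by decide)

end EVFRx

theorem p_EVFR :
    S_EVFR := by
  intro m n hm τ hτ
  exact ⟨EVFRx.key hm hτ (Or.inl rfl), EVFRx.key hm hτ (Or.inr rfl)⟩

end Pool.Agent.P.MP_6c8efb_pr.One

end EVFRS

section BBS

/-! Step BB. -/

namespace Pool.Agent.P.MP_6c8efb_pr.One

open Polynomial Filter Topology
open Arm (q ah ac Nz Gen Near LPd LP1 TC Pt TConn q_eq q_cube q_ne_zero)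

namespace BBx

theorem rotF_mul (L : ℕ) (f g : ℕ → K) :
    rotF L (f * g * g) = rotF L f * rotF L g * rotF L g := by
  funext j
  simp only [rotF, Pi.mul_apply]
  split_ifs <;> ring

theorem lam_rotF {L : ℕ} (hL : Even L) (h2 : 2 ≤ L) (h : ℕ → K) :
    lam L h + h 0 = -1 * lam L (rotF L h) := by
  obtain ⟨M, rfl⟩ : ∃ M, L = M + 1 := ⟨L - 1, by omega⟩
  have hM : (-1 : K) ^ M = -1 := Odd.neg_one_pow (Nat.not_even_iff_odd.1 (Nat.even_add_one.1 hL))
  have e : ∑ i ∈ Finset.range M, (-1 : K) ^ i * rotF (M + 1) h i =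
      -∑ i ∈ Finset.range M, (-1 : K) ^ (i + 1) * h (i + 1) := by
    rw [← Finset.sum_neg_distrib]
    refine Finset.sum_congr rfl fun i hi => ?_
    rw [rotF, if_pos (Nat.succ_lt_succ (Finset.mem_range.1 hi))]
    ring
  have h3 : (3 : K) = 0 := rfl
  rw [lam, lam, Finset.sum_range_succ', Finset.sum_range_succ, e, hM, rotF, if_neg (lt_irrefl _),
    if_pos rfl]
  linear_combination h 0 * h3

/-- the gluing form of the second functional -/
noncomputable def Bn (L : ℕ) : W →ₗ[ℂ] W →ₗ[ℂ] ℂ :=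
  Finsupp.linearCombination ℂ fun p =>
    Finsupp.linearCombination ℂ fun r => (-1 : ℂ) ^ Nn (fun f => lam L f + f 0) (p ∩ r)

theorem Bn_single (L : ℕ) (p r : St) : Bn L (Finsupp.single p 1) (Finsupp.single r 1) =
    (-1) ^ Nn (fun f => lam L f + f 0) (p ∩ r) := by
  simp only [Bn, Finsupp.linearCombination_single, one_smul]

theorem ext2 {L : ℕ} {B B' : W →ₗ[ℂ] W →ₗ[ℂ] ℂ} (h : ∀ p r, Bd L p → Bd L r →
    B (Finsupp.single p 1) (Finsupp.single r 1) = B' (Finsupp.single p 1) (Finsupp.single r 1))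
    {v : W} (hv : Sup L v) : B v v = B' v v :=
  Sup.ext (f := B.flip v) (g := B'.flip v)
    (fun p hp => Sup.ext (f := B _) (g := B' _) (fun r hr => h p r hp hr) hv) hv

end BBx

open BBx in
theorem p_BB (hINV : S_INV) (hSGN : S_SGN) :
    S_BB := by
  intro F hF L hL h2
  have hs : Sup L (F (List.replicate L 1)) := by simpa using hF.sup (List.replicate L 1)
  have hr : F (List.replicate L 1) = Rot L (F (List.replicate L 1)) := by
    obtain ⟨M, rfl⟩ : ∃ M, L = M + 1 := ⟨L - 1, by omega⟩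
    have := hF.cyc 1 (List.replicate M 1) fun x hx => by
      rw [List.eq_of_mem_replicate (n := M + 1) hx]; exact one_ne_zero
    rwa [← List.replicate_succ', List.length_replicate] at this
  simp only [NN, List.map_replicate, inv_one, List.length_replicate]
  generalize F (List.replicate L 1) = v at hs hr
  have e1 : ((Bn L).compl₁₂ (Rot L) (Rot L)) v v = Bm L v v := ext2 (fun p r _ _ => by
    rw [LinearMap.compl₁₂_apply, Rot, lm_single, lm_single, Bn_single, Bm_single, one_mul, one_mul,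
      hINV _ (lam L) (rot L p ∩ rot L r) (p ∩ r) (rotF L) (-1) (by decide) (fun f hf => hf)
        (fun f hf => ⟨rotG L f, by simpa [mem_rot] using hf, rotF_rotG L f⟩)
        fun f _ g _ => by rw [← rotF_mul]; exact lam_rotF hL h2 _]) hs
  have e2 : (Bil2 L + Bil2 L) v v = (Bm L + Bn L) v v := ext2 (fun p r hp hr => by
    simp only [LinearMap.add_apply, Bn_single, Bm_single, Bil2_single, one_mul,
      hSGN L p r (by omega) hp hr]
    split_ifs <;> norm_num) hs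
  rw [LinearMap.compl₁₂_apply, ← hr] at e1
  simp only [LinearMap.add_apply] at e2
  linear_combination (e1 + e2) / 2

end Pool.Agent.P.MP_6c8efb_pr.One

end BBS

section LOG2S

/-! Step LOG2. -/

namespace Pool.Agent.P.MP_6c8efb_pr.One

open Polynomial Filter Topology
open Arm (q ah ac Nz Gen Near LPd LP1 TC Pt TConn q_eq q_cube q_ne_zero)

namespace LOG2x

open Real MeasureTheory

theorem c4 : cos (2 * (π / 4)) = 0 := by
  rw [show 2 * (π / 4) = π / 2 by ring, cos_pi_div_two]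

theorem c6 : cos (2 * (π / 6)) = 1 / 2 := by
  rw [show 2 * (π / 6) = π / 3 by ring, cos_pi_div_three]

theorem c3 : cos (2 * (π / 3)) = -(1 / 2) := by
  rw [show 2 * (π / 3) = π - π / 3 by ring, cos_pi_sub, cos_pi_div_three]

theorem l2 (x : ℝ) : log ‖r2 x‖ =
    (log (cosh (π * x) + cos (2 * (π / 4))) - log (cosh (π * x) + 1)) -
      (log (cosh (π * x) + cos (2 * (π / 6))) - log (cosh (π * x) + 1)) := by
  have h := one_le_cosh (π * x)
  have e : 1 - 1 / (2 * cosh (π * x) + 1) = cosh (π * x) / (cosh (π * x) + 1 / 2) := by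
    field_simp
    ring
  rw [r2, e, Complex.norm_real, norm_of_nonneg (by positivity), c4, c6, add_zero,
    log_div (by positivity) (by positivity)]
  ring

theorem l4 (x : ℝ) : log ‖rr (π / 4) x‖ =
    3 / 2 * (log (cosh (π * x) + cos (2 * (π / 4))) - log (cosh (π * x) + 1)) -
      (log (cosh (π * x) + cos (2 * (π / 3))) - log (cosh (π * x) + 1)) -
      1 / 2 * (log (cosh (3 * π * x) + cos (2 * (π / 4))) - log (cosh (3 * π * x) + 1)) := by
  have p := pi_pos
  have h := one_le_cosh (π * x)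
  have e : cosh (3 * π * x) + 1 = (cosh (π * x) + 1) * (2 * (cosh (π * x) + -(1 / 2))) ^ 2 := by
    rw [mul_assoc, cosh_three_mul]
    ring
  have h2 : 0 < cosh (π * x) + -(1 / 2) := by linarith
  rw [LogintA.lr (by positivity) (by linarith), c4, c3, e, add_zero, add_zero,
    log_mul (by positivity) (by positivity), log_mul (by positivity) (by positivity), log_pow,
    log_mul (by positivity) h2.ne']
  push_cast
  ring

end LOG2x

open Real MeasureTheory in
theorem p_LOG2 :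
    S_LOG2 := by
  have p := pi_pos
  obtain ⟨i4, e4⟩ := LogintA.sc a_Lam (ψ := π / 4) (by positivity) (by linarith) p
  obtain ⟨i6, e6⟩ := LogintA.sc a_Lam (ψ := π / 6) (by positivity) (by linarith) p
  obtain ⟨i3, e3⟩ := LogintA.sc a_Lam (ψ := π / 3) (by positivity) (by linarith) p
  obtain ⟨j4, f4⟩ := LogintA.sc a_Lam (ψ := π / 4) (by positivity) (by linarith)
    (show 0 < 3 * π by positivity)
  unfold S_LOG2
  simp only [LOG2x.l2, LOG2x.l4]
  have h := integral_sub ((i4.const_mul (3 / 2)).sub i3) (j4.const_mul (1 / 2))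
  simp only [Pi.sub_apply] at h
  rw [integral_sub i4 i6, h, integral_sub (i4.const_mul _) i3, integral_const_mul,
    integral_const_mul, e4, e6, e3, f4]
  field_simp
  ring

end Pool.Agent.P.MP_6c8efb_pr.One

end LOG2S

section SHIFTS

/-! Step SHIFT. -/

namespace Pool.Agent.P.MP_6c8efb_pr.One

open Polynomial Filter Topology
open Arm (q ah ac Nz Gen Near LPd LP1 TC Pt TConn q_eq q_cube q_ne_zero)

namespace SHIFTx

theorem dep {L : ℕ} (hL : 1 ≤ L) (n : ℕ) (j : ℤ) :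
    Dep (Wr L n j) {z : ℤ × ℤ | 0 ≤ z.1 ∧ z.1 < L ∧ -(n : ℤ) ≤ z.2 ∧ z.2 < n} :=
  fun _ _ hτ h => TConn.mono h subset_rfl fun c hc =>
    hτ _ ⟨Int.emod_nonneg _ (by omega), Int.emod_lt_of_pos _ (by omega), hc⟩

theorem sh {L n : ℕ} {j : ℤ} {τ : TC} (h : τ ∈ Wr L n j) :
    (fun c : ℤ × ℤ => τ ((c.1 - 1) % L, c.2)) ∈ Wr L n (j + 1) := by
  have h1 : TConn (fun c => per L (fun c : ℤ × ℤ => τ ((c.1 - 1) % L, c.2)) (c + (1, 0)))
      {c | -(n : ℤ) ≤ c.2 ∧ c.2 < n} (j, 0) (j + L, 0) :=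
    TConn.mono h subset_rfl fun c _ => by simp [per]
  have h2 := h1.shift (S' := {c | -(n : ℤ) ≤ c.2 ∧ c.2 < n}) fun c hc => by simpa using hc
  rw [Prod.mk_add_mk, Prod.mk_add_mk, add_zero, add_right_comm] at h2
  exact h2

end SHIFTx

theorem p_SHIFT :
    S_SHIFT := by
  intro L n hL
  have e := a_Reix (ℤ × ℤ) (Wr L n 0 ∩ Wr L n 1) _ (fun c => ((c.1 - 1) % L, c.2))
    (Arm.rect_finite 0 L (-n) n) ((SHIFTx.dep hL n 0).inter (SHIFTx.dep hL n 1))
    fun c hc c' hc' h => by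
      obtain ⟨h1, h2⟩ := Prod.mk.inj h
      have h4 : c.1 ≡ c'.1 [ZMOD L] := by
        simpa using Int.ModEq.add_right 1 (show c.1 - 1 ≡ c'.1 - 1 [ZMOD L] from h1)
      have h3 : c.1 % L = c'.1 % L := h4
      rw [Int.emod_eq_of_lt hc.1 hc.2.1, Int.emod_eq_of_lt hc'.1 hc'.2.1] at h3
      exact Prod.ext h3 h2
  unfold Pt
  rw [← e]
  exact Pr_mono fun τ h => ⟨by simpa using SHIFTx.sh h.1, by simpa using SHIFTx.sh h.2⟩

end Pool.Agent.P.MP_6c8efb_pr.One

end SHIFTS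

section MINS

/-! Step MIN. -/

namespace Pool.Agent.P.MP_6c8efb_pr.One

open Polynomial Filter Topology
open Arm (q ah ac Nz Gen Near LPd LP1 TC Pt TConn q_eq q_cube q_ne_zero)

namespace MINx

theorem k1 : ∀ x : K, x ≠ 0 → x = 1 ∨ -x = 1 := by decide

theorem k2 : ∀ x y : K, y ≠ 0 → x - x * y * y = 0 := by decide

end MINx

open MINx in
theorem p_MIN :
    S_MIN := by
  rintro S j hS hA ⟨f, hf, hj⟩
  have hne : {b | b ∈ S ∧ b j = 1}.Nonempty := by
    rcases k1 _ hj with h | h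
    · exact ⟨f, hf, h⟩
    · exact ⟨-f, hA.neg f hf, h⟩
  obtain ⟨b, ⟨hb, h1⟩, hm⟩ := (hS.subset fun b (h : b ∈ S ∧ b j = 1) => h.1).exists_minimalFor
    Function.support _ hne
  refine ⟨b, hb, h1, fun g hg => sub_eq_zero.1 ?_⟩
  have hh := hA.sub (hA.mul g hg b hb b hb) (hA.smul (g j) hb)
  have h0 : (g * b * b - g j • b) j = 0 := by simp [h1]
  have hs : ∀ i, b i = 0 → (g * b * b - g j • b) i = 0 := fun i hi => by simp [hi]
  generalize g * b * b - g j • b = h at hh h0 hs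
  have := hm (j := b - b * h * h) ⟨hA.sub hb (hA.mul b hb h hh h hh), by simp [h1, h0]⟩
    fun i hi e => hi (by simp [e])
  funext i
  by_contra hi
  exact this (fun e => hi (hs i e)) (k2 _ _ hi)

end Pool.Agent.P.MP_6c8efb_pr.One

end MINS
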