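import Pool.Agent.P.MP_6c8efb_pr.Two.DefsB

/-! The statements of the steps on percolation. -/

namespace Pool.Agent.P.MP_6c8efb_pr.Two

open MeasureTheory

/-! ### Jordan curves -/

-- deps:
def S_J2 : Prop := ∀ (α : Cfg) (x0 x1 y0 y1 i t : ℤ),
  Conn α (Rc x0 x1 y0 y1) (i, t) (i + 1, t) → α ((i, t), true) = false →
  ∃ J : V → ℤ, J (i, t) ≠ J (i, t - 1) ∧
    (∀ f d, α (dl (edge f d)) = false → dl (edge f d) ≠ ((i, t), true) → J (f + u d) = J f) ∧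
    ∀ f, f ∉ Rc x0 (x1 - 1) y0 (y1 - 1) → J f = 0

-- deps: J2
def S_J1 : Prop := ∀ (α γ : Cfg) (x0 x1 y0 y1 i t j0 : ℤ) (y : V),
  Conn α (Rc x0 x1 y0 y1) (i, t) (i + 1, t) → j0 ≤ t → (∀ j, j0 ≤ j → α ((i, j), true) = false) →
  ((∀ g, γ g = true → α (dl g) = false ∧ dl g ≠ ((i, t), true)) → y1 ≤ y.2 →
    ¬ Conn γ Set.univ (i, j0 - 1) y) ∧
  ((∀ g, γ (dl g) = true → α g = false ∧ g ≠ ((i, t), true)) → y1 < y.2 →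
    ¬ Conn γ Set.univ (i + 1, j0) y)

/-! ### levels -/

-- deps:
def S_PAST : Prop := ∀ ω d R l P a, 1 ≤ l → IsPast ω d R l P a → Past ω d R l P a

-- deps:
def S_FUT : Prop := ∀ ω d (R l l' : ℤ), 1 ≤ l → l ≤ l' → ω ∈ AA d R l' →
  ∃ P a, IsPast ω d R l P a ∧ (∃ y : V, l' ≤ y.2 ∧ Conn ω Set.univ a y) ∧
    ∃ f : V, l' - 1 ≤ f.2 ∧ Conn (du ω) Set.univ (a.1, l - 1) f

-- deps:
def S_STOP : Prop := ∀ d (R l : ℤ) (G : Set D → V → Prop) (F : Set D → V → Set Cfg) (κ : ℝ),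
  (∀ P a, G P a → Loc (F P a) ∧ Dep (F P a) (XX P)ᶜ) →
  ((∀ P a, G P a → Q (F P a) ≤ κ) →
    Q {ω | ∃ P a, IsPast ω d R l P a ∧ G P a ∧ ω ∈ F P a} ≤
      κ * Q {ω | ∃ P a, IsPast ω d R l P a ∧ G P a}) ∧
  ((∀ P a, G P a → κ ≤ Q (F P a)) →
    κ * Q {ω | ∃ P a, IsPast ω d R l P a ∧ G P a} ≤
      Q {ω | ∃ P a, IsPast ω d R l P a ∧ G P a ∧ ω ∈ F P a})

-- deps: J1
def S_KA : Prop := ∀ ω d R l P a (m : ℤ), Past ω d R l P a → 1 ≤ m → BadP P a m →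
  shut (XX P) ω ∉ Arm1 a (13 * m) (39 * m) →
  ∀ y : V, l + 39 * m ≤ y.2 → ¬ Conn ω Set.univ a y

-- deps: J1
def S_KB : Prop := ∀ ω d R l P a (m : ℤ), Past ω d R l P a → 1 ≤ m → BadD P a m →
  shut (XD P) (du ω) ∉ Arm1 (a.1, l - 1) (13 * m) (39 * m) →
  ∀ y : V, l - 1 + 39 * m ≤ y.2 → ¬ Conn (du ω) Set.univ (a.1, l - 1) y

-- deps:
def S_UATT : Prop := ∀ (σ : Cfg) (X : Set E) (L : Set V) (c o p x y : V) (r s h1 h2 : ℤ),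
  0 < r → r < s → c.2 ≤ h1 → c.2 ≤ h2 → (∀ z ∈ L, z.2 ≤ c.2) → c ∈ L →
  Conn (fun _ => true) L c o → s ≤ nm c o → opn X σ ∈ Ucr c r s h1 h2 → p ∉ L →
  ¬ Bad X (Ush c r s h1 h2 \ L) p → x.2 = c.2 - s →
  (x ∈ Rc (c.1 - s) (c.1 - r) (c.2 - s) h1 ∧ y.2 = h1 ∧
      Conn (opn X σ) (Rc (c.1 - s) (c.1 - r) (c.2 - s) h1) x y ∨
    x ∈ Rc (c.1 + r) (c.1 + s) (c.2 - s) h2 ∧ y.2 = h2 ∧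
      Conn (opn X σ) (Rc (c.1 + r) (c.1 + s) (c.2 - s) h2) x y) →
  Conn (opn X σ) (Ush c r s h1 h2) p x → ∃ z ∈ L, Conn σ (Ush c r s h1 h2) p z

-- deps: UATT
def S_GOODP : Prop := ∀ ω d R l P a (m r : ℤ), Past ω d R l P a → 1 ≤ m → 14 * m ≤ l →
  R + 13 * m ≤ r → l + 3 * m ≤ r → ¬ BadP P a m → ω ∈ FP P a m r → ω ∈ SP 0 r

-- deps: UATT
def S_GOODD : Prop := ∀ ω d R l P a (m r : ℤ), Past ω d R l P a → 1 ≤ m → 14 * m ≤ l →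
  R + 13 * m ≤ r → l + 3 * m ≤ r → ¬ BadD P a m → ω ∈ FD P a m r → ω ∈ SD 0 r d

-- deps:
def S_RSWP : Prop := ∀ N : ℕ, ∃ c : ℝ, 0 < c ∧ ∀ (P : Set D) (a : V) (m R r : ℤ), 1 ≤ m →
  -R ≤ a.1 → a.1 ≤ R → R + 13 * m ≤ r → r ≤ N * m →
  Loc (FP P a m r ∩ FD P a m r) ∧ Dep (FP P a m r ∩ FD P a m r) (XX P)ᶜ ∧
    c ≤ Q (FP P a m r ∩ FD P a m r)

-- deps:
def S_ARMX : Prop := ∃ q : ℝ, 0 ≤ q ∧ q < 1 ∧ ∀ (P : Set D) (z : V) (m : ℤ), 1 ≤ m →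
  (Loc {ω | shut (XX P) ω ∈ Arm1 z (13 * m) (39 * m)} ∧
    Dep {ω | shut (XX P) ω ∈ Arm1 z (13 * m) (39 * m)} (XX P)ᶜ ∧
    Q {ω | shut (XX P) ω ∈ Arm1 z (13 * m) (39 * m)} ≤ q) ∧
  (Loc {ω | shut (XD P) (du ω) ∈ Arm1 z (13 * m) (39 * m)} ∧
    Dep {ω | shut (XD P) (du ω) ∈ Arm1 z (13 * m) (39 * m)} (XX P)ᶜ ∧
    Q {ω | shut (XD P) (du ω) ∈ Arm1 z (13 * m) (39 * m)} ≤ q)

-- deps: PAST FUT STOP KA KB GOODP GOODD RSWP ARMX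
def S_LEVEL : Prop := ∃ q : ℝ, 0 ≤ q ∧ q < 1 ∧ ∀ N : ℕ, ∃ C : ℝ, 0 ≤ C ∧
  ∀ (d : Fin 4) (m l R r : ℤ), 1 ≤ m → 14 * m ≤ l → R + 13 * m ≤ r → r ≤ N * m → l + 3 * m ≤ r →
    Q (AA d R (l + 40 * m)) ≤ C * Q (Sep 0 r d) + q * Q (AA d R l)

-- deps:
def S_ROTA : Prop := ∀ (d : Fin 4) (n : ℤ), 1 ≤ n →
  Q (Reach d n) ≤ ∑ d' : Fin 4, Q (AA d' (n - 1) n)

-- deps:
def S_ROTB : Prop := ∀ (d : Fin 4) (n R : ℤ), 1 ≤ n → n ≤ R →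
  Q (AA d (n - 1) n) ≤ Q (AA 1 R n) + Q (AA 3 R n)

-- deps: LEVEL ROTA ROTB
def S_REC : Prop := ∀ ε : ℝ, 0 < ε → ∃ (K : ℕ) (C : ℝ), 1 ≤ K ∧ 0 ≤ C ∧ ∀ m : ℕ, 1 ≤ m →
  UR (80 * K * m) ≤ C * (Q (Sep 0 (120 * K * m) 1) + Q (Sep 0 (120 * K * m) 3)) +
    ε * UR (40 * K * m)

/-! ### the estimates -/

-- deps:
def S_H2 : Prop := ∀ (A1 A2 F1 F2 : Set Cfg) (S1 S2 Z1 Z2 : Set E), Loc A1 → Loc A2 → Loc F1 →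
  Loc F2 → IsUpperSet A1 → IsLowerSet A2 → IsUpperSet F1 → IsLowerSet F2 →
  Dep A1 S1 → Dep A2 S2 → Dep F1 Z1 → Dep F2 Z2 →
  Disjoint Z1 S2 → Disjoint Z1 Z2 → Disjoint Z2 S1 →
  Q (A1 ∩ A2) * Q F1 * Q F2 ≤ Q (A1 ∩ A2 ∩ F1 ∩ F2)

-- deps:
def S_LOOP : Prop := ∀ (d : Fin 4) (k : ℤ), TA 0 d (k + 1) ⊆ Reach d k

-- deps:
def S_TRS : Prop := ∀ (z : V) (d : Fin 4) (r : ℤ),
  (0 ≤ r → Q (TA z d r) = Q (TA 0 d r)) ∧ (1 ≤ r → Q (Sep z r d) = Q (Sep 0 r d))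

-- deps: CYL EVFR UP2
def S_TALO : Prop := ∃ c : ℝ, 0 < c ∧ ∀ k : ℕ, 1 ≤ k → c ≤ (k : ℝ) ^ (1 / 4 : ℝ) * Q (TA 0 1 k)

-- deps: CYL WREV WE SHIFT EXT1
def S_SEPUP : Prop := ∃ C : ℝ, ∀ (r : ℕ) (d : Fin 4), 1 ≤ r → d = 1 ∨ d = 3 →
  (r : ℝ) ^ (1 / 4 : ℝ) * Q (Sep 0 r d) ≤ C

-- deps: REC SEPUP
def S_UUP : Prop := ∃ C : ℝ, ∀ n : ℕ, 1 ≤ n → (n : ℝ) ^ (1 / 4 : ℝ) * UR n ≤ C

-- deps: REC UUP LOOP TALO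
def S_SEPLO : Prop := ∃ (N : ℕ) (c : ℝ), 1 ≤ N ∧ 0 < c ∧ ∀ m : ℕ, 1 ≤ m →
  c ≤ (m : ℝ) ^ (1 / 4 : ℝ) * (Q (Sep 0 (N * m) 1) + Q (Sep 0 (N * m) 3))

/-! ### the path -/

-- deps:
def S_EXIT : Prop := ∀ n : ℕ, Integrable (fun ω => (exitTime n ω : ℝ)) crit ∧
  meanExit n = ∑ c ∈ Bx n, Q (Vis n c)

-- deps:
def S_VISUP : Prop := ∀ (n : ℕ) (x : V) (d : Fin 4), 2 ≤ x.2 → Vis n (x, d) ⊆ TA x d (x.2 - 2)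

-- deps: H2 TRS
def S_EXT2 : Prop := ∃ c : ℝ, 0 < c ∧ ∀ (z : V) (r : ℤ) (d : Fin 4), 1 ≤ r → r < z.2 →
  z.2 ≤ 2 * r → c * Q (Sep 0 r d) ≤ Q (EV z r d)

-- deps:
def S_EXTD : Prop := ∀ (ω : Cfg) (z : V) (r : ℤ) (d : Fin 4), -r < z.1 → z.1 < r → r < z.2 →
  z.2 ≤ 2 * r → ω ∈ EV z r d →
  Conn (bc ω) (Rc (-(4 * r)) (4 * r) (-(4 * r)) (4 * r)) (0, 0) z ∧
    Conn (du (bc ω)) (Rc (-(4 * r)) (4 * r) (-(4 * r)) (4 * r)) (0, -1) (fc z d)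

-- deps: J2
def S_DBL : Prop := ∀ (σ : Cfg) (R : ℤ) (c : D), σ ((0, 0), true) = false → 1 ≤ R →
  c ≠ ((0, 0), 0) → Conn σ (Rc (-R) R (-R) R) (0, 0) c.1 →
  Conn (du σ) (Rc (-R) R (-R) R) (0, -1) (fd c) →
  ∃ J : D → ℤ, J ((0, 0), 1) ≠ J ((0, 0), 0) ∧
    (∀ c', c' ≠ ((0, 0), 0) → c' ≠ c → J (step σ c') = J c') ∧ ∀ c' : D, R < nm 0 c'.1 → J c' = 0

-- deps: DBL
def S_PATHD : Prop := ∀ (ω : Cfg) (R : ℤ) (n : ℕ) (c : D), 1 ≤ R → R < n → 1 ≤ c.1.2 →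
  Conn (bc ω) (Rc (-R) R (-R) R) (0, 0) c.1 →
  Conn (du (bc ω)) (Rc (-R) R (-R) R) (0, -1) (fd c) → ω ∈ Vis n c

-- deps: EXIT VISUP TRS LOOP UUP
def S_FINUP : Prop := ∃ C : ℝ, ∀ n : ℕ, 1 ≤ n → meanExit n ≤ C * (n : ℝ) ^ (7 / 4 : ℝ)

-- deps: EXIT EXT2 EXTD PATHD SEPLO
def S_FINLO : Prop := ∃ c : ℝ, 0 < c ∧ ∀ n : ℕ, 1 ≤ n → c * (n : ℝ) ^ (7 / 4 : ℝ) ≤ meanExit n

end Pool.Agent.P.MP_6c8efb_pr.Two
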