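import Pool.Agent.P.MP_6c8efb_pr.Two.IfaceA
import Pool.Agent.P.MP_6c8efb_pr.Two.IfaceB

section KER2S

/-! Step KER2. -/

namespace Pool.Agent.P.MP_6c8efb_pr.One

open Polynomial Filter Topology
open Arm (q ah ac Nz Gen Near LPd LP1 TC Pt TConn q_eq q_cube q_ne_zero)

namespace KER2x

open MeasureTheory

theorem norm_rr_le (ψ x : ℝ) : ‖rr ψ x‖ ≤ 2 := by
  have h1 := LogintA.nsq (Real.pi * x / 2) (-ψ)
  have h2 := LogintA.nsq (3 * Real.pi * x / 2) ψ
  have h3 : Real.cosh (2 * (Real.pi * x / 2)) ≤ Real.cosh (2 * (3 * Real.pi * x / 2)) := by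
    rw [Real.cosh_le_cosh, show 2 * (Real.pi * x / 2) = Real.pi * x by ring,
      show 2 * (3 * Real.pi * x / 2) = 3 * (Real.pi * x) by ring, abs_mul 3,
      abs_of_pos (show (0 : ℝ) < 3 by norm_num)]
    linarith [abs_nonneg (Real.pi * x)]
  rw [show 2 * -ψ = -(2 * ψ) by ring, Real.cos_neg, Complex.ofReal_neg, neg_mul,
    ← sub_eq_add_neg] at h1
  have h4 : ‖Complex.cosh (((Real.pi * x / 2 : ℝ) : ℂ) - ψ * Complex.I)‖ ≤
      ‖Complex.cosh (((3 * Real.pi * x / 2 : ℝ) : ℂ) + ψ * Complex.I)‖ := by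
    refine (sq_le_sq₀ (norm_nonneg _) (norm_nonneg _)).1 ?_
    rw [h1, h2]
    linarith
  unfold rr
  refine (norm_add_le _ _).trans ?_
  rw [norm_one, norm_div]
  linarith [div_le_one_of_le₀ h4 (norm_nonneg _)]

theorem meas_rr (ψ : ℝ) : Measurable (rr ψ) := by
  unfold rr
  refine measurable_const.add (Measurable.div ?_ ?_) <;>
    exact Continuous.measurable (by fun_prop)

theorem den (x : ℝ) : Complex.cosh (((3 * Real.pi * x / 2 : ℝ) : ℂ) +
    ((Real.pi / 2 : ℝ) : ℂ) * Complex.I) =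
    (Real.sinh (3 * (Real.pi * x / 2)) : ℂ) * Complex.I := by
  rw [Complex.cosh_add, Complex.cosh_mul_I, Complex.sinh_mul_I, ← Complex.ofReal_cos,
    ← Complex.ofReal_sin, Real.cos_pi_div_two, Real.sin_pi_div_two, ← Complex.ofReal_sinh,
    show 3 * Real.pi * x / 2 = 3 * (Real.pi * x / 2) by ring]
  simp

theorem num (x : ℝ) : Complex.cosh (((Real.pi * x / 2 : ℝ) : ℂ) -
    ((Real.pi / 2 : ℝ) : ℂ) * Complex.I) = -((Real.sinh (Real.pi * x / 2) : ℂ) * Complex.I) := by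
  rw [Complex.cosh_sub, Complex.cosh_mul_I, Complex.sinh_mul_I, ← Complex.ofReal_cos,
    ← Complex.ofReal_sin, Real.cos_pi_div_two, Real.sin_pi_div_two, ← Complex.ofReal_sinh]
  simp

theorem rr_end {x : ℝ} (hx : x ≠ 0) : rr (Real.pi / 2) x = r2 x := by
  have ha : Real.pi * x / 2 ≠ 0 := by have := Real.pi_pos; positivity
  have hs : Real.sinh (Real.pi * x / 2) ≠ 0 := Real.sinh_ne_zero.2 ha
  have h3 : Real.sinh (3 * (Real.pi * x / 2)) =
      Real.sinh (Real.pi * x / 2) * (2 * Real.cosh (Real.pi * x) + 1) := by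
    have e : Real.cosh (Real.pi * x) = 2 * Real.sinh (Real.pi * x / 2) ^ 2 + 1 := by
      conv_lhs => rw [show Real.pi * x = 2 * (Real.pi * x / 2) by ring]
      rw [Real.cosh_two_mul, Real.cosh_sq]
      ring
    rw [Real.sinh_three_mul, e]
    ring
  have hc : 2 * Real.cosh (Real.pi * x) + 1 ≠ 0 := by
    have := Real.cosh_pos (Real.pi * x)
    positivity
  unfold rr r2
  rw [num, den, neg_div, mul_div_mul_right _ _ Complex.I_ne_zero, ← Complex.ofReal_div, h3,
    div_mul_cancel_left₀ hs, one_div, ← sub_eq_add_neg, Complex.ofReal_sub, Complex.ofReal_one]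

theorem rr_cont {x : ℝ} (hx : x ≠ 0) : ContinuousAt (fun ψ => rr ψ x) (Real.pi / 2) := by
  have ha : 3 * (Real.pi * x / 2) ≠ 0 := by have := Real.pi_pos; positivity
  unfold rr
  refine continuousAt_const.add (ContinuousAt.div (by fun_prop) (by fun_prop) ?_)
  rw [den]
  exact mul_ne_zero (Complex.ofReal_ne_zero.2 (Real.sinh_ne_zero.2 ha)) Complex.I_ne_zero

theorem int_lim (u : ℝ) :
    Tendsto (fun ψ : ℝ => ∫ x : ℝ, rr ψ x * Complex.exp (Complex.I * (u * x : ℝ)) * (wt0 x : ℂ))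
      (𝓝[<] (Real.pi / 2))
      (𝓝 (∫ x : ℝ, r2 x * Complex.exp (Complex.I * (u * x : ℝ)) * (wt0 x : ℂ))) := by
  have hi : Integrable wt0 := by simpa using integrable_poly 1
  refine tendsto_integral_filter_of_dominated_convergence (fun x => 2 * wt0 x)
    (Eventually.of_forall fun ψ => ?_) (Eventually.of_forall fun ψ => ae_of_all _ fun x => ?_)
    (hi.const_mul 2) ?_
  · refine (((meas_rr ψ).mul ?_).mul ?_).aestronglyMeasurable <;>
      exact Continuous.measurable (by fun_prop)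
  · rw [norm_mul, norm_mul, Complex.norm_exp_I_mul_ofReal, mul_one, Complex.norm_real,
      Real.norm_of_nonneg (wt0_pos x).le]
    exact mul_le_mul_of_nonneg_right (norm_rr_le ψ x) (wt0_pos x).le
  · filter_upwards [compl_mem_ae_iff.2 (measure_singleton (μ := volume) (0 : ℝ))] with x hx
    rw [← rr_end hx]
    exact (((rr_cont hx).tendsto.mono_left nhdsWithin_le_nhds).mul_const _).mul_const _

end KER2x

theorem p_KER2 :
    S_KER2 := by
  intro s t
  have hal : Continuous al := by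
    unfold al
    fun_prop
  have hne : ∀ ψ, al ψ ≠ 0 := fun ψ => Complex.exp_ne_zero _
  have hL : Continuous fun ψ => phi (al ψ) (al ψ)⁻¹ (Complex.exp s) (Complex.exp t) := by
    unfold phi
    exact (hal.div_const _).add ((hal.inv₀ hne).div_const _)
  have hE : Continuous fun ψ : ℝ =>
      Complex.exp ((-(s + t) / 2 - (t - s) * ψ / Real.pi : ℝ) : ℂ) * (3 / 4) := by
    fun_prop
  have h1 := (hL.tendsto (Real.pi / 2)).mono_left
    (nhdsWithin_le_nhds (s := Set.Iio (Real.pi / 2)))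
  have h2 := ((hE.tendsto (Real.pi / 2)).mono_left
    (nhdsWithin_le_nhds (s := Set.Iio (Real.pi / 2)))).mul (KER2x.int_lim (3 / 2 * (t - s)))
  refine tendsto_nhds_unique h1 (h2.congr' ?_)
  filter_upwards [Ioo_mem_nhdsLT (show 0 < Real.pi / 2 by have := Real.pi_pos; positivity)]
    with ψ hψ
  exact (a_Ker ψ s t hψ.1.le hψ.2).symm

end Pool.Agent.P.MP_6c8efb_pr.One

end KER2S

section SGNS

/-! Step SGN. -/

namespace Pool.Agent.P.MP_6c8efb_pr.One

open Polynomial Filter Topology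
open Arm (q ah ac Nz Gen Near LPd LP1 TC Pt TConn q_eq q_cube q_ne_zero)

namespace SGNx

/-- the potential of a colouring -/
def pot (L : ℕ) (f : ℕ → K) (k : ℕ) : K := -lam L f - lam k f

theorem sq_sign (k : ℕ) : ((-1 : K) ^ k) * (-1) ^ k = 1 := by
  rw [← mul_pow]; simp

theorem pot_zero (L : ℕ) (f : ℕ → K) : pot L f 0 = -lam L f := by simp [pot, lam]

theorem pot_end (L : ℕ) (f : ℕ → K) : pot L f L = -pot L f 0 := by
  rw [pot_zero, pot]
  generalize lam L f = x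
  revert x
  decide

theorem pot_step (L : ℕ) (f : ℕ → K) (k : ℕ) :
    pot L f k - pot L f (k + 1) = (-1) ^ k * f k := by
  simp only [pot, lam, Finset.sum_range_succ]
  ring

theorem grad_pot {L : ℕ} {p : St} (h : Bd L p) {f : ℕ → K} (hf : f ∈ p) :
    grad L (pot L f) = f := by
  funext k
  unfold grad
  split_ifs with hk
  · rw [pot_step, ← mul_assoc, sq_sign, one_mul]
  · exact (h.eq_zero hf (not_lt.1 hk)).symm

theorem grad_tw {L k : ℕ} (hk : k < L) (Φ : ℕ → K) :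
    grad L (fun k => (-1) ^ k * Φ k) k = Φ k + Φ (k + 1) := by
  unfold grad
  rw [if_pos hk]
  linear_combination (Φ k + Φ (k + 1)) * sq_sign k

theorem Nn_zero {l : (ℕ → K) → K} {S : St} (hS : Alg S) (h : ∀ f ∈ S, l f = 0) : Nn l S = 0 := by
  have e : Submodule.span K (Set.range fun f : S => fun g : S => l (f.1 * g.1 * g.1)) = ⊥ := by
    rw [Submodule.span_eq_bot]
    rintro _ ⟨f, rfl⟩
    funext g
    exact h _ (hS.mul _ f.2 _ g.2 _ g.2)
  rw [Nn, e, finrank_bot]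

end SGNx

open SGNx in
theorem p_SGN (hONE : S_ONE) (hALG : S_ALG) (hMIN : S_MIN) (hTW : S_TW) :
    S_SGN := by
  intro L p r hL hp hr
  have hA : Alg (p ∩ r) := (hALG L p hp).2.inter (hALG L r hr).2
  have hF : (p ∩ r).Finite := (hALG L p hp).1.inter_of_left r
  have tw : ∀ f ∈ p ∩ r, grad L (fun k => (-1) ^ k * pot L f k) ∈ p ∩ r := fun f hf =>
    ⟨(hTW L p hp).1 _ (pot_end L f) (by rw [grad_pot hp hf.1]; exact hf.1),
      (hTW L r hr).1 _ (pot_end L f) (by rw [grad_pot hr hf.2]; exact hf.2)⟩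
  have s0 : ∀ f : ℕ → K, pot L f 1 = -lam L f - f 0 := fun f => by simp [pot, lam]
  split_ifs with hE
  · have z : ∀ f ∈ p ∩ r, lam L f = 0 := by
      intro f hf
      have h1 := hE _ (tw f hf).1 (tw f hf).2
      rw [grad_tw hL, pot_zero, s0, hE f hf.1 hf.2] at h1
      revert h1
      generalize lam L f = x
      revert x
      decide
    rw [Nn_zero hA z, Nn_zero hA fun f hf => by rw [z f hf, hE f hf.1 hf.2, add_zero]]
    norm_num
  · obtain ⟨b, hb, b1, hm⟩ := hMIN (p ∩ r) 0 hF hA (by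
      by_contra h
      exact hE fun f h1 h2 => by_contra fun h3 => h ⟨f, ⟨h1, h2⟩, h3⟩)
    have lin : IsLinearMap K fun f : ℕ → K => lam L f + f 0 :=
      ⟨fun f g => by rw [(lam_linear L).map_add, Pi.add_apply]; ring,
        fun c f => by rw [(lam_linear L).map_smul, Pi.smul_apply, smul_add]⟩
    have h3 : ∀ x : K, x = 0 ∨ x = 1 ∨ x = -1 := by decide
    rcases h3 (lam L b) with h | h | h
    · rw [hONE (lam L) _ _ b 0 hF hA (lam_linear L) lin hb b1 hm
        (fun g _ e => by rw [e, add_zero]) h (by rw [h, b1]; decide), pow_succ]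
      ring
    · exfalso
      have t0 : grad L (fun k => (-1) ^ k * pot L b k) 0 = 0 := by
        rw [grad_tw hL, pot_zero, s0, h, b1]
        decide
      have t1 := hm _ (tw b hb)
      rw [t0, zero_smul] at t1
      have ne : ∀ k, k ≤ L → pot L b k ≠ 0 := by
        intro k
        induction k with
        | zero => intro _; rw [pot_zero, h]; decide
        | succ k ih =>
          intro hk e
          have u := congrFun t1 k
          have v := pot_step L b k
          rw [Pi.mul_apply, Pi.mul_apply, grad_tw hk, e, add_zero, Pi.zero_apply] at u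
          rw [e, sub_zero] at v
          have w : pot L b k * pot L b k * pot L b k = 0 := by
            calc _ = pot L b k * ((-1) ^ k * b k) * ((-1) ^ k * b k) := by rw [← v]
              _ = ((-1) ^ k * (-1) ^ k) * (pot L b k * b k * b k) := by ring
              _ = 0 := by rw [u, mul_zero]
          have w' : ∀ x : K, x * x * x = 0 → x = 0 := by decide
          exact ih (Nat.le_of_succ_le hk) (w' _ w)
      obtain ⟨k, hk, hz⟩ := (hTW L p hp).2
      exact ne k hk (hz _ (pot_end L b) (by rw [grad_pot hp hb.1]; exact hb.1))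
    · rw [hONE _ (lam L) _ b 0 hF hA lin (lam_linear L) hb b1 hm
        (fun g _ e => by rw [e, add_zero]) (by rw [h, b1]; decide) (by rw [h]; decide), pow_succ]
      ring

end Pool.Agent.P.MP_6c8efb_pr.One

end SGNS

section UP2S

/-! Step UP2. -/

namespace Pool.Agent.P.MP_6c8efb_pr.One

open Polynomial Filter Topology
open Arm (q ah ac Nz Gen Near LPd LP1 TC Pt TConn q_eq q_cube q_ne_zero)

namespace UP2x

open Arm Arm.CmpA UpA

theorem toC {e : ℤ} {τ : TC} {ω : Cfg} (hR : Rel e τ ω) {S : Set (ℤ × ℤ)} {x : V} {b : ℤ × ℤ}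
    (h : TConn τ S (co e x) b) : ∃ y, b = co e y ∧ Conn ω Set.univ x y := by
  refine h.ind (P := fun b => ∃ y, b = co e y ∧ Conn ω Set.univ x y) ⟨x, rfl, Conn.rfl'⟩ ?_
  rintro _ b - hl ⟨⟨p, q⟩, rfl, hc⟩
  obtain ⟨s, t, -, h2⟩ := link_iff.1 hl
  simp only [co, Prod.mk.injEq] at h2
  rcases h2 with ⟨h2, ⟨⟨rfl, rfl⟩, rfl⟩ | ⟨rfl, e1, e2⟩⟩ | ⟨h2, ⟨⟨e1, rfl⟩, rfl⟩ | ⟨rfl, rfl, e2⟩⟩
  · refine ⟨_, ?_, hc.snoc (d := 1) trivial trivial ((hR p q).1 ▸ h2)⟩
    simp [co, Prod.ext_iff]; omega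
  · have := (hR p (q - 1)).1
    rw [show p + (q - 1) + e = s by omega, show q - 1 - p = t by omega, h2] at this
    refine ⟨_, ?_, hc.snoc (d := 3) trivial trivial (by simpa using this.symm)⟩
    simp [co, Prod.ext_iff]; omega
  · have := (hR (p - 1) q).2
    rw [show p - 1 + q + e = s by omega, show q - (p - 1) - 1 = q - p by omega, h2] at this
    refine ⟨_, ?_, hc.snoc (d := 2) trivial trivial (by simpa using this.symm)⟩
    simp [co, Prod.ext_iff]; omega
  · have := (hR p q).2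
    rw [show q - p - 1 = t by omega, h2] at this
    refine ⟨_, ?_, hc.snoc (d := 0) trivial trivial (by simpa using this.symm)⟩
    simp [co, Prod.ext_iff]; omega

/-- the corner `(j, 0)` is joined to the boundary of the box -/
def B (k : ℕ) (j : ℤ) : Set TC :=
  {τ | ∃ a b : ℤ × ℤ, (a = (j, 0) ∧ ((2 * k + 2 : ℤ) ≤ |b.1| ∨ (2 * k + 2 : ℤ) ≤ |b.2|)) ∧
    TConn τ (Bx (k + 1)) a b}

theorem fr_sub {k m n : ℕ} (hm : 2 * k + 2 ≤ m) (hn : 2 * k + 2 ≤ n) {j : ℤ} (h0 : 0 ≤ j)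
    (hj : j ≤ 1) : Fr m n j ⊆ {τ | per (2 * m) τ ∈ B k j} := by
  rintro τ ⟨b, h1, h2⟩
  obtain ⟨x, y, -, hy, h3, h4⟩ := h2.exit (A := {z | |z.1| < 2 * k + 2 ∧ |z.2| < 2 * k + 2})
    (S' := Bx (k + 1)) (by simp only [Set.mem_ofPred_eq, abs_lt]; omega)
    (by simp only [Set.mem_ofPred_eq]; omega) (fun c _ e => by
      simp only [Bx, ends, Set.mem_ofPred_eq, abs_lt] at e ⊢
      split_ifs at e <;> simp only [] at e <;> omega)
  simp only [Set.mem_ofPred_eq] at hy
  exact ⟨_, y, ⟨rfl, by omega⟩, h3.snoc h4⟩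

theorem rel_du {τ : TC} {ω : Cfg} (h : Rel 0 τ ω) : Rel 1 τ (du ω) := fun x y => by
  have h1 := (h x (y + 1)).2
  have h2 := (h (x + 1) y).1
  rw [show x + (y + 1) + 0 = x + y + 1 by ring, show y + 1 - x - 1 = y - x by ring] at h1
  rw [show x + 1 + y + 0 = x + y + 1 by ring, show y - (x + 1) = y - x - 1 by ring] at h2
  exact ⟨by simpa [du, dl] using h1, by simpa [du, dl] using h2⟩

theorem toA {k : ℕ} {e : ℤ} (h0 : 0 ≤ e) (h1 : e ≤ 1) {τ : TC} {ω : Cfg} (hR : Rel e τ ω)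
    (h : τ ∈ B k e) : ω ∈ AG 0 Set.univ k := by
  obtain ⟨_, b, ⟨rfl, h2⟩, h3⟩ := h
  obtain ⟨y, rfl, h4⟩ := toC (x := 0) hR (by simpa [co] using h3)
  refine ⟨y, ?_, h4⟩
  simp only [co, le_abs] at h2
  simp only [nm, Prod.fst_zero, Prod.snd_zero, sub_zero]
  rw [le_max_iff, le_abs, le_abs]
  omega

end UP2x

open UP2x UpA in
theorem p_UP2 :
    S_UP2 := by
  intro k m n hm hn
  have hd : Dep (B k 0 ∩ B k 1) (Bx (k + 1)) := (Arm.dep_tconn _ _).inter (Arm.dep_tconn _ _)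
  have hf' : (Bx (k + 1)).Finite := Arm.rect_finite _ _ _ _
  refine (Arm.Pt_mono (Set.inter_subset_inter (fr_sub hm hn le_rfl zero_le_one)
    (fr_sub hm hn zero_le_one le_rfl))).trans
      ((a_Reix _ _ _ _ hf' hd (inj (m := m) (by omega))).le.trans ?_)
  refine (Arm.CmpA.Pt_tm (hd.loc hf')).ge.trans (Pr_mono fun ω h => ?_)
  exact ⟨toA le_rfl zero_le_one (Arm.CmpA.rel0 ω) h.1,
    toA zero_le_one le_rfl (rel_du (Arm.CmpA.rel0 ω)) h.2⟩

end Pool.Agent.P.MP_6c8efb_pr.One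

end UP2S

section CYLS

/-! Step CYL. -/

namespace Pool.Agent.P.MP_6c8efb_pr.One

open Polynomial Filter Topology
open Arm (q ah ac Nz Gen Near LPd LP1 TC Pt TConn q_eq q_cube q_ne_zero)

namespace CYLx

open LawA Arm.LawA in
theorem law (L n : ℕ) : (Pt (EvN2 L n) : ℂ) =
    Bil2 L ((TB L ^ n) (Finsupp.single (zz L) 1)) ((TB L ^ n) (Finsupp.single (zz L) 1)) := by
  classical
  obtain ⟨a1, a2, a3⟩ := LawA.top_law L n 0
  obtain ⟨b1, b2, b3⟩ := LawA.bot_law L n
  have hl : Loc (EvN2 L n) := (a1.prod b1).loc {x | Ev2 x.1 x.2}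
  have hs : ∀ τ, top L τ 0 n ∈ a1.finite_range.toFinset := fun τ => by simp
  have h1 := fub a1 b1 a2 b2 (Set.disjoint_left.2 fun c h h' => by
    simp only [Set.mem_ofPred_eq] at h h'
    omega) (fun p r => if Ev2 p r then 1 else 0) hs
  have h2 := fub a1 (locF_const ()) a2 (T := ∅) (fun _ _ _ => rfl) (Set.disjoint_empty _)
    (fun p _ => Ex fun τ => if Ev2 p (top L (flp τ) 0 n) then 1 else 0) hs
  have h3 : Pt (EvN2 L n) = Ex fun τ =>
      if Ev2 (top L τ 0 n) (top L (flp τ) 0 n) then 1 else 0 :=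
    Pr_eq_integral _ hl
  have h4 : ∀ c : ℝ, (Ex fun _ => c) = c := fun c => by simp [Ex]
  simp only [h4] at h2
  rw [h3, h1, ← h2, a3 fun p => Ex fun τ => if Ev2 p (top L (flp τ) 0 n) then 1 else 0]
  refine LinearMap.congr_fun (g := (Bil2 L).flip _) (Finsupp.lhom_ext fun p c => ?_) _
  rw [Finsupp.linearCombination_single, b3 fun r => if Ev2 p r then 1 else 0]
  simp [Bil2, apply_ite Complex.ofReal]

theorem Bil_sum {L : ℕ} {u v : W} (hu : Sup L u) (hv : Sup L v) :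
    Bil2 L u v = ∑ p ∈ SL L, u p * ∑ r ∈ SL L, v r *
      Bil2 L (Finsupp.single p 1) (Finsupp.single r 1) := by
  have e : Bil2 L u v = ∑ p ∈ SL L, u p * Bil2 L (Finsupp.single p 1) v :=
    hu.map_eq ((Bil2 L).flip v)
  rw [e]
  exact Finset.sum_congr rfl fun p _ => by rw [hv.map_eq]

open LimA (sol_sup pow_sup comp_lim) in
theorem lim {F : List ℂ → W} (hF : Sol F) {L : ℕ} (hL : Even L) : Tendsto (fun n =>
    Bil2 L ((TB L ^ n) (Finsupp.single (zz L) 1)) ((TB L ^ n) (Finsupp.single (zz L) 1))) atTop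
      (𝓝 (PP2 F L)) := by
  have s1 := sol_sup hF L
  have e : PP2 F L = Bil2 L ((tot (F (List.replicate L 1)))⁻¹ • F (List.replicate L 1))
      ((tot (F (List.replicate L 1)))⁻¹ • F (List.replicate L 1)) := by
    unfold PP2 NN
    simp only [List.length_replicate, List.map_replicate, inv_one, Bt_apply, map_smul,
      LinearMap.smul_apply, smul_eq_mul]
    ring
  rw [e, Bil_sum (s1.smul _) (s1.smul _)]
  simp only [fun n => Bil_sum (pow_sup a_TM (sup_single (bd_zz hL) 1) n)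
    (pow_sup a_TM (sup_single (bd_zz hL) 1) n)]
  refine tendsto_finsetSum _ fun p _ => (comp_lim a_Contr a_TM a_Pref hF hL p).mul ?_
  exact tendsto_finsetSum _ fun r _ => (comp_lim a_Contr a_TM a_Pref hF hL r).mul_const _

end CYLx

theorem p_CYL (hRATIO2 : S_RATIO2) (hASYM2 : S_ASYM2) :
    S_CYL := by
  obtain ⟨F, hF⟩ := a_Sol
  obtain ⟨c, C, hc, hA⟩ := hASYM2
  refine ⟨c, C, hc, fun m hm => ⟨‖PP2 F (2 * m)‖, ?_, ?_⟩⟩
  · refine (CYLx.lim hF (even_two_mul m)).norm.congr fun n => ?_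
    rw [← CYLx.law, Complex.norm_real, Real.norm_of_nonneg (Arm.Pt_nonneg _)]
  · rw [hRATIO2 F hF _ (even_two_mul m) (by omega)]; exact hA m hm

end Pool.Agent.P.MP_6c8efb_pr.One

end CYLS

section TALOS

/-! Step TALO. -/

namespace Pool.Agent.P.MP_6c8efb_pr.Two

open Function MeasureTheory



theorem p_TALO (hCYL : One.S_CYL) (hEVFR : One.S_EVFR) (hUP2 : One.S_UP2) :
    S_TALO := by
  obtain ⟨c, C, hc, h⟩ := hCYL
  refine ⟨c / 4, by positivity, fun k hk => ?_⟩
  obtain ⟨p, h1, h2, -⟩ := h (2 * k + 2) (by omega)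
  have h3 : p ≤ Q (TA 0 1 k) :=
    le_of_tendsto h1 ((Filter.eventually_ge_atTop (2 * k + 2)).mono fun n hn =>
      (Arm.Pt_mono (hEVFR (2 * k + 2) n (by omega))).trans (hUP2 k _ n le_rfl hn))
  have h4 : ((2 * k + 2 : ℕ) : ℝ) ^ (1 / 4 : ℝ) ≤ 4 * (k : ℝ) ^ (1 / 4 : ℝ) := by
    have k1 : (1 : ℝ) ≤ k := by exact_mod_cast hk
    refine (Real.rpow_le_rpow (by positivity) (show _ ≤ 4 * (k : ℝ) by push_cast; linarith)
      (by norm_num)).trans ?_
    rw [Real.mul_rpow (by norm_num) (by positivity)]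
    refine mul_le_mul_of_nonneg_right ?_ (by positivity)
    simpa using Real.rpow_le_rpow_of_exponent_le (by norm_num : (1 : ℝ) ≤ 4)
      (by norm_num : (1 / 4 : ℝ) ≤ 1)
  have h5 := (mul_le_mul_of_nonneg_left h3
    (by positivity : 0 ≤ ((2 * k + 2 : ℕ) : ℝ) ^ (1 / 4 : ℝ))).trans
    (mul_le_mul_of_nonneg_right h4 (Pr_nonneg _ _))
  linarith

end Pool.Agent.P.MP_6c8efb_pr.Two

end TALOS

section SEPUPS

/-! Step SEPUP. -/

namespace Pool.Agent.P.MP_6c8efb_pr.Two

open Function MeasureTheory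



theorem p_SEPUP (hCYL : One.S_CYL) (hWREV : One.S_WREV) (hWE : One.S_WE) (hSHIFT : One.S_SHIFT) (hEXT1 : One.S_EXT1) :
    S_SEPUP := by
  obtain ⟨c, C, hc, h⟩ := hCYL
  obtain ⟨g, hg, hG⟩ := hEXT1
  refine ⟨C / g, fun r d hr hd => ?_⟩
  obtain ⟨p, h1, -, h2⟩ := h (7 * r) (by omega)
  have h3 : g * Q (Sep 0 r d) ≤ p :=
    ge_of_tendsto h1 ((Filter.eventually_ge_atTop (7 * (7 * r))).mono fun n hn => by
      refine (hG r d hr).trans (le_trans ?_ (Arm.Pt_mono (hWREV (7 * r) n (by omega))))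
      rcases hd with rfl | rfl
      · exact (hWE _ n (by omega) hn).1
      · exact (hWE _ n (by omega) hn).2.trans (hSHIFT _ n (by omega)))
  have h4 : (r : ℝ) ^ (1 / 4 : ℝ) ≤ ((7 * r : ℕ) : ℝ) ^ (1 / 4 : ℝ) :=
    Real.rpow_le_rpow (by positivity) (by exact_mod_cast (by omega : r ≤ 7 * r)) (by norm_num)
  have h0 : 0 ≤ g * Q (Sep 0 r d) := mul_nonneg hg.le (Pr_nonneg _ _)
  have h5 := mul_le_mul h4 h3 h0 (by positivity)
  rw [le_div_iff₀ hg]
  linarith

end Pool.Agent.P.MP_6c8efb_pr.Two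

end SEPUPS
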