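import Pool.Agent.P.MP_6c8efb_pr.Two.IfaceA

section WREVS

/-! Step WREV. -/

namespace Pool.Agent.P.MP_6c8efb_pr.One

open Polynomial Filter Topology
open Arm (q ah ac Nz Gen Near LPd LP1 TC Pt TConn q_eq q_cube q_ne_zero)

namespace WREVx

open WrapEvA

theorem cover {τ : TC} {n L : ℕ} (hL : 0 < L) (hE : Even L) {h v : ℕ → ℤ → K}
    (ht : ∀ (s : ℕ) (t : ℤ), s < L → -(n : ℤ) ≤ t → t < n →
      Tile (τ (s, t)) (h s t) (h s (t + 1)) (v s t) (v (s + 1) t))
    (hs : ∀ t : ℤ, -(n : ℤ) ≤ t → t < n → v L t = -v 0 t) (h0 : τ ∈ Wr L n 0)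
    (h1 : τ ∈ Wr L n 1) : h 0 0 = 0 := by
  have hL' : (0 : ℤ) < L := by exact_mod_cast hL
  have dm : ∀ (k : ℤ) (r : ℕ), r < L → (r + L * k) / L = k ∧ (r + L * k) % L = r := fun k r hr =>
    (Int.ediv_emod_unique hL').2 ⟨rfl, by omega, by omega⟩
  obtain ⟨H, hH⟩ : ∃ H : ℤ → ℤ → K, H = fun s t => e (s / L) * h (s % L).toNat t := ⟨_, rfl⟩
  obtain ⟨V, hV⟩ : ∃ V : ℤ → ℤ → K, V = fun s t => e (s / L) * v (s % L).toNat t := ⟨_, rfl⟩
  have tl : ∀ s t : ℤ, -(n : ℤ) ≤ t → t < n →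
      Tile (per L τ (s, t)) (H s t) (H s (t + 1)) (V s t) (V (s + 1) t) := by
    intro s t h1 h2
    obtain ⟨k, r, hr, rfl⟩ : ∃ (k : ℤ) (r : ℕ), r < L ∧ s = r + L * k := by
      have h3 := Int.emod_nonneg s hL'.ne'
      have h4 := Int.emod_lt_of_pos s hL'
      refine ⟨s / L, (s % L).toNat, by omega, ?_⟩
      rw [Int.toNat_of_nonneg h3, Int.emod_add_mul_ediv]
    have h3 : e ((r + L * k + 1) / L) * v ((r + L * k + 1) % (L : ℤ)).toNat t =
        e k * v (r + 1) t := by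
      rcases (Nat.succ_le_of_lt hr).eq_or_lt with h4 | h4
      · have h5 := dm (k + 1) 0 hL
        rw [show ((0 : ℕ) : ℤ) + L * (k + 1) = r + L * k + 1 by rw [← h4]; push_cast; ring] at h5
        rw [h5.1, h5.2, e_succ, show r + 1 = L from h4, hs t h1 h2]
        simp
      · have h5 := dm k (r + 1) h4
        rw [show ((r + 1 : ℕ) : ℤ) + L * k = r + L * k + 1 by push_cast; ring] at h5
        rw [h5.1, h5.2, Int.toNat_natCast]
    simp only [hH, hV, per, h3, (dm k r hr).1, (dm k r hr).2, Int.toNat_natCast]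
    exact (ht r t hr h1 h2).mul _
  have a0 := plane (L := L) tl (by simpa [Wr] using h0)
  have c1 : TConn (fun c => per L τ (c + (1, 0))) {c | -(n : ℤ) ≤ c.2 ∧ c.2 < n} (0, 0) (L, 0) := by
    have := Arm.TConn.shift (τ := fun c => per L τ (c + (1, 0))) (v := (-1, 0))
      (S := {c | -(n : ℤ) ≤ c.2 ∧ c.2 < n}) (S' := {c | -(n : ℤ) ≤ c.2 ∧ c.2 < n})
      (a := (1, 0)) (b := (1 + L, 0)) (by simpa [Wr, add_assoc, Prod.mk_zero_zero] using h1) (by simp)
    simpa using this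
  have a1 := plane (L := L) (σ := fun c => per L τ (c + (1, 0))) (H := fun s t => H (s + 1) t)
    (V := fun s t => V (s + 1) t) (fun s t h1 h2 => by simpa using tl (s + 1) t h1 h2) c1
  have s1 := Finset.sum_range_succ (fun i : ℕ => (-1) ^ i * H i 0) L
  have s2 := Finset.sum_range_succ' (fun i : ℕ => (-1) ^ i * H i 0) L
  have s3 : ∑ i ∈ Finset.range L, (-1) ^ (i + 1) * H ((i + 1 : ℕ) : ℤ) 0 =
      -∑ i ∈ Finset.range L, (-1) ^ i * H (i + 1) 0 := by
    rw [← Finset.sum_neg_distrib]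
    exact Finset.sum_congr rfl fun i _ => by push_cast; ring
  have e0 : H 0 0 = h 0 0 := by simp [hH, e]
  have eL : H L 0 = -h 0 0 := by simp [hH, e, Int.ediv_self hL'.ne']
  rw [s3, a1, s1, a0, hE.neg_one_pow, eL] at s2
  simp only [Nat.cast_zero, e0] at s2
  have three : (3 : K) = 0 := rfl
  linear_combination s2 + h 0 0 * three

end WREVx

theorem p_WREV :
    S_WREV := by
  intro m n hm τ hτ f h1 h2
  have hL : Even (2 * m) := even_two_mul m
  have h0 : 0 < 2 * m := by omega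
  generalize 2 * m = L at *
  obtain ⟨-, fH, fV, c1, e1⟩ := (a_Col L τ n f hL).1 h1
  obtain ⟨-, gH, gV, c2, e2⟩ := (a_Col L (flp τ) n f hL).1 h2
  have := WREVx.cover h0 hL (h := fun s t => if 0 ≤ t then fH s t.toNat else gH s (-t).toNat)
    (v := fun s t => if 0 ≤ t then fV s t.toNat else gV s (-1 - t).toNat)
    (fun s t hs h3 h4 => ?_) (fun t h3 h4 => ?_) hτ.1 hτ.2
  · rw [← this]
    simp [e1 0 h0]
  · rcases le_or_gt 0 t with ht | ht
    · obtain ⟨t, rfl⟩ := Int.eq_ofNat_of_zero_le ht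
      have h5 : ((t : ℤ) + 1).toNat = t + 1 := by omega
      simp only [if_pos ht, if_pos (show (0 : ℤ) ≤ t + 1 by omega), h5, Int.toNat_natCast]
      exact ⟨c1.tt s t hs (by omega), c1.ff s t hs (by omega)⟩
    · obtain ⟨u, rfl⟩ : ∃ u : ℕ, t = -1 - u := ⟨(-1 - t).toNat, by omega⟩
      have h5 : (if (0 : ℤ) ≤ -1 - u + 1 then fH s (-1 - u + 1 : ℤ).toNat
          else gH s (-(-1 - u + 1) : ℤ).toNat) = gH s u := by
        rcases u with _ | u
        · simp [e1 s hs, e2 s hs]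
        · rw [if_neg (by omega)]; congr 1; omega
      have h6 : (-(-1 - u) : ℤ).toNat = u + 1 := by omega
      have h7 : (-1 - (-1 - u) : ℤ).toNat = u := by omega
      simp only [if_neg ht.not_ge, h5, h6, h7]
      exact ⟨fun b => c2.ff s u hs (by omega) (by simp [flp, b]),
        fun b => c2.tt s u hs (by omega) (by simp [flp, b])⟩
  · split_ifs with ht
    · exact c1.seam _ (by omega)
    · exact c2.seam _ (by omega)

end Pool.Agent.P.MP_6c8efb_pr.One

end WREVS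

section FRM2S

/-! Step FRM2. -/

namespace Pool.Agent.P.MP_6c8efb_pr.One

open Polynomial Filter Topology
open Arm (q ah ac Nz Gen Near LPd LP1 TC Pt TConn q_eq q_cube q_ne_zero)

namespace FRM2x

open Arm (up)

theorem adj (hINV : S_INV) {i L : ℕ} (h : i ≤ L) (p r : St) :
    Nn (lam (L + 2)) (cup i p ∩ r) = Nn (lam L) (p ∩ cap i r) := by
  refine hINV _ _ _ _ (fun f j => f (up i j)) 1 one_ne_zero
    (fun f hf => ⟨hf.1.2, f, hf.2, hf.1.1, fun _ => rfl⟩) ?_ fun f hf g hg => ?_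
  · rintro g ⟨hg, f, hf, h1, e⟩
    exact ⟨f, ⟨⟨h1, (mem_congr e).2 hg⟩, hf⟩, funext e⟩
  · rw [one_mul]
    exact FrmA.sum_up h (f := f * g * g) (by simp only [Pi.mul_apply, hf.1.1, hg.1.1])

/-- the alternating sum over the old sites -/
def mid (L : ℕ) (f : ℕ → K) : K := ∑ i ∈ Finset.range L, (-1) ^ (i + 1) * f (i + 1)

theorem mid_linear (L : ℕ) : IsLinearMap K (mid L) :=
  ⟨fun f g => by simp [mid, mul_add, Finset.sum_add_distrib],
    fun c f => by simp [mid, Finset.mul_sum, mul_left_comm]⟩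

theorem lam_eq {L : ℕ} (hL : Even L) (f : ℕ → K) :
    lam (L + 2) f = mid L f + f 0 - f (L + 1) := by
  rw [lam, Finset.sum_range_succ, Finset.sum_range_succ', pow_succ, hL.neg_one_pow, mid]
  ring

/-- the colouring of the arc through the seam -/
def bb (L j : ℕ) : K := if j = 0 then 1 else if j = L + 1 then -1 else 0

theorem bb_mem {L : ℕ} {s : St} (hs : Bd L s) : bb L ∈ cupS L s := by
  refine mem_cupS.2 ⟨by simp [bb], (mem_congr fun j => ?_).2 hs.zero_mem⟩
  simp only [bb]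
  split_ifs <;> first | omega | rfl | contradiction

theorem mid_bb (L : ℕ) : mid L (bb L) = 0 :=
  Finset.sum_eq_zero fun j hj => by
    have := Finset.mem_range.1 hj
    rw [bb, if_neg (by omega), if_neg (by omega), mul_zero]

theorem one (hONE : S_ONE) (hALG : S_ALG) {L : ℕ} {p r : St} (hp : Bd L p) (hr : Bd L r) :
    Nn (lam (L + 2)) (cupS L p ∩ cupS L r) = Nn (mid L) (cupS L p ∩ cupS L r) + 1 := by
  refine hONE _ _ _ (bb L) 0 ((hALG _ _ hp.cupS).1.inter_of_left _)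
    ((hALG _ _ hp.cupS).2.inter (hALG _ _ hr.cupS).2) (mid_linear L) (lam_linear _)
    ⟨bb_mem hp, bb_mem hr⟩ rfl (fun f hf => funext fun j => ?_) (fun f hf h0 => ?_) (mid_bb L) ?_
  · simp only [Pi.mul_apply, Pi.smul_apply, smul_eq_mul, bb]
    split_ifs with h1 h2
    · rw [h1, mul_one]
    · rw [h2, (mem_cupS.1 hf.1).1]; ring
    · simp
  · rw [lam_eq hp.even, (mem_cupS.1 hf.1).1, h0]; ring
  · rw [lam_eq hp.even, mid_bb]
    simp only [bb, if_true, Nat.add_one_ne_zero, if_false]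
    decide

theorem inv (hINV : S_INV) (L : ℕ) (p r : St) :
    Nn (mid L) (cupS L p ∩ cupS L r) = Nn (lam L) (p ∩ r) := by
  refine hINV _ _ _ _ (fun f j => if j < L then f (j + 1) else f (j + 2)) (-1) (by decide)
    (fun f hf => ⟨(mem_cupS.1 hf.1).2, (mem_cupS.1 hf.2).2⟩) (fun g hg => ?_) fun f _ g _ => ?_
  · let f : ℕ → K := fun j =>
      if j = 0 then 0 else if j ≤ L then g (j - 1) else if j = L + 1 then 0 else g (j - 2)
    have e : (fun j => if j < L then f (j + 1) else f (j + 2)) = g := funext fun j => by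
      simp only [f]
      split_ifs <;> first | omega | rfl | contradiction
    have h0 : f (L + 1) = -f 0 := by simp [f]
    exact ⟨f, ⟨mem_cupS.2 ⟨h0, e ▸ hg.1⟩, mem_cupS.2 ⟨h0, e ▸ hg.2⟩⟩, e⟩
  · rw [mid, lam, Finset.mul_sum]
    refine Finset.sum_congr rfl fun j hj => ?_
    simp only [Pi.mul_apply, if_pos (Finset.mem_range.1 hj)]
    ring

theorem base (S : St) : Nn (lam 0) S = 0 := by
  rw [Nn, Submodule.span_eq_bot.2, finrank_bot]
  rintro _ ⟨f, rfl⟩
  rfl

end FRM2x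

open FRM2x in
theorem p_FRM2 (hINV : S_INV) (hONE : S_ONE) (hALG : S_ALG) :
    S_FRM2 := by
  refine ⟨fun L u v => ?_, fun L i u v h => ?_, fun L u v hu hv => ?_, ?_⟩
  · have : Bm L = (Bm L).flip := Finsupp.lhom_ext fun p c => Finsupp.lhom_ext fun r d => by
      rw [LinearMap.flip_apply, Bm_single, Bm_single, Set.inter_comm, mul_comm c]
    exact LinearMap.congr_fun₂ this u v
  · have : Bm (L + 2) ∘ₗ Cup i = (Bm L).compl₂ (Cap i) :=
      Finsupp.lhom_ext fun p c => Finsupp.lhom_ext fun r d => by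
        rw [LinearMap.comp_apply, LinearMap.compl₂_apply, Cup, Cap, lm_single, lm_single,
          Bm_single, Bm_single, adj hINV h]
    exact LinearMap.congr_fun₂ this u v
  · refine Sup.ext (f := (Bm (L + 2)).flip (CupS L v) ∘ₗ CupS L)
      (g := (-1 : ℂ) • (Bm L).flip v) (fun p hp => ?_) hu
    refine Sup.ext (f := Bm (L + 2) (CupS L (Finsupp.single p 1)) ∘ₗ CupS L)
      (g := (-1 : ℂ) • Bm L (Finsupp.single p 1)) (fun r hr => ?_) hv
    simp [CupS, one hONE hALG hp hr, inv hINV, pow_succ]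
  · simp [base]

end Pool.Agent.P.MP_6c8efb_pr.One

end FRM2S

section TWS

/-! Step TW. -/

namespace Pool.Agent.P.MP_6c8efb_pr.One

open Polynomial Filter Topology
open Arm (q ah ac Nz Gen Near LPd LP1 TC Pt TConn q_eq q_cube q_ne_zero)

namespace TWx

theorem sg (k : ℕ) : ((-1 : K) ^ k) ≠ 0 := pow_ne_zero _ (by decide)

theorem cup_iff {L i : ℕ} {p : St} (hi : i ≤ L) (Φ : ℕ → K) :
    grad (L + 2) Φ ∈ cup i p ↔ Φ i = Φ (i + 2) ∧ grad L (fun k => Φ (Arm.up i k)) ∈ p := by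
  have e : grad (L + 2) Φ i = grad (L + 2) Φ (i + 1) ↔ Φ i = Φ (i + 2) := by
    rw [grad, grad, if_pos (by omega), if_pos (by omega), pow_succ, mul_assoc,
      mul_right_inj' (sg i)]
    exact ⟨fun h => by linear_combination h, fun h => by linear_combination h⟩
  rw [mem_cup, e]
  refine and_congr_right fun h => mem_congr fun j => ?_
  have u1 : ∀ j, j < i → Arm.up i j = j := fun j h => if_pos h
  have u2 : ∀ j, ¬ j < i → Arm.up i j = j + 2 := fun j h => if_neg h
  by_cases h1 : j < i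
  · rw [u1 j h1, grad, grad, if_pos (by omega), if_pos (by omega), u1 j h1]
    by_cases h2 : j + 1 < i
    · rw [u1 _ h2]
    · rw [u2 _ h2]
      obtain rfl : i = j + 1 := by omega
      rw [h]
  · rw [u2 j h1, grad, grad, u2 j h1, u2 (j + 1) (by omega)]
    by_cases h2 : j < L
    · rw [if_pos h2, if_pos (by omega), pow_add]
      norm_num
    · rw [if_neg h2, if_neg (by omega)]

theorem cupS_iff {L : ℕ} {p : St} (hL : Even L) (Φ : ℕ → K) (h0 : Φ (L + 2) = -Φ 0) :
    grad (L + 2) Φ ∈ cupS L p ↔ Φ (L + 1) = -Φ 1 ∧ grad L (fun k => -Φ (k + 1)) ∈ p := by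
  have e : grad (L + 2) Φ (L + 1) = -grad (L + 2) Φ 0 ↔ Φ (L + 1) = -Φ 1 := by
    rw [grad, grad, if_pos (by omega), if_pos (by omega), pow_succ, hL.neg_one_pow, h0]
    exact ⟨fun h => by linear_combination -h, fun h => by linear_combination -h⟩
  rw [mem_cupS, e]
  refine and_congr_right fun _ => mem_congr fun j => ?_
  simp only [grad]
  by_cases h2 : j < L
  · rw [if_pos h2, if_pos h2, if_pos (by omega), pow_succ]
    ring
  · rw [if_neg h2, if_neg h2, if_neg (by omega)]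

end TWx

theorem p_TW (hALG : S_ALG) :
    S_TW := by
  intro L p h
  induction h with
  | nil =>
    refine ⟨fun Φ _ _ i => by simp [grad], 0, le_rfl, fun Φ h _ => ?_⟩
    revert h
    generalize Φ 0 = c
    revert c
    decide
  | @cup L i p hp hi ih =>
    obtain ⟨ih1, k, hk, ih2⟩ := ih
    have a : ∀ Φ : ℕ → K, Φ (L + 2) = -Φ 0 → Φ i = Φ (i + 2) → Φ (Arm.up i L) = -Φ (Arm.up i 0) := by
      intro Φ h0 h1
      simp only [Arm.up]
      rw [if_neg (by omega), h0]
      split_ifs with h2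
      · rfl
      · obtain rfl : i = 0 := by omega
        rw [h1]
    refine ⟨fun Φ h0 h => ?_, Arm.up i k, by simp only [Arm.up]; split_ifs <;> omega, fun Φ h0 h => ?_⟩
    · obtain ⟨h1, h2⟩ := (TWx.cup_iff hi Φ).1 h
      refine (TWx.cup_iff hi _).2 ⟨by rw [h1, pow_add]; norm_num, ?_⟩
      have := ih1 _ (a Φ h0 h1) h2
      refine (congrArg (fun f => grad L f ∈ p) (funext fun j => ?_)).mp this
      simp only [Arm.up]
      split_ifs
      · rfl
      · rw [pow_add]; norm_num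
    · obtain ⟨h1, h2⟩ := (TWx.cup_iff hi Φ).1 h
      exact ih2 _ (a Φ h0 h1) h2
  | @cupS L p hp ih =>
    obtain ⟨ih1, k, hk, ih2⟩ := ih
    have hL := hp.even
    refine ⟨fun Φ h0 h => ?_, k + 1, by omega, fun Φ h0 h => ?_⟩
    · obtain ⟨h1, h2⟩ := (TWx.cupS_iff hL Φ h0).1 h
      refine (TWx.cupS_iff hL _ ?_).2 ⟨?_, ?_⟩
      · rw [h0, (hL.add even_two).neg_one_pow]; ring
      · rw [h1, pow_succ, hL.neg_one_pow]; ring
      · have := (hALG L p hp).2.neg _ (ih1 _ (by simp only [h1, zero_add]) h2)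
        refine (mem_congr fun j => ?_).1 this
        simp only [grad, Pi.neg_apply]
        split_ifs
        · ring
        · exact neg_zero
    · obtain ⟨h1, h2⟩ := (TWx.cupS_iff hL Φ h0).1 h
      exact neg_eq_zero.1 (ih2 _ (by simp only [h1, zero_add]) h2)

end Pool.Agent.P.MP_6c8efb_pr.One

end TWS

section WES

/-! Step WE. -/

namespace Pool.Agent.P.MP_6c8efb_pr.One

open Polynomial Filter Topology
open Arm (q ah ac Nz Gen Near LPd LP1 TC Pt TConn q_eq q_cube q_ne_zero)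

namespace WEx

open Arm (tm link_iff)
open Arm.CmpA (Rel co)

theorem ofConn {e : ℤ} {τ : TC} {ω : Cfg} (hR : Rel e τ ω) {m n : ℤ} (hn : 2 * m < n) {x y : V}
    (h : Conn ω (MP_6c8efb_pr.Rc (-m) m (-m) m) x y) :
    TConn τ {c | -n ≤ c.2 ∧ c.2 < n} (co e x) (co e y) := by
  refine h.ind (p := fun y => TConn τ {c | -n ≤ c.2 ∧ c.2 < n} (co e x) (co e y)) .refl' ?_
  rintro ⟨p, r⟩ d - ha hb ho ih
  refine ih.snoc (link_iff.2 ?_)
  rcases cases4 d with rfl | rfl | rfl | rfl <;> simp [MP_6c8efb_pr.Rc] at ha hb ho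
  · refine ⟨p + r + e, r - p - 1, (by omega : -n ≤ r - p - 1 ∧ r - p - 1 < n),
      Or.inr ⟨by rw [(hR p r).2, ho]; rfl, Or.inr ⟨?_, ?_⟩⟩⟩ <;> simp [co] <;> omega
  · refine ⟨p + r + e, r - p, (by omega : -n ≤ r - p ∧ r - p < n),
      Or.inl ⟨by rw [(hR p r).1, ho], Or.inl ⟨?_, ?_⟩⟩⟩ <;> simp [co] <;> omega
  · refine ⟨p - 1 + r + e, r - (p - 1) - 1, (by omega : -n ≤ r - (p - 1) - 1 ∧ r - (p - 1) - 1 < n),
      Or.inr ⟨by rw [(hR (p - 1) r).2, ho]; rfl, Or.inl ⟨?_, ?_⟩⟩⟩ <;> simp [co] <;> omega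
  · refine ⟨p + (r - 1) + e, r - 1 - p, (by omega : -n ≤ r - 1 - p ∧ r - 1 - p < n),
      Or.inl ⟨by rw [(hR p (r - 1)).1, ho], Or.inr ⟨?_, ?_⟩⟩⟩ <;> simp [co] <;> omega

theorem rel_du {τ : TC} {σ : Cfg} (h : Rel 0 τ σ) : Rel 1 τ (du σ) := by
  intro x y
  constructor
  · have := (h x (y + 1)).2
    rw [show x + (y + 1) + 0 = x + y + 1 by ring, show y + 1 - x - 1 = y - x by ring] at this
    rw [this]
    simp [du, dl]
  · have := (h (x + 1) y).1
    rw [show x + 1 + y + 0 = x + y + 1 by ring, show y - (x + 1) = y - x - 1 by ring] at this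
    rw [this]
    simp [du, dl]

theorem loc_wr {L : ℕ} (hL : 0 < L) (n : ℕ) (j : ℤ) : Loc (Wr L n j) :=
  ⟨_, Arm.rect_finite 0 L (-n) n, fun _ _ hτ h => TConn.mono h subset_rfl fun c hc =>
    hτ _ ⟨Int.emod_nonneg _ (by omega), Int.emod_lt_of_pos _ (by omega), hc⟩⟩

theorem wr_of {e : ℤ} {τ : TC} {σ : Cfg} {m n : ℕ} (hR : Rel e (per (2 * m) τ) σ) (hn : 6 * m < n)
    {x y : V} {j : ℤ} (hx : co e x = (j, 0)) (hy : co e y = (j + (2 * m : ℕ), 0))
    (h : Conn σ (MP_6c8efb_pr.Rc (-(3 * m)) (3 * m) (-(3 * m)) (3 * m)) x y) :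
    τ ∈ Wr (2 * m) n j := by
  have h1 := ofConn hR (n := n) (by omega) h
  rw [hx, hy] at h1
  exact h1

end WEx

open WEx

theorem p_WE :
    S_WE := by
  intro m n hm hn
  constructor
  · rw [← Arm.CmpA.Pt_tm ((loc_wr (by omega) n 0).inter (loc_wr (by omega) n 1))]
    refine Pr_mono fun ω hω => ⟨?_, ?_⟩
    · refine wr_of (WrapEA.rel_per m ω) (by omega) ?_ ?_ hω.1 <;>
        simp only [Arm.CmpA.co, Prod.mk.injEq] <;> omega
    · refine wr_of (rel_du (WrapEA.rel_per m ω)) (by omega) ?_ ?_ hω.2 <;>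
        simp [Arm.CmpA.co, fc] <;> omega
  · rw [← Arm.CmpA.Pt_tm ((loc_wr (by omega) n (-1)).inter (loc_wr (by omega) n 0))]
    refine Pr_mono fun ω hω => ⟨?_, ?_⟩
    · refine wr_of (rel_du (WrapEA.rel_per m ω)) (by omega) ?_ ?_ hω.2 <;>
        simp [Arm.CmpA.co, fc] <;> omega
    · refine wr_of (WrapEA.rel_per m ω) (by omega) ?_ ?_ hω.1 <;>
        simp only [Arm.CmpA.co, Prod.mk.injEq] <;> omega

end Pool.Agent.P.MP_6c8efb_pr.One

end WES

section ALGS

/-! Step ALG. -/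

namespace Pool.Agent.P.MP_6c8efb_pr.One

open Polynomial Filter Topology
open Arm (q ah ac Nz Gen Near LPd LP1 TC Pt TConn q_eq q_cube q_ne_zero)

namespace ALGx

theorem pull {p : St} (h : Alg p) (φ : ℕ → ℕ) : Alg {f | (fun j => f (φ j)) ∈ p} :=
  ⟨h.zero, fun _ a _ b => h.add _ a _ b, fun _ a => h.neg _ a,
    fun _ a _ b _ c => h.mul _ a _ b _ c⟩

theorem same (i j : ℕ) : Alg {f | f i = f j} :=
  ⟨rfl, fun _ a _ b => congrArg₂ (· + ·) a b, fun _ a => congrArg (- ·) a,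
    fun f a g b k c => show f i * g i * k i = f j * g j * k j by rw [a, b, c]⟩

theorem opp (i j : ℕ) : Alg {f | f i = -f j} := by
  refine ⟨by simp, fun f a g b => ?_, fun f a => ?_, fun f a g b k c => ?_⟩ <;>
    simp only [Set.mem_ofPred_eq, Pi.add_apply, Pi.neg_apply, Pi.mul_apply] at *
  · rw [a, b]; ring
  · rw [a]
  · rw [a, b, c]; ring

end ALGx

theorem p_ALG :
    S_ALG := by
  intro L p h
  refine ⟨Set.Finite.of_finite_image (f := fun f (i : Fin L) => f i) (Set.toFinite _)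
    fun f hf g hg e => funext fun i => ?_, ?_⟩
  · rcases lt_or_ge i L with c | c
    · exact congrFun e ⟨i, c⟩
    · rw [h.eq_zero hf c, h.eq_zero hg c]
  · induction h with
    | nil =>
      exact ⟨fun _ => rfl, fun f a g b i => by simp [a i, b i], fun f a i => by simp [a i],
        fun f a g _ k _ i => by simp [a i]⟩
    | @cup L i p _ _ ih => exact (ALGx.same i (i + 1)).inter (ALGx.pull ih _)
    | @cupS L p _ ih =>
      convert (ALGx.opp (L + 1) 0).inter (ALGx.pull ih fun j => if j < L then j + 1 else j + 2)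
      ext f
      simp only [mem_cupS, Set.mem_inter_iff, Set.mem_ofPred_eq, apply_ite f]

end Pool.Agent.P.MP_6c8efb_pr.One

end ALGS

section INVS

/-! Step INV. -/

namespace Pool.Agent.P.MP_6c8efb_pr.One

open Polynomial Filter Topology
open Arm (q ah ac Nz Gen Near LPd LP1 TC Pt TConn q_eq q_cube q_ne_zero)

theorem p_INV :
    S_INV := by
  intro l l' S S' φ c hc h1 h2 h3
  let ψ : S → S' := fun f => ⟨φ f.1, h1 f.1 f.2⟩
  have hψ : Function.Surjective ψ := fun f' =>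
    let ⟨f, a, b⟩ := h2 f'.1 f'.2
    ⟨⟨f, a⟩, Subtype.ext b⟩
  let T : (S' → K) →ₗ[K] S → K := c • LinearMap.funLeft K K ψ
  have hT : Function.Injective T := fun u v h =>
    LinearMap.funLeft_injective_of_surjective K K ψ hψ (smul_right_injective _ hc h)
  have e : (fun f : S => fun g : S => l (f.1 * g.1 * g.1)) =
      (T ∘ fun f : S' => fun g : S' => l' (f.1 * g.1 * g.1)) ∘ ψ :=
    funext fun f => funext fun g => h3 f.1 f.2 g.1 g.2
  unfold Nn
  rw [e, hψ.range_comp, Set.range_comp, ← Submodule.map_span]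
  exact (Submodule.equivMapOfInjective T hT _).finrank_eq.symm

end Pool.Agent.P.MP_6c8efb_pr.One

end INVS
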