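import Pool.Agent.P.MP_6c8efb_pr.Two.IfaceB

section KBS

/-! Step KB. -/

namespace Pool.Agent.P.MP_6c8efb_pr.Two

open Function MeasureTheory

namespace KBx

theorem faces {f : V} {d : Fin 4} {c : D} (h : ed c = dl (edge f d)) :
    (f = fd c ∨ f = fd (rot c)) ∧
      (c.1.1 = f.1 ∨ c.1.1 = f.1 + 1) ∧ (c.1.2 = f.2 ∨ c.1.2 = f.2 + 1) := by
  obtain ⟨⟨x, y⟩, e⟩ := c
  obtain ⟨p, q⟩ := f
  rcases cases4 d with rfl | rfl | rfl | rfl <;> rcases cases4 e with rfl | rfl | rfl | rfl <;>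
    simp [ed, dl, fd, rot, Prod.ext_iff] at h ⊢ <;> omega

theorem ed_low (c : D) : (ed c).1.2 ≤ c.1.2 := by
  obtain ⟨x, e⟩ := c
  rcases cases4 e with rfl | rfl | rfl | rfl <;> simp [ed]

theorem ends (f : V) (d : Fin 4) : f = (edge f d).1 ∨ f = hd (edge f d) := by
  rcases cases4 d with rfl | rfl | rfl | rfl <;> simp [Prod.ext_iff]

theorem forb {f : V} {d : Fin 4} (h : (dl (edge f d)).2 = true) :
    (dl (edge f d)).1.1 = f.1 ∧ (dl (edge f d)).1.2 ≤ f.2 + 1 := by
  rcases cases4 d with rfl | rfl | rfl | rfl <;> simp [dl] at h ⊢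

theorem corner {α : Cfg} {B : Set V} {f : V} (h : ∀ d, α (dl (edge f d)) = true)
    (hB : ∀ v : V, (v.1 = f.1 ∨ v.1 = f.1 + 1) → (v.2 = f.2 ∨ v.2 = f.2 + 1) → v ∈ B)
    (v : V) (h1 : v.1 = f.1 ∨ v.1 = f.1 + 1) (h2 : v.2 = f.2 ∨ v.2 = f.2 + 1) : Conn α B f v := by
  have e0 : Conn α B f (f + u 0) :=
    Conn.one (hB _ (by simp) (by simp)) (hB _ (by simp) (by simp)) (by simpa [dl] using h 3)
  have e1 : Conn α B f (f + u 1) :=
    Conn.one (hB _ (by simp) (by simp)) (hB _ (by simp) (by simp)) (by simpa [dl] using h 2)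
  have e2 : Conn α B f (f + u 0 + u 1) :=
    e0.snoc (hB _ (by simp) (by simp)) (hB _ (by simp) (by simp)) (by
      have := h 0
      rw [show dl (edge f 0) = edge (f + u 0) 1 by simp [dl, Prod.ext_iff]] at this
      exact this)
  rcases h1 with h1 | h1 <;> rcases h2 with h2 | h2
  · rw [show v = f from Prod.ext h1 h2]; exact Conn.rfl'
  · rw [show v = f + u 1 from Prod.ext (by simpa using h1) (by simpa using h2)]; exact e1
  · rw [show v = f + u 0 from Prod.ext (by simpa using h1) (by simpa using h2)]; exact e0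
  · rw [show v = f + u 0 + u 1 from Prod.ext (by simpa using h1) (by simpa using h2)]; exact e2

end KBx

open KBx in
theorem p_KB (hJ1 : S_J1) :
    S_KB := by
  classical
  rintro ω d R l P ⟨a1, a2⟩ m hP hm ⟨p, hp, y, dy, hpy, hy⟩ hA y0 hy0 hc
  obtain ⟨rfl, t2, t3⟩ : a2 = l ∧ -R ≤ a1 ∧ a1 ≤ R := hP.tip
  have hl : -R ≤ a2 - 1 := (hP.ins _ hP.last).2.2.1
  simp only [mem_Rc] at hp hy0 hc hA hpy
  have hi : ∀ e ∈ XX P, e.1.2 ≤ a2 - 1 := by
    rintro _ ⟨c, h1, rfl⟩
    exact (ed_low c).trans (hP.ins c h1).2.2.2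
  let gP : E → Prop := fun g => (g ∈ XD P ∧ du ω g = true) ∨
    (g ∉ XD P ∧ 13 * m < nm (a1, a2 - 1) g.1 ∧ 13 * m < nm (a1, a2 - 1) (hd g))
  let γ : Cfg := fun g => decide (gP g)
  let α : Cfg := fun e => decide ((∀ g, dl g = e → ¬ gP g) ∧ ¬ (e.2 = true ∧ e.1.1 = a1 ∧ a2 ≤ e.1.2))
  have hγ : ∀ g, γ g = true ↔ gP g := fun g => decide_eq_true_iff
  have hα : ∀ g, ¬ gP g → ¬ ((dl g).2 = true ∧ (dl g).1.1 = a1 ∧ a2 ≤ (dl g).1.2) →
      α (dl g) = true := fun g h1 h2 =>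
    decide_eq_true ⟨fun g' e => dl_inj e ▸ h1, h2⟩
  have hαX : ∀ e ∈ XX P, ω e = true → α e = true := fun e h1 h2 =>
    decide_eq_true ⟨fun g e' h => by
      subst e'
      rcases h with h | h
      · rw [du_true.1 h.2] at h2
        exact absurd h2 (by simp)
      · exact h.1 h1, fun h => by have := hi e h1; omega⟩
  have hαN : ∀ g, g ∉ XD P → nm (a1, a2 - 1) g.1 ≤ 13 * m ∨ nm (a1, a2 - 1) (hd g) ≤ 13 * m →
      ¬ ((dl g).2 = true ∧ (dl g).1.1 = a1 ∧ a2 ≤ (dl g).1.2) → α (dl g) = true :=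
    fun g h1 h2 => hα g fun h => h.elim (fun h => h1 h.1) fun h => by omega
  set B := Rc (-R - 12 * m - 1) (R + 12 * m + 1) (-R - 12 * m - 1) (a2 + 3 * m + 1) with hB
  set U := Ush (a1, a2 - 1) (4 * m) (12 * m) (a2 - 1) (a2 + 3 * m) with hU
  have hUb : ∀ f ∈ U, a1 - 12 * m ≤ f.1 ∧ f.1 ≤ a1 + 12 * m ∧ a2 - 1 - 12 * m ≤ f.2 ∧
      f.2 ≤ a2 + 3 * m ∧ (f.1 = a1 → f.2 ≤ a2 - 1 - 4 * m) := by
    intro f hf
    simp only [hU, Ush, Set.mem_union, mem_Rc] at hf
    omega
  have closed : ∀ f e, edge f e ∈ XD P → du ω (edge f e) = true → f ∈ RR P := by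
    rintro f e ⟨c, h1, h2⟩ h3
    rcases (faces h2).1 with h | h
    · exact ⟨c, h1, h.symm⟩
    · rw [h]
      exact hP.endD c h1 (h2 ▸ du_true.1 h3)
  have side : ∀ f ∈ U \ RR P, ∀ e, α (dl (edge f e)) = true := by
    intro f hf e
    have hb := hUb f hf.1
    by_cases h : edge f e ∈ XD P
    · refine hαX _ h ?_
      by_contra h1
      exact hf.2 (closed f e h (du_true.2 (by simpa using h1)))
    · have h1 : nm (a1, a2 - 1) f ≤ 13 * m := by
        simp only [nm, abs_eq_max_neg]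
        omega
      refine hαN _ h ?_ fun h2 => ?_
      · rcases ends f e with h3 | h3
        · exact Or.inl (h3 ▸ h1)
        · exact Or.inr (h3 ▸ h1)
      · have := forb h2.1
        omega
  have cor : ∀ f ∈ U \ RR P, ∀ v : V, (v.1 = f.1 ∨ v.1 = f.1 + 1) → (v.2 = f.2 ∨ v.2 = f.2 + 1) →
      Conn α B f v := fun f hf => corner (side f hf) fun v h1 h2 => by
    have hb := hUb f hf.1
    simp only [hB, mem_Rc]
    omega
  have hpU : p ∈ U \ RR P := by
    refine ⟨Or.inr (by simp only [mem_Rc]; omega), ?_⟩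
    rintro ⟨c, h1, h2⟩
    have h3 := (fd_bd c).2.2.2
    have h4 := (hP.ins c h1).2.2.2
    rw [h2] at h3
    omega
  have c3 : Conn α B p y := hpy.ind (p := fun v => Conn α B p v) Conn.rfl'
    fun v e _ h1 h2 _ ih => ih.trans' (by
      rcases cases4 e with rfl | rfl | rfl | rfl
      · exact cor v h1 _ (by simp) (by simp)
      · exact cor v h1 _ (by simp) (by simp)
      · exact (cor _ h2 v (by simp) (by simp)).symm'
      · exact (cor _ h2 v (by simp) (by simp)).symm')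
  obtain ⟨c, hcP, hce⟩ := hy
  have c4 : Conn α B y c.1 := cor y (hpy.mem hpU) _ (faces hce).2.1 (faces hce).2.2
  have c2 : Conn α B (a1, a2) c.1 := (hP.connP c hcP).mono (by
      rintro v (rfl | ⟨c', h1, rfl⟩)
      · simp only [hB, mem_Rc]
        omega
      · have := hP.ins c' h1
        simp only [Ins, hB, mem_Rc] at this ⊢
        omega) fun e _ h => hαX e (not_not.1 (shut_true.1 h).1) (shut_true.1 h).2
  have c1 : Conn α B (a1, a2) (a1, p.2) := by
    obtain ⟨n, hn⟩ := Int.eq_ofNat_of_zero_le (show 0 ≤ p.2 - a2 by omega)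
    have := line (ω := α) (S := B) (a1, a2) 1 n (fun k hk => by
      simp only [hB, mem_Rc]
      simp
      omega) fun k hk => by
        rw [show edge ((a1, a2) + k • u 1) 1 = dl ((a1 - 1, a2 + k), true) by simp [dl]]
        refine hαN _ (fun h => ?_) (Or.inr ?_) (by simp [dl])
        · have := hi _ h
          simp [dl] at this
          omega
        · simp only [nm, hd_true, abs_eq_max_neg]
          omega
    rwa [show (a1, a2) + n • u 1 = (a1, p.2) by simp; omega] at this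
  have c5 : Conn α B (a1 + 1, p.2) p := by
    obtain ⟨n, hn⟩ := Int.eq_ofNat_of_zero_le (show 0 ≤ p.1 - a1 - 1 by omega)
    have := line (ω := α) (S := B) (a1 + 1, p.2) 0 n (fun k hk => by
      simp only [hB, mem_Rc]
      simp
      omega) fun k hk => by
        rw [show edge ((a1 + 1, p.2) + k • u 0) 0 = dl ((a1 + 1 + k, p.2 - 1), false) by simp [dl]]
        refine hαN _ (fun h => ?_) (Or.inl ?_) (by simp [dl]; omega)
        · have := hi _ h
          simp [dl] at this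
          omega
        · simp only [nm, abs_eq_max_neg]
          omega
    rwa [show (a1 + 1, p.2) + n • u 0 = p by simp [Prod.ext_iff]; omega] at this
  refine (hJ1 α γ _ _ _ _ a1 p.2 a2 y0
    (c1.symm'.trans' (c2.trans' (c4.symm'.trans' (c3.symm'.trans' c5.symm')))) (by omega)
    (fun j hj => decide_eq_false fun h => h.2 ⟨rfl, rfl, hj⟩)).1 (fun g hg => ?_) (by omega) ?_
  · refine ⟨decide_eq_false fun h => h.1 g rfl ((hγ g).1 hg), fun h => ?_⟩
    rcases (hγ g).1 hg with h1 | h1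
    · have := hi _ h1.1
      rw [h] at this
      simp only at this
      omega
    · have h2 : g = ((a1, p.2 - 1), false) := dl_inj (by rw [h]; simp [dl])
      have h3 := h1.2.1
      simp only [h2, nm, abs_eq_max_neg] at h3
      omega
  · have far : ∀ v, Conn (shut (XD P) (du ω)) Set.univ v y0 → 13 * m < nm (a1, a2 - 1) v := by
      intro v hv
      by_contra h
      refine hA ⟨v, y0, ⟨not_lt.1 h, ?_⟩, hv⟩
      simp only [nm, abs_eq_max_neg]
      omega
    have key := hc.symm'.ind (p := fun v => Conn (shut (XD P) (du ω)) Set.univ v y0 ∨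
        ∃ z ∈ RR P, Conn (shut (XD P) (du ω)) Set.univ z y0) (Or.inl Conn.rfl')
      fun v e _ _ _ ho ih => by
        rcases ih with ih | ih
        · by_cases h : edge v e ∈ XD P
          · exact Or.inr ⟨v, closed v e h ho, ih⟩
          · exact Or.inl ((Conn.one (Set.mem_univ _) (Set.mem_univ _)
              (shut_true.2 ⟨h, ho⟩)).symm'.trans' ih)
        · exact Or.inr ih
    rcases key with h | ⟨_, ⟨c', h1, rfl⟩, h2⟩
    · have := far _ h
      simp [nm] at this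
      omega
    · refine ((hP.connD c' h1).mono (Set.subset_univ _) fun e _ h =>
        (hγ e).2 (Or.inl ⟨not_not.1 (shut_true.1 h).1, (shut_true.1 h).2⟩)).trans'
        (h2.cl.mono (Set.subset_univ _) fun e he h => (hγ e).2 (Or.inr ⟨(shut_true.1 h).1,
          far _ (he.1.2.symm'.trans' h2), far _ (he.2.2.symm'.trans' h2)⟩))

end Pool.Agent.P.MP_6c8efb_pr.Two

end KBS

section H2S

/-! Step H2. -/

namespace Pool.Agent.P.MP_6c8efb_pr.Two

open Function MeasureTheory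

namespace H2x

open Classical in
/-- the configuration equal to `ω` on `Z` and to `η` elsewhere -/
noncomputable def mix (Z : Set E) (η ω : Cfg) : Cfg := fun i => if i ∈ Z then ω i else η i

theorem mix_mono (Z : Set E) (η : Cfg) {ω ω' : Cfg} (h : ω ≤ ω') : mix Z η ω ≤ mix Z η ω' :=
  fun i => by
    unfold mix
    split_ifs
    · exact h i
    · exact le_rfl

theorem mix_off {Z S : Set E} (hd : Disjoint Z S) (η ω ω' : Cfg) :
    ∀ i ∈ S, mix Z η ω i = mix Z η ω' i := fun i hi => by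
  have : i ∉ Z := fun h => Set.disjoint_left.1 hd h hi
  simp only [mix, if_neg this]

theorem cond {A F : Set Cfg} {Z : Set E} (hA : Loc A) (hF : Loc F) (hZ : Dep F Z)
    (h : ∀ η, Loc {ω | mix Z η ω ∈ A} →
      Q {ω | mix Z η ω ∈ A} * Q F ≤ Q ({ω | mix Z η ω ∈ A} ∩ F)) : Q A * Q F ≤ Q (A ∩ F) := by
  obtain ⟨S, hS, hd⟩ := hA
  have hA : Loc A := ⟨S, hS, hd⟩
  have dX : DependsOn (mix (S \ Z) fun _ => false) (S \ Z) := fun ω ω' hω => funext fun i => by
    unfold mix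
    split_ifs with hi
    · exact hω i hi
    · rfl
  have hX : LocF (mix (S \ Z) fun _ => false) := ⟨_, hS.subset fun _ hi => hi.1, dX⟩
  unfold Q
  rw [Pr_eq_sum_fiber _ hX hA, Pr_eq_sum_fiber _ hX (hA.inter hF), Finset.sum_mul]
  refine Finset.sum_le_sum fun c _ => ?_
  have d1 : Dep {ω | mix Z c ω ∈ A} Z := fun ω ω' hω => hd fun i _ => by
    unfold mix
    split_ifs with hi
    · exact hω i hi
    · rfl
  have l1 : Loc {ω | mix Z c ω ∈ A} := ⟨S, hS, fun ω ω' hω => hd fun i hi => by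
    unfold mix
    split_ifs
    · exact hω i hi
    · rfl⟩
  have d2 : Dep {ω | mix (S \ Z) (fun _ => false) ω = c} (S \ Z) := dep_of_dependsOn dX {c}
  have k : ∀ ω, mix (S \ Z) (fun _ => false) ω = c → (ω ∈ A ↔ mix Z c ω ∈ A) := fun ω e =>
    hd.iff fun i hi => by
      by_cases hz : i ∈ Z
      · simp only [mix, if_pos hz]
      · have : i ∈ S \ Z := ⟨hi, hz⟩
        simp only [← e, mix, if_neg hz, if_pos this]
  have e1 : {ω | mix (S \ Z) (fun _ => false) ω = c} ∩ A =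
      {ω | mix (S \ Z) (fun _ => false) ω = c} ∩ {ω | mix Z c ω ∈ A} :=
    Set.ext fun ω => and_congr_right fun e => k ω e
  have e2 : {ω | mix (S \ Z) (fun _ => false) ω = c} ∩ (A ∩ F) =
      {ω | mix (S \ Z) (fun _ => false) ω = c} ∩ ({ω | mix Z c ω ∈ A} ∩ F) :=
    Set.ext fun ω => and_congr_right fun e => and_congr_left fun _ => k ω e
  have dj : Disjoint (S \ Z) Z := Set.disjoint_left.2 fun _ a b => a.2 b
  rw [e1, e2, Pr_inter_indep _ (hX.loc_eq c) l1 d2 d1 dj,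
    Pr_inter_indep _ (hX.loc_eq c) (l1.inter hF) d2 (d1.inter hZ) dj, mul_assoc]
  exact mul_le_mul_of_nonneg_left (h c l1) (Pr_nonneg _ _)

end H2x

theorem p_H2 :
    S_H2 := by
  intro A1 A2 F1 F2 S1 S2 Z1 Z2 l1 l2 l3 l4 u1 u2 u3 u4 d1 d2 d3 d4 j1 j2 j3
  have h1 := H2x.cond (l1.inter l2) l3 d3 fun η l => harris_upper _ l l3
    (fun ω ω' hω h => ⟨u1 (H2x.mix_mono Z1 η hω) h.1, d2 (H2x.mix_off j1 η ω ω') h.2⟩) u3
  have h2 := H2x.cond ((l1.inter l2).inter l3) l4 d4 fun η l => harris_lower _ l l4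
    (fun ω ω' hω h => ⟨⟨d1 (H2x.mix_off j3 η ω ω') h.1.1, u2 (H2x.mix_mono Z2 η hω) h.1.2⟩,
      d3 (H2x.mix_off j2.symm η ω ω') h.2⟩) u4
  exact (mul_le_mul_of_nonneg_right h1 (Pr_nonneg _ _)).trans h2

end Pool.Agent.P.MP_6c8efb_pr.Two

end H2S

section PASTS

/-! Step PAST. -/

namespace Pool.Agent.P.MP_6c8efb_pr.Two

open Function MeasureTheory

namespace PASTx

end PASTx

theorem p_PAST :
    S_PAST := by
  rintro ω d R l P a hl ⟨k, hH, ha, hP⟩
  obtain ⟨j0, x, rfl, h1, h2, h3⟩ := hit_last hl hH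
  have ea : a = (x, l) := by rw [← ha, h2]
  have mem : ∀ j < j0 + 1, lp ω (0, d) j ∈ P := fun j hj => by rw [hP]; exact ⟨j, hj, rfl⟩
  have ex : ∀ c ∈ P, ∃ j < j0 + 1, lp ω (0, d) j = c := fun c hc => by rwa [hP] at hc
  have f0 : fd (lp ω (0, d) j0) = (a.1, l - 1) := by rw [h1, ea]; rfl
  have hL : ∀ j ≤ j0 + 1, (lp ω (0, d) j).1 ∈ LL P a := fun j hj => by
    rcases hj.eq_or_lt with rfl | hj
    · exact Or.inl ha
    · exact Or.inr ⟨_, mem j hj, rfl⟩
  have hR : ∀ j ≤ j0 + 1, fd (lp ω (0, d) j) ∈ RR P := fun j hj => by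
    rcases hj.eq_or_lt with rfl | hj
    · refine ⟨_, mem j0 (by omega), ?_⟩
      rw [lp_succ, step_open h3, fd_ro]
    · exact ⟨_, mem j hj, rfl⟩
  have cP : ∀ j ≤ j0 + 1, Conn (shut (XX P)ᶜ ω) (LL P a) 0 (lp ω (0, d) j).1 := fun j => by
    induction j with
    | zero => exact fun _ => Conn.rfl'
    | succ j ih =>
      intro hj
      have b1 := ih (by omega)
      have b2 := hL (j + 1) hj
      rw [lp_succ] at b2 ⊢
      rcases step_cases ω (lp ω (0, d) j) with ⟨a1, a2, -⟩ | ⟨-, a2, -⟩ <;> rw [a2] at b2 ⊢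
      · exact b1.snoc (hL j (by omega)) b2
          (shut_true.2 ⟨fun h => h ⟨_, mem j hj, rfl⟩, a1⟩)
      · exact b1
  have cD : ∀ j ≤ j0 + 1, Conn (shut (XD P)ᶜ (du ω)) (RR P) (fd (0, d)) (fd (lp ω (0, d) j)) :=
    fun j => by
    induction j with
    | zero => exact fun _ => Conn.rfl'
    | succ j ih =>
      intro hj
      have b1 := ih (by omega)
      have b2 := hR (j + 1) hj
      rw [lp_succ] at b2 ⊢
      rcases step_cases ω (lp ω (0, d) j) with ⟨-, -, a3⟩ | ⟨-, -, a3, a4⟩ <;> rw [a3] at b2 ⊢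
      · exact b1
      · exact b1.snoc (hR j (by omega)) b2
          (shut_true.2 ⟨fun h => h ⟨_, mem j hj, (dl_fc _ _).symm⟩, a4⟩)
  refine ⟨fun c hc => ?_, ?_, mem 0 (by omega), ?_, fun c hc ho => ?_, fun c hc ho => ?_,
    fun c hc => ?_, fun c hc => ?_⟩
  · obtain ⟨j, hj, rfl⟩ := ex c hc
    exact hH.2 j hj
  · have := hH.2 j0 (by omega)
    rw [h1] at this
    rw [ea]
    exact ⟨rfl, this.1, this.2.1⟩
  · have := mem j0 (by omega)
    rw [h1] at this
    rw [ea]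
    exact this
  · obtain ⟨j, hj, rfl⟩ := ex c hc
    have := hL (j + 1) hj
    rwa [lp_succ, step_open ho] at this
  · obtain ⟨j, hj, rfl⟩ := ex c hc
    have := hR (j + 1) hj
    rwa [lp_succ, step_closed (by simp [ho])] at this
  · obtain ⟨j, hj, rfl⟩ := ex c hc
    have := cP (j0 + 1) le_rfl
    rw [ha] at this
    exact this.symm'.trans' (cP j hj.le)
  · obtain ⟨j, hj, rfl⟩ := ex c hc
    have := cD j0 (by omega)
    rw [f0] at this
    exact this.symm'.trans' (cD j hj.le)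

end Pool.Agent.P.MP_6c8efb_pr.Two

end PASTS

section EXITS

/-! Step EXIT. -/

namespace Pool.Agent.P.MP_6c8efb_pr.Two

open Function MeasureTheory

namespace EXITx

theorem out_iff {n : ℕ} {ω : Cfg} {k : ℕ} : Outside n ω k ↔ (n : ℤ) ≤ nm 0 (path ω k).1 := by
  rw [nm_zero]; rfl

theorem lt_exit {n : ℕ} {ω : Cfg} {k : ℕ} :
    k < exitTime n ω ↔ ∀ j ≤ k, nm 0 (path ω j).1 < n := by
  constructor
  · intro h j hj
    have := Nat.notMem_of_lt_sInf (s := {k | Outside n ω k}) (lt_of_le_of_lt hj h)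
    exact not_le.1 fun b => this (out_iff.2 b)
  · intro h
    by_contra b
    have h1 : exitTime n ω ∈ {k | Outside n ω k} :=
      Nat.sInf_mem (let ⟨k, hk⟩ := exists_out ω n; ⟨k, out_iff.2 hk⟩)
    exact absurd (out_iff.1 h1) (not_le.2 (h _ (not_lt.1 b)))

theorem loc_Vis (n : ℕ) (c : D) : Loc (Vis n c) := by
  refine ⟨_, finite_ed (ball_finite 0 Set.univ n), ?_⟩
  rintro ω ω' hω ⟨k, h1, h2⟩
  have e := lp_congr (ω := bc ω) (ω' := bc ω') (0, 0) k fun j hj => by
    have := hω _ ⟨lp (bc ω) (0, 0) j, ⟨trivial, (h2 j hj.le).le⟩, rfl⟩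
    simp only [bc, this]
  exact ⟨k, by rw [path_eq, e k le_rfl]; exact h1,
    fun j hj => by rw [path_eq, e j hj]; exact h2 j hj⟩

theorem eq_sum (n : ℕ) (ω : Cfg) :
    (exitTime n ω : ℝ) = ∑ c ∈ Bx n, (Vis n c).indicator (fun _ => (1 : ℝ)) ω := by
  classical
  simp only [Set.indicator_apply]
  rw [Finset.sum_boole]
  congr 1
  rw [← Finset.card_range (exitTime n ω), ← Finset.card_image_of_injective _ (path_inj ω)]
  congr 1
  ext c
  simp only [Finset.mem_image, Finset.mem_range, Finset.mem_filter, lt_exit, mem_Bx]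
  exact ⟨fun ⟨k, h1, h2⟩ => ⟨h2 ▸ h1 k le_rfl, k, h2, h1⟩, fun ⟨_, k, h1, h2⟩ => ⟨k, h2, h1⟩⟩

end EXITx

theorem p_EXIT :
    S_EXIT := by
  intro n
  have hl : ∀ c ∈ Bx n, LocF ((Vis n c).indicator fun _ => (1 : ℝ)) :=
    fun c _ => (EXITx.loc_Vis n c).locF_indicator 1
  simp only [meanExit, EXITx.eq_sum]
  refine ⟨(LocF.sum _ hl).integrable fun _ => hf, ?_⟩
  refine (integral_finsetSum _ fun c hc => (hl c hc).integrable fun _ => hf).trans ?_
  exact Finset.sum_congr rfl fun c _ => (Pr_eq_integral _ (EXITx.loc_Vis n c)).symm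

end Pool.Agent.P.MP_6c8efb_pr.Two

end EXITS
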