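import Pool.Agent.P.MP_6c8efb_pr.Two.IfaceB

section KAS

/-! Step KA. -/

namespace Pool.Agent.P.MP_6c8efb_pr.Two

open Function MeasureTheory

namespace KAx

variable {ω : Cfg} {d : Fin 4} {R l : ℤ} {P : Set D} {a : V}

theorem low (h : Past ω d R l P a) {e : E} (he : e ∈ XX P) : e.1.2 ≤ l - 1 := by
  obtain ⟨⟨x, k⟩, hc, rfl⟩ := he
  have := (h.ins _ hc).2.2.2
  rcases cases4 k with rfl | rfl | rfl | rfl <;> simp [ed] at this ⊢ <;> omega

theorem inL (h : Past ω d R l P a) {v : V} {k : Fin 4} (he : edge v k ∈ XX P)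
    (ho : ω (edge v k) = true) : v ∈ LL P a := by
  obtain ⟨c, hc, e⟩ := he
  rcases ed_eq (c' := (v, k)) e.symm with e1 | e1
  · exact Or.inr ⟨c, hc, by rw [← e1]⟩
  · have := h.endP c hc (e ▸ ho)
    rwa [show v = c.1 + u c.2 from congrArg Prod.fst e1]

/-- the primal path -/
theorem prim (h : Past ω d R l P a) {r s : ℤ} (hA : shut (XX P) ω ∉ Arm1 a r s) {y : V}
    (hy : s ≤ nm a y) (hc : Conn ω Set.univ a y) {β : Cfg}
    (h1 : ∀ e ∈ XX P, ω e = true → β e = true)
    (h2 : ∀ e ∉ XX P, e ∈ In {v | r < nm a v} → β e = true) : Conn β Set.univ a y := by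
  have far : ∀ v, Conn (shut (XX P) ω) Set.univ v y → r < nm a v := fun v hv =>
    lt_of_not_ge fun b => hA ⟨v, y, ⟨b, hy⟩, hv⟩
  have key := hc.symm'.ind (p := fun v => Conn (shut (XX P) ω) Set.univ v y ∨
      ∃ z ∈ LL P a, Conn (shut (XX P) ω) Set.univ z y) (Or.inl Conn.rfl') fun v k _ _ _ ho ih => by
    rcases ih with ih | ih
    · by_cases b : edge v k ∈ XX P
      · exact Or.inr ⟨v, inL h b ho, ih⟩
      · exact Or.inl ((Conn.one (S := Set.univ) trivial trivial (shut_true.2 ⟨b, ho⟩)).symm'.trans' ih)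
    · exact Or.inr ih
  obtain ⟨z, hz, hzy⟩ : ∃ z ∈ LL P a, Conn (shut (XX P) ω) Set.univ z y :=
    key.elim (fun b => ⟨a, Or.inl rfl, b⟩) id
  refine Conn.trans' (y := z) ?_ (hzy.cl.mono (Set.subset_univ _) fun e he ho =>
    h2 e (shut_true.1 ho).1 ⟨far _ (he.1.2.symm'.trans' hzy), far _ (he.2.2.symm'.trans' hzy)⟩)
  rcases hz with rfl | ⟨c, hc, rfl⟩
  · exact Conn.rfl'
  · exact (h.connP c hc).mono (Set.subset_univ _) fun e _ ho =>
      h1 e (not_not.1 (shut_true.1 ho).1) (shut_true.1 ho).2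

/-- the dual path -/
theorem dual (h : Past ω d R l P a) {m : ℤ} (hm : 1 ≤ m) {p : V}
    (hp : p ∈ Rc (a.1 - 3 * m) (a.1 - m) (a.2 + m) (a.2 + 3 * m))
    (hb : Bad (XX P) (Ush a m (3 * m) (a.2 + 3 * m) a.2 \ LL P a) p) {α : Cfg}
    (h1 : ∀ g, dl g ∈ XX P → ω (dl g) = false → α g = true)
    (h2 : ∀ g, dl g ∉ XX P → (nm a (dl g).1 ≤ 3 * m ∨ nm a (hd (dl g)) ≤ 3 * m) →
      (∀ j, l ≤ j → dl g ≠ ((a.1, j), false)) → α g = true) :
    Conn α (Rc (-R - 3 * m - 1) (R + 3 * m) (-R - 3 * m - 1) (l + 3 * m)) (a.1 - 1, p.2)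
      (a.1, p.2) := by
  obtain ⟨t1, t2, t3⟩ := h.tip
  have t4 := h.ins _ h.start
  simp only [Ins, mem_Rc, Prod.fst_zero, Prod.snd_zero] at t4 hp
  generalize hB : Rc (-R - 3 * m - 1) (R + 3 * m) (-R - 3 * m - 1) (l + 3 * m) = B
  generalize hU : Ush a m (3 * m) (a.2 + 3 * m) a.2 \ LL P a = U at hb
  have mB : ∀ v : V, -R - 3 * m - 1 ≤ v.1 → v.1 ≤ R + 3 * m → -R - 3 * m - 1 ≤ v.2 →
      v.2 ≤ l + 3 * m → v ∈ B := fun v a1 a2 a3 a4 => hB ▸ ⟨a1, a2, a3, a4⟩
  have mU : ∀ v ∈ U, v ∉ LL P a ∧ a.1 - 3 * m ≤ v.1 ∧ v.1 ≤ a.1 + 3 * m ∧ l - 3 * m ≤ v.2 ∧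
      v.2 ≤ l + 3 * m ∧ (v.1 = a.1 → v.2 < l) := fun v hv => by
    subst hU
    have := hv.1
    simp only [Ush, Set.mem_union, mem_Rc] at this
    exact ⟨hv.2, by omega⟩
  have fB : ∀ v ∈ U, ∀ k, fc v k ∈ B := fun v hv k => by
    have := mU v hv
    have := fd_bd (v, k)
    simp only [fd] at this
    apply mB <;> omega
  have nx : ∀ v ∈ U, ∀ k, Conn α B (fc v k) (fc v (k + 1)) := fun v hv k => by
    have h3 := fB v hv (k + 1)
    rw [fc_succ] at h3 ⊢
    refine Conn.one (fB v hv k) h3 ?_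
    obtain ⟨a1, a2⟩ := mU v hv
    by_cases b : edge v k ∈ XX P
    · exact h1 _ (by rwa [dl_fc]) (by rw [dl_fc]; simpa using fun o => a1 (inL h b o))
    · refine h2 _ (by rwa [dl_fc]) ?_ fun j hj => ?_ <;> rw [dl_fc]
      · have : nm a v ≤ 3 * m := by simp only [nm, max_le_iff, abs_le]; omega
        rcases cases4 k with rfl | rfl | rfl | rfl <;> simp [this]
      · rcases cases4 k with rfl | rfl | rfl | rfl <;> simp [Prod.ext_iff] <;> omega
  have four : ∀ v ∈ U, ∀ k, Conn α B (fc v 0) (fc v k) := fun v hv k => by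
    rcases cases4 k with rfl | rfl | rfl | rfl
    exacts [Conn.rfl', nx v hv 0, (nx v hv 0).trans' (nx v hv 1), (nx v hv 3).symm']
  have pU : p ∈ U := by
    subst hU
    refine ⟨Or.inl (Or.inl (by simp only [mem_Rc]; omega)), ?_⟩
    rintro (e | ⟨c, hc, e⟩)
    · rw [e] at hp; omega
    · have := (h.ins c hc).2.2.2
      rw [e] at this; omega
  obtain ⟨y, k, hy, c, hc, e⟩ := hb
  have c1 : Conn α B p (fc y 0) := hy.ind (p := fun v => Conn α B p (fc v 0)) (four p pU 1).symm'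
    fun v k _ a1 a2 _ ih => (ih.trans' (four v a1 k)).trans'
      (fc_step v k ▸ (four _ a2 (k - 1)).symm')
  have c2 : Conn α B (fc y 0) (fd c) := by
    rcases ed_eq (c' := (y, k)) e.symm with e1 | e1
    · exact absurd (Or.inr ⟨c, hc, by rw [← e1]⟩) (mU y (hy.mem pU)).1
    · rw [← fd_ro, ← e1]
      exact four y (hy.mem pU) (k + 1)
  have c3 : Conn α B (a.1, l - 1) (fd c) := (h.connD c hc).mono (by
      rintro _ ⟨c', hc', rfl⟩
      have := h.ins c' hc'
      have := fd_bd c'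
      simp only [Ins, mem_Rc] at *
      apply mB <;> omega)
    fun g _ ho => h1 g (not_not.1 (shut_true.1 ho).1) (du_true.1 (shut_true.1 ho).2)
  have c4 : Conn α B p (a.1 - 1, p.2) := by
    obtain ⟨n, hn⟩ := Int.eq_ofNat_of_zero_le (show 0 ≤ a.1 - 1 - p.1 by omega)
    have := line (ω := α) (S := B) p 0 n (fun j hj => by apply mB <;> simp <;> omega)
      fun j hj => h2 _ (fun b => by have := low h b; simp [dl] at this; omega)
        (Or.inl (by simp [dl, nm, abs_le]; omega)) fun i _ => by simp [dl, Prod.ext_iff]; omega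
    rwa [show p + n • u 0 = (a.1 - 1, p.2) by simp [Prod.ext_iff]; omega] at this
  have c5 : Conn α B (a.1, l - 1) (a.1, p.2) := by
    obtain ⟨n, hn⟩ := Int.eq_ofNat_of_zero_le (show 0 ≤ p.2 - (l - 1) by omega)
    have := line (ω := α) (S := B) (a.1, l - 1) 1 n (fun j hj => by apply mB <;> simp <;> omega)
      fun j hj => h2 _ (fun b => by have := low h b; simp [dl] at this; omega)
        (Or.inl (by simp [dl, nm, abs_le]; omega)) fun i _ => by simp [dl]
    rwa [show (a.1, l - 1) + n • u 1 = (a.1, p.2) by simp [Prod.ext_iff]; omega] at this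
  exact (((c4.symm'.trans' c1).trans' c2).trans' c3.symm').trans' c5

end KAx

open Classical KAx in
theorem p_KA (hJ1 : S_J1) :
    S_KA := by
  rintro ω d R l P a m h hm ⟨p, hp, hb⟩ hA y hy hc
  have t1 := h.tip.1
  obtain ⟨β, hβ⟩ : ∃ β : Cfg, ∀ e, β e = true ↔
      e ∈ XX P ∧ ω e = true ∨ e ∉ XX P ∧ e ∈ In {v | 13 * m < nm a v} :=
    ⟨fun e => decide _, fun e => decide_eq_true_iff⟩
  obtain ⟨α, hα⟩ : ∃ α : Cfg, ∀ g, α g = true ↔
      ¬ β (dl g) = true ∧ ∀ j, l ≤ j → dl g ≠ ((a.1, j), false) :=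
    ⟨fun e => decide _, fun e => decide_eq_true_iff⟩
  have c1 := prim h hA (le_max_of_le_right ((show 39 * m ≤ y.2 - a.2 by omega).trans
    (le_abs_self _))) hc (fun e a1 a2 => (hβ e).2 (Or.inl ⟨a1, a2⟩))
    fun e a1 a2 => (hβ e).2 (Or.inr ⟨a1, a2⟩)
  have c2 := dual h hm hp hb (α := α) (fun g a1 a2 => (hα g).2 ⟨by simp [hβ, a1, a2],
      fun j hj e => by have := low h a1; rw [e] at this; simp only at this; omega⟩)
    fun g a1 a2 a3 => (hα g).2 ⟨fun b => by
      rcases (hβ _).1 b with b | ⟨-, b1, b2⟩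
      · exact a1 b.1
      · simp only [Set.mem_ofPred_eq] at b1 b2; omega, a3⟩
  simp only [mem_Rc] at hp
  refine (hJ1 α β _ _ _ _ (a.1 - 1) p.2 l y (by rwa [sub_add_cancel]) (by omega)
    fun j hj => ?_).2 (fun g hg => ⟨?_, ?_⟩) (by omega) (by rwa [sub_add_cancel, ← t1])
  · exact Bool.eq_false_iff.2 fun b => ((hα _).1 b).2 j hj (by simp [dl])
  · exact Bool.eq_false_iff.2 fun b => ((hα _).1 b).1 hg
  · rintro rfl
    rcases (hβ _).1 hg with b | ⟨-, b1, -⟩
    · have := low h b.1; simp [dl] at this; omega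
    · simp [dl, nm, lt_abs] at b1; omega

end Pool.Agent.P.MP_6c8efb_pr.Two

end KAS

section GOODPS

/-! Step GOODP. -/

namespace Pool.Agent.P.MP_6c8efb_pr.Two

open Function MeasureTheory

namespace GOODPx

theorem mem_LL {ω : Cfg} {d : Fin 4} {R l : ℤ} {P : Set D} {a : V} (hP : Past ω d R l P a)
    {z : V} (hz : z ∈ LL P a) : -R ≤ z.1 ∧ z.1 ≤ R ∧ z.2 ≤ l ∧ (z.2 = l ∨ -R ≤ z.2) := by
  obtain ⟨t1, t2, t3⟩ := hP.tip
  rcases hz with rfl | ⟨c, hc, rfl⟩
  · omega
  · have := hP.ins c hc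
    simp only [Ins, mem_Rc] at this
    omega

theorem conn_LL {ω : Cfg} {d : Fin 4} {R l : ℤ} {P : Set D} {a : V} (hP : Past ω d R l P a)
    {z : V} (hz : z ∈ LL P a) : Conn ω (LL P a) a z := by
  rcases hz with rfl | ⟨c, hc, rfl⟩
  · exact Conn.rfl'
  · exact (hP.connP c hc).up (shut_le _ _)

end GOODPx

open GOODPx in
theorem p_GOODP (hUATT : S_UATT) :
    S_GOODP := by
  intro ω d R l P a m r hP hm hl hR hr hB hF
  obtain ⟨t1, t2, t3⟩ := hP.tip
  obtain ⟨hU, q, q', ⟨hq1, hq2, hq3⟩, hq⟩ := hF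
  obtain ⟨x, y, ⟨hx1, hx2, hx3⟩, hx⟩ := hU.1.1
  obtain ⟨x', y', e1, e2, c1, c2⟩ := hx.strip (f := fun z => z.2) lip_snd
    (a := a.2 + m) (b := a.2 + 3 * m) (by omega) (by omega) (by omega)
  obtain ⟨t, t', f1, f2, d1, d2⟩ := hq.strip (f := fun z => z.1) lip_fst
    (a := a.1 - 3 * m) (b := a.1 - m) (by omega) (by omega) (by omega)
  obtain ⟨p, ⟨p1, p2⟩, p3, p4⟩ := cross0 (x0 := a.1 - 3 * m) (x1 := a.1 - m) (y0 := a.2 + m)
    (y1 := a.2 + 3 * m) (by omega)
    (fun z hz => by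
      have h1 := hz.1.1
      have h2 := hz.1.2
      simp only [mem_Rc, Set.mem_ofPred_eq] at h1 h2 ⊢
      omega)
    (fun z hz => by
      have h1 := hz.1.1
      have h2 := hz.1.2
      simp only [mem_Rc, Set.mem_ofPred_eq] at h1 h2 ⊢
      omega)
    c2.cl ⟨⟨c1.mem hx1, by simp only [Set.mem_ofPred_eq]; omega⟩, Conn.rfl'⟩ e1 e2
    d2.cl ⟨⟨d1.mem hq1, by simp only [Set.mem_ofPred_eq]; omega⟩, Conn.rfl'⟩ f1 f2
  have pa := p1.1
  have pb := p1.2
  simp only [mem_Rc, Set.mem_ofPred_eq] at pa pb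
  have hxp := c1.trans' (p2.mono_set Set.inter_subset_left)
  have hqp := d1.trans' (p4.mono_set Set.inter_subset_left)
  have h0 : (0 : V) ∈ LL P a := Or.inr ⟨_, hP.start, rfl⟩
  obtain ⟨z, z1, z2⟩ := hUATT ω (XX P) (LL P a) a 0 p x y m (3 * m) (a.2 + 3 * m) a.2
    (by omega) (by omega) (by omega) le_rfl
    (fun z hz => by have := mem_LL hP hz; omega) (Or.inl rfl)
    ((conn_LL hP h0).up fun _ => le_top)
    (by
      simp only [nm, Prod.fst_zero, Prod.snd_zero, abs_eq_max_neg]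
      omega)
    hU (fun hz => by have := mem_LL hP hz; omega)
    (fun h => hB ⟨p, by simp only [mem_Rc]; omega, h⟩) hx2 (Or.inl ⟨hx1, hx3, hx⟩)
    (hxp.symm'.mono_set fun z hz => Or.inl (Or.inl hz))
  have hqp' : Conn ω (Rc (-3 * r) (a.1 - m) (a.2 + m) (a.2 + 3 * m)) q p := by
    refine hqp.mono subset_rfl fun e he h => ?_
    rcases opn_true.1 h with ⟨c, hc, rfl⟩ | h
    · have h1 := (edge_mem_In.1 he).1
      have h2 := hP.ins c hc
      simp only [Ins, mem_Rc] at h1 h2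
      omega
    · exact h
  obtain ⟨w, w1, w2⟩ := hqp'.hit (f := fun z => z.1)
    (fun a d => by have := abs_le.1 (lip_fst a d); omega) (b := -r) (by omega) (by omega)
  simp only [mem_Rc] at hq1
  refine ⟨q, w, ?_, ?_, ?_, w2.mono_set fun v hv => ?_, ?_⟩
  · simp only [mem_Rc, Prod.fst_zero, Prod.snd_zero]; omega
  · simp only [Prod.fst_zero]; omega
  · simp only [Prod.fst_zero]; omega
  · have h1 := hv.1
    have h2 := hv.2
    simp only [mem_Rc, Set.mem_ofPred_eq, Prod.fst_zero, Prod.snd_zero] at h1 h2 ⊢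
    omega
  · refine Conn.trans' (Conn.trans' (((conn_LL hP h0).symm'.trans' (conn_LL hP z1)).mono_set
      fun v hv => ?_) (z2.symm'.mono_set fun v hv => ?_)) (hqp'.symm'.mono_set fun v hv => ?_)
    · have := mem_LL hP hv
      simp only [mem_Rc, Prod.fst_zero, Prod.snd_zero]
      omega
    · simp only [Ush, Set.mem_union, mem_Rc, Prod.fst_zero, Prod.snd_zero] at hv ⊢
      omega
    · simp only [mem_Rc, Prod.fst_zero, Prod.snd_zero] at hv ⊢
      omega

end Pool.Agent.P.MP_6c8efb_pr.Two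

end GOODPS

section J2S

/-! Step J2. -/

namespace Pool.Agent.P.MP_6c8efb_pr.Two

open Function MeasureTheory

namespace J2x

theorem ex_cycle {α : Cfg} {S : Set V} {i t : ℤ} (h : Conn α S (i, t) (i + 1, t))
    (h0 : α ((i, t), true) = false) :
    ∃ c : E → ℤ, c ((i, t), true) = -1 ∧ (∀ e, c e ≠ 0 → e ∈ In S) ∧
      (∀ e, α e = false → e ≠ ((i, t), true) → c e = 0) ∧ ∀ x, bd c x = 0 := by
  have hp : (i, t) ∈ S := by
    rcases Relation.ReflTransGen.cases_head h with e | ⟨z, hz, -⟩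
    · simp at e
    · exact hz.1
  have hq := h.mem hp
  obtain ⟨c, h1, h2⟩ := exists_chain h
  have hz : ∀ e, α e = false → c e = 0 := fun e he => by
    by_contra b
    have := (h1 e b).1
    rw [he] at this
    exact Bool.noConfusion this
  refine ⟨fun e => c e - if e = ((i, t), true) then 1 else 0, by simp [hz _ h0], fun e he => ?_,
    fun e a b => by simp [hz e a, b], fun x => ?_⟩
  · by_cases b : e = ((i, t), true)
    · rw [b]; exact ⟨hp, hq⟩
    · exact (h1 e (by simpa [b] using he)).2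
  · have h3 := h2 x
    have h4 : bd (fun e => if e = ((i, t), true) then 1 else 0) x =
        (if x = (i, t) then 1 else 0) - if x = (i + 1, t) then 1 else 0 := by
      obtain ⟨x1, x2⟩ := x
      simp [bd, Prod.ext_iff]
      split_ifs <;> omega
    simp only [bd] at h3 h4 ⊢
    omega

end J2x

theorem p_J2 :
    S_J2 := by
  intro α x0 x1 y0 y1 i t h h0
  obtain ⟨c, c1, c2, c3, c4⟩ := J2x.ex_cycle h h0
  have hz : ∀ e : E, ¬ (e.1 ∈ Rc x0 x1 y0 y1 ∧ hd e ∈ Rc x0 x1 y0 y1) → c e = 0 := fun e he => by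
    by_contra b; exact he (c2 e b)
  obtain ⟨J, j1, j2, j3⟩ := exists_J c x0 fun e he => (c2 e he).1.1
  have j4 : ∀ i j, J (i, j) - J (i, j - 1) + c ((i, j), true) = 0 := fun i j => by
    rw [j3 j 0 (fun k _ => c4 _), c4, ite_self]
  have row : ∀ j, ¬ (y0 ≤ j ∧ j ≤ y1 - 1) → ∀ i, J (i, j) = 0 := fun j hj =>
    ind_right x0 (fun i hi => j1 _ hi) fun i ih => by
      have := j2 i j
      rw [hz _ (by simp [mem_Rc]; omega)] at this
      omega
  refine ⟨J, ?_, fun f d a b => ?_, ?_⟩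
  · have := j4 i t
    omega
  · have e := c3 _ a b
    obtain ⟨p, q⟩ := f
    rcases cases4 d with rfl | rfl | rfl | rfl <;> simp [dl] at e ⊢
    · have := j2 (p + 1) q
      rw [add_sub_cancel_right] at this
      omega
    · have := j4 p (q + 1)
      rw [add_sub_cancel_right] at this
      omega
    · have := j2 p q
      rw [← sub_eq_add_neg]
      omega
    · have := j4 p q
      rw [← sub_eq_add_neg]
      omega
  · rintro ⟨p, q⟩ hf
    by_cases a : y0 ≤ q ∧ q ≤ y1 - 1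
    · by_cases b : p < x0
      · exact j1 _ b
      · have hp : x1 ≤ p := by simp only [mem_Rc] at hf; omega
        exact ind_right (p := fun q => J (p, q) = 0) y0 (fun q hq => row q (by omega) p)
          (fun q ih => by
            have := j4 p q
            rw [hz _ (by simp [mem_Rc]; omega)] at this
            omega) q
    · exact row q a p

end Pool.Agent.P.MP_6c8efb_pr.Two

end J2S

section J1S

/-! Step J1. -/

namespace Pool.Agent.P.MP_6c8efb_pr.Two

open Function MeasureTheory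

namespace J1x

theorem first (hJ2 : S_J2) (α γ : Cfg) (x0 x1 y0 y1 i t j0 : ℤ) (y : V)
    (hc : Conn α (Rc x0 x1 y0 y1) (i, t) (i + 1, t)) (hj : j0 ≤ t)
    (hα : ∀ j, j0 ≤ j → α ((i, j), true) = false)
    (hγ : ∀ g, γ g = true → α (dl g) = false ∧ dl g ≠ ((i, t), true)) (hy : y1 ≤ y.2) :
    ¬ Conn γ Set.univ (i, j0 - 1) y := by
  obtain ⟨J, h1, h2, h3⟩ := hJ2 α x0 x1 y0 y1 i t hc (hα t hj)
  have hst : ∀ j : ℤ, j0 ≤ j + 1 → j + 1 ≠ t → J (i, j + 1) = J (i, j) := by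
    intro j a b
    have e : dl (edge (i, j) 1) = ((i, j + 1), true) := by simp [dl]
    have := h2 (i, j) 1 (by rw [e]; exact hα _ a) (by
      rw [e]
      intro h
      simp only [Prod.mk.injEq] at h
      exact b h.1.2)
    simpa using this
  have hup : ∀ n : ℕ, J (i, t + n) = J (i, t) := by
    intro n
    induction n with
    | zero => simp
    | succ n ih =>
      have := hst (t + n) (by omega) (by omega)
      rw [← ih, ← this]
      congr 2
      push_cast
      ring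
  have hdn : ∀ n : ℕ, j0 + n ≤ t → J (i, j0 - 1 + n) = J (i, j0 - 1) := by
    intro n
    induction n with
    | zero => simp
    | succ n ih =>
      intro hn
      have := hst (j0 - 1 + n) (by omega) (by omega)
      rw [← ih (by omega), ← this]
      congr 2
      push_cast
      ring
  have z1 : J (i, t) = 0 := by
    rw [← hup (y1 - t).toNat]
    apply h3
    simp only [mem_Rc]
    omega
  have z2 : J (i, t - 1) = J (i, j0 - 1) := by
    rw [← hdn (t - j0).toNat (by omega)]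
    congr 2
    omega
  intro h
  have z3 : J y = J (i, j0 - 1) :=
    h.ind (p := fun z => J z = J (i, j0 - 1)) rfl fun a d _ _ _ ho ih =>
      (h2 a d (hγ _ ho).1 (hγ _ ho).2).trans ih
  have z4 : J y = 0 := by
    apply h3
    simp only [mem_Rc]
    omega
  exact h1 (by rw [z1, z2, ← z3, z4])

end J1x

theorem p_J1 (hJ2 : S_J2) :
    S_J1 := by
  intro α γ x0 x1 y0 y1 i t j0 y hc hj hα
  refine ⟨J1x.first hJ2 α γ x0 x1 y0 y1 i t j0 y hc hj hα, fun hγ hy h => ?_⟩
  refine J1x.first hJ2 α (fun e => γ (dl (dl e))) x0 x1 y0 y1 i t j0 (y.1 - 1, y.2 - 1) hc hj hα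
    (fun g hg => hγ _ hg) (by simp only; omega) ?_
  have e : (fun e => (fun e => γ (dl (dl e))) ((syT (-1) (-1)).e e)) = γ := by
    funext e
    simp [dl_dl, syT]
  have k := Conn.map (syT (-1) (-1)) (ω := fun e => γ (dl (dl e))) (S := Set.univ) (T := Set.univ)
    (x := (i + 1, j0)) (y := y) (by rw [e]; exact h) fun _ _ => trivial
  simpa [syT, sub_eq_add_neg] using k

end Pool.Agent.P.MP_6c8efb_pr.Two

end J1S
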