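import Pool.Agent.P.MP_6c8efb_pr.Two.IfaceB

section DBLS

/-! Step DBL. -/

namespace Pool.Agent.P.MP_6c8efb_pr.Two

open Function MeasureTheory

namespace DBLx

/-- the doubled vertex -/
def dv (x : V) : V := (2 * x.1, 2 * x.2)

/-- the centre of a face -/
def ce (f : V) : V := (2 * f.1 + 1, 2 * f.2 + 1)

/-- the half edge of a dart -/
def hA (c : D) : E := edge (dv c.1) c.2

/-- the dual half edge of a dart -/
def hB (c : D) : E := edge (dv c.1 + u c.2) (c.2 - 1)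

theorem hA_inj {a b : D} (h : hA a = hA b) : a = b := by
  obtain ⟨⟨x, y⟩, d⟩ := a
  obtain ⟨⟨x', y'⟩, d'⟩ := b
  rcases cases4 d with rfl | rfl | rfl | rfl <;> rcases cases4 d' with rfl | rfl | rfl | rfl <;>
    simp [hA, dv] at h ⊢ <;> omega

theorem hB_inj {a b : D} (h : hB a = hB b) : a = b := by
  obtain ⟨⟨x, y⟩, d⟩ := a
  obtain ⟨⟨x', y'⟩, d'⟩ := b
  rcases cases4 d with rfl | rfl | rfl | rfl <;> rcases cases4 d' with rfl | rfl | rfl | rfl <;>
    simp only [hB, dv, s01, s11, s21, s31] at h <;> simp at h ⊢ <;> omega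

theorem hA_ne (a b : D) : hA a ≠ hB b := by
  obtain ⟨⟨x, y⟩, d⟩ := a
  obtain ⟨⟨x', y'⟩, d'⟩ := b
  intro h
  rcases cases4 d with rfl | rfl | rfl | rfl <;> rcases cases4 d' with rfl | rfl | rfl | rfl <;>
    simp only [hA, hB, dv, s01, s11, s21, s31] at h <;> simp at h <;> omega

open Classical in
/-- the doubled configuration -/
noncomputable def al (σ : Cfg) (c : D) : Cfg := fun e =>
  decide (∃ c' : D, (e = hA c' ∧ (σ (ed c') = true ∨ c' = c)) ∨
    (e = hB c' ∧ (σ (ed c') = false ∨ c' = c)))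

variable {σ : Cfg} {c a : D}

theorem al_A : al σ c (hA a) = true ↔ σ (ed a) = true ∨ a = c := by
  simp only [al, decide_eq_true_eq]
  constructor
  · rintro ⟨b, ⟨h1, h2⟩ | ⟨h1, -⟩⟩
    · rw [hA_inj h1]; exact h2
    · exact absurd h1 (hA_ne _ _)
  · exact fun h => ⟨a, Or.inl ⟨rfl, h⟩⟩

theorem al_B : al σ c (hB a) = true ↔ σ (ed a) = false ∨ a = c := by
  simp only [al, decide_eq_true_eq]
  constructor
  · rintro ⟨b, ⟨h1, -⟩ | ⟨h1, h2⟩⟩
    · exact absurd h1.symm (hA_ne _ _)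
    · rw [hB_inj h1]; exact h2
  · exact fun h => ⟨a, Or.inr ⟨rfl, h⟩⟩

theorem db_step (x : V) (d : Fin 4) : dv (x + u d) + u (d + 2) = dv x + u d := by
  rcases cases4 d with rfl | rfl | rfl | rfl <;> simp [dv, Prod.ext_iff] <;> omega

theorem ce_fd (a : D) : dv a.1 + u a.2 + u (a.2 - 1) = ce (fd a) := by
  obtain ⟨x, d⟩ := a
  rcases cases4 d with rfl | rfl | rfl | rfl <;> simp only [s01, s11, s21, s31] <;>
    simp [dv, ce, fd, Prod.ext_iff] <;> omega

/-- the doubled box -/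
def Bg (R : ℤ) : Set V := Rc (-2 * R) (2 * R + 1) (-2 * R) (2 * R + 1)

variable {R : ℤ}

theorem db_mem {x : V} (h : x ∈ Rc (-R) R (-R) R) : dv x ∈ Bg R := by
  simp only [Bg, dv, mem_Rc] at h ⊢; omega

theorem ce_mem {x : V} (h : x ∈ Rc (-R) R (-R) R) : ce x ∈ Bg R := by
  simp only [Bg, ce, mem_Rc] at h ⊢; omega

theorem conn_A (h : al σ c (hA a) = true) (h1 : dv a.1 ∈ Bg R) (h2 : dv a.1 + u a.2 ∈ Bg R) :
    Conn (al σ c) (Bg R) (dv a.1) (dv a.1 + u a.2) := Conn.one h1 h2 h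

theorem conn_B (h : al σ c (hB a) = true) (h1 : dv a.1 + u a.2 ∈ Bg R) (h2 : ce (fd a) ∈ Bg R) :
    Conn (al σ c) (Bg R) (dv a.1 + u a.2) (ce (fd a)) := by
  rw [← ce_fd] at h2 ⊢
  exact Conn.one h1 h2 h

theorem conn_db {x y : V} (h : Conn σ (Rc (-R) R (-R) R) x y) :
    Conn (al σ c) (Bg R) (dv x) (dv y) :=
  h.ind (p := fun y => Conn (al σ c) (Bg R) (dv x) (dv y)) Conn.rfl' fun v d _ ha hb ho ih => by
    have m : dv v + u d ∈ Bg R := by
      rcases cases4 d with rfl | rfl | rfl | rfl <;> simp [Bg, dv, mem_Rc] at ha hb ⊢ <;> omega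
    have k1 := conn_A (σ := σ) (c := c) (a := (v, d)) (al_A.2 (Or.inl ho)) (db_mem ha) m
    have k2 := conn_A (σ := σ) (c := c) (a := opp (v, d))
      (al_A.2 (Or.inl (by rw [ed_opp]; exact ho))) (db_mem hb)
      (by simp only [opp]; rw [db_step]; exact m)
    simp only [opp, db_step] at k2
    exact ih.trans' (k1.trans' k2.symm')

theorem conn_ce {x y : V} (h : Conn (du σ) (Rc (-R) R (-R) R) x y) :
    Conn (al σ c) (Bg R) (ce x) (ce y) :=
  h.ind (p := fun y => Conn (al σ c) (Bg R) (ce x) (ce y)) Conn.rfl' fun f d _ ha hb ho ih => by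
    obtain ⟨v, e, h1, h2, h3⟩ := face_step f d
    rw [du_true, ← h3] at ho
    have g1 : fd (v, e) = f := h1
    have g2 : fd (opp (v, e)) = f + u d := by rw [← fd_rot]; exact h2
    have m : dv v + u e ∈ Bg R := by
      rw [← h2] at hb
      rw [← h1] at ha
      rcases cases4 e with rfl | rfl | rfl | rfl <;> simp [Bg, dv, mem_Rc] at ha hb ⊢ <;> omega
    have k1 := conn_B (σ := σ) (c := c) (a := (v, e)) (al_B.2 (Or.inl ho)) m
      (by rw [g1]; exact ce_mem ha)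
    have k2 := conn_B (σ := σ) (c := c) (a := opp (v, e))
      (al_B.2 (Or.inl (by rw [ed_opp]; exact ho)))
      (by simp only [opp]; rw [db_step]; exact m) (by rw [g2]; exact ce_mem hb)
    rw [g1] at k1
    rw [g2] at k2
    simp only [opp, db_step] at k2
    exact ih.trans' (k1.symm'.trans' k2)

theorem open_a (x : V) (d : Fin 4) : fc (dv x) d = fc (dv x + u d) (d - 1) := by
  rcases cases4 d with rfl | rfl | rfl | rfl <;> simp only [s01, s11, s21, s31] <;>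
    simp [Prod.ext_iff, sub_eq_add_neg]

theorem open_b (x : V) (d : Fin 4) :
    fc (dv (x + u d)) (d - 1) = fc (dv x + u d) (d - 1) + u (d - 1 + 1) := by
  rcases cases4 d with rfl | rfl | rfl | rfl <;> simp only [s01, s11, s21, s31] <;>
    simp [dv, Prod.ext_iff] <;> omega

end DBLx

open DBLx in
theorem p_DBL (hJ2 : S_J2) :
    S_DBL := by
  intro σ R c h0 hR hc h1 h2
  have m0 : ((0, 0) : V) ∈ Rc (-R) R (-R) R := by simp only [mem_Rc]; omega
  have m1 : ((0, -1) : V) ∈ Rc (-R) R (-R) R := by simp only [mem_Rc]; omega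
  have m2 := h1.mem m0
  have m3 := h2.mem m1
  have m4 : dv c.1 + u c.2 ∈ Bg R := by
    obtain ⟨x, d⟩ := c
    rcases cases4 d with rfl | rfl | rfl | rfl <;> simp [Bg, dv, fd, mem_Rc] at m2 m3 ⊢ <;> omega
  have e0 : hA ((0, 0), 0) = ((0, 0), true) := by simp [hA, dv]
  have k1 := conn_db (c := c) h1
  have k2 := conn_A (σ := σ) (c := c) (al_A.2 (Or.inr rfl)) (db_mem m2) m4
  have k3 := conn_B (σ := σ) (c := c) (al_B.2 (Or.inr rfl)) m4 (ce_mem m3)
  have k4 := conn_ce (c := c) h2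
  have k5 := conn_B (σ := σ) (c := c) (a := ((0, 0), 0)) (R := R) (al_B.2 (Or.inl h0))
    (by simp [Bg, dv, mem_Rc]; omega) (ce_mem (by simpa [fd] using m1))
  have e1 : fd ((0, 0), 0) = (0, -1) := by simp [fd]
  rw [e1] at k5
  have k6 := k1.trans' (k2.trans' (k3.trans' (k4.symm'.trans' k5.symm')))
  have e2 : dv (0, 0) = (0, 0) := by simp [dv]
  have e3 : ((0, 0) : V) + u 0 = (0 + 1, 0) := by simp
  simp only [e2, e3] at k6
  have nf : ∀ {b : Bool}, ¬ b = true → b = false := fun h => by simpa using h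
  obtain ⟨J, j1, j2, j3⟩ := hJ2 (al σ c) _ _ _ _ 0 0 k6 (nf (by
    rw [← e0, al_A]
    rintro (h | h)
    · exact absurd (h0.symm.trans h) (by simp)
    · exact hc h.symm))
  refine ⟨fun a => J (fc (dv a.1) a.2), by simpa [dv] using j1, ?_, ?_⟩
  · intro a ha hac
    rcases step_cases σ a with ⟨b1, b2, -⟩ | ⟨b1, b2, -, -⟩ <;> rw [b2] <;> simp only
    · rw [open_b, open_a]
      refine j2 _ _ ?_ ?_ <;> rw [dl_fc]
      · refine nf fun h => ?_
        rcases (al_B (a := a)).1 h with h | h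
        · exact absurd (h.symm.trans b1) (by simp)
        · exact hac h
      · rw [← e0]; exact (hA_ne _ a).symm
    · rw [fc_succ]
      refine j2 _ _ ?_ ?_ <;> rw [dl_fc]
      · refine nf fun h => ?_
        rcases (al_A (a := a)).1 h with h | h
        · exact absurd (b1.symm.trans h) (by simp)
        · exact hac h
      · rw [← e0]; exact fun h => ha (hA_inj h)
  · intro a ha
    refine j3 _ fun h => ?_
    have := fd_bd (dv a.1, a.2)
    rw [nm_zero] at ha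
    simp only [mem_Rc, fd, dv] at h this
    rcases lt_max_iff.1 ha with ha | ha <;> rcases lt_abs.1 ha with ha | ha <;> omega

end Pool.Agent.P.MP_6c8efb_pr.Two

end DBLS

section STOPS

/-! Step STOP. -/

namespace Pool.Agent.P.MP_6c8efb_pr.Two

open Function MeasureTheory

namespace STOPx

variable {ω ω' : Cfg} {d : Fin 4} {R l : ℤ} {P P' : Set D} {a a' : V}

theorem stop_dep (h : IsPast ω d R l P a) (hω : ∀ e ∈ XX P, ω e = ω' e) :
    IsPast ω' d R l P a := by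
  obtain ⟨k, ⟨h1, h2⟩, h3, h4⟩ := h
  have e := lp_congr (ω := ω) (ω' := ω') (0, d) k fun j hj =>
    (hω _ ⟨_, by rw [h4]; exact ⟨j, hj, rfl⟩, rfl⟩).symm
  refine ⟨k, ⟨by rw [e k le_rfl]; exact h1, fun j hj => by rw [e j hj.le]; exact h2 j hj⟩,
    by rw [e k le_rfl]; exact h3, ?_⟩
  rw [h4]
  ext c
  constructor
  · rintro ⟨j, hj, rfl⟩
    exact ⟨j, hj, e j hj.le⟩
  · rintro ⟨j, hj, rfl⟩
    exact ⟨j, hj, (e j hj.le).symm⟩

theorem stop_uniq (h : IsPast ω d R l P a) (h' : IsPast ω d R l P' a') : P = P' ∧ a = a' := by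
  obtain ⟨k, h1, h2, h3⟩ := h
  obtain ⟨k', h1', h2', h3'⟩ := h'
  obtain rfl := hit_unique h1 h1'
  exact ⟨h3.trans h3'.symm, h2.symm.trans h2'⟩

theorem stop_sub (h : IsPast ω d R l P a) : XX P ⊆ ed '' {c : D | c.1 ∈ Ins R l} := by
  obtain ⟨k, ⟨-, h2⟩, -, h4⟩ := h
  rintro _ ⟨c, hc, rfl⟩
  rw [h4] at hc
  obtain ⟨j, hj, rfl⟩ := hc
  exact ⟨_, h2 j hj, rfl⟩

/-- the past as a random variable -/
def stX (d : Fin 4) (R l : ℤ) (ω : Cfg) : Set (Set D × V) := {p | IsPast ω d R l p.1 p.2}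

theorem stX_loc (d : Fin 4) (R l : ℤ) : LocF (stX d R l) := by
  refine ⟨_, finite_ed (Rc_finite (-R) R (-R) (l - 1)), fun ω ω' hω => ?_⟩
  ext p
  exact ⟨fun h => stop_dep h fun e he => hω e (stop_sub h he),
    fun h => stop_dep h fun e he => (hω e (stop_sub h he)).symm⟩

theorem stX_eq : stX d R l ω = {(P, a)} ↔ IsPast ω d R l P a := by
  constructor
  · intro h
    have : (P, a) ∈ stX d R l ω := by rw [h]; rfl
    exact this
  · intro h
    ext p
    constructor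
    · intro hp
      obtain ⟨e1, e2⟩ := stop_uniq hp h
      exact Prod.ext e1 e2
    · rintro rfl
      exact h

/-- the admissible values -/
def stG (G : Set D → V → Prop) : Set (Set (Set D × V)) := {s | ∃ P a, s = {(P, a)} ∧ G P a}

/-- the event attached to a value -/
def stA (F : Set D → V → Set Cfg) (s : Set (Set D × V)) : Set Cfg := {ω | ∃ p ∈ s, ω ∈ F p.1 p.2}

/-- the explored edges of a value -/
def stS (s : Set (Set D × V)) : Set E := {e | ∃ p ∈ s, e ∈ XX p.1}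

theorem stA_one (F : Set D → V → Set Cfg) (P : Set D) (a : V) : stA F {(P, a)} = F P a := by
  ext ω
  exact ⟨by rintro ⟨p, rfl, h⟩; exact h, fun h => ⟨_, rfl, h⟩⟩

theorem stS_one (P : Set D) (a : V) : stS {(P, a)} = XX P := by
  ext ω
  exact ⟨by rintro ⟨p, rfl, h⟩; exact h, fun h => ⟨_, rfl, h⟩⟩

theorem st_set1 (d : Fin 4) (R l : ℤ) (G : Set D → V → Prop) :
    {ω | ∃ P a, IsPast ω d R l P a ∧ G P a} = {ω | stX d R l ω ∈ stG G} := by
  ext ω
  exact ⟨fun ⟨P, a, h1, h2⟩ => ⟨P, a, stX_eq.2 h1, h2⟩,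
    fun ⟨P, a, h1, h2⟩ => ⟨P, a, stX_eq.1 h1, h2⟩⟩

theorem st_set2 (d : Fin 4) (R l : ℤ) (G : Set D → V → Prop) (F : Set D → V → Set Cfg) :
    {ω | ∃ P a, IsPast ω d R l P a ∧ G P a ∧ ω ∈ F P a} =
      {ω | stX d R l ω ∈ stG G ∧ ω ∈ stA F (stX d R l ω)} := by
  ext ω
  constructor
  · rintro ⟨P, a, h1, h2, h3⟩
    exact ⟨⟨P, a, stX_eq.2 h1, h2⟩, (P, a), h1, h3⟩
  · rintro ⟨⟨P, a, h1, h2⟩, h3⟩
    rw [h1, stA_one] at h3
    exact ⟨P, a, stX_eq.1 h1, h2, h3⟩

end STOPx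

open STOPx in
theorem p_STOP :
    S_STOP := by
  intro d R l G F κ hF
  have hA : ∀ s ∈ stG G, Loc (stA F s) := by
    rintro _ ⟨P, a, rfl, h⟩
    rw [stA_one]; exact (hF P a h).1
  have hS : ∀ s ∈ stG G, Dep {ω | stX d R l ω = s} (stS s) := by
    rintro _ ⟨P, a, rfl, -⟩ ω ω' hω h
    rw [stS_one] at hω
    exact stX_eq.2 (stop_dep (stX_eq.1 h) hω)
  have hT : ∀ s ∈ stG G, Dep (stA F s) (stS s)ᶜ := by
    rintro _ ⟨P, a, rfl, h⟩
    rw [stA_one, stS_one]; exact (hF P a h).2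
  have hd : ∀ s ∈ stG G, Disjoint (stS s) (stS s)ᶜ := fun _ _ => disjoint_compl_right
  rw [st_set1, st_set2]
  refine ⟨fun hκ => ?_, fun hκ => ?_⟩
  · refine Pr_cond_le _ (stX_loc d R l) (stG G) (T := fun s => (stS s)ᶜ) hA hS hT hd ?_
    rintro _ ⟨P, a, rfl, h⟩
    rw [stA_one]; exact hκ P a h
  · refine Pr_cond_ge _ (stX_loc d R l) (stG G) (T := fun s => (stS s)ᶜ) hA hS hT hd ?_
    rintro _ ⟨P, a, rfl, h⟩
    rw [stA_one]; exact hκ P a h

end Pool.Agent.P.MP_6c8efb_pr.Two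

end STOPS

section ROTBS

/-! Step ROTB. -/

namespace Pool.Agent.P.MP_6c8efb_pr.Two

open Function MeasureTheory

namespace ROTBx

/-- horizontal translation of a dart -/
def T (p : ℤ) (c : D) : D := ((c.1.1 + p, c.1.2), c.2)

/-- the translated configuration -/
def tr (p : ℤ) (ω : Cfg) : Cfg := fun e => ω ((syT p 0).e e)

theorem step_T (p : ℤ) (ω : Cfg) (c : D) : step ω (T p c) = T p (step (tr p ω) c) := by
  have h : edge (T p c).1 (T p c).2 = (syT p 0).e (edge c.1 c.2) := by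
    obtain ⟨x, d⟩ := c
    rcases cases4 d with rfl | rfl | rfl | rfl <;> simp [T, syT] <;> omega
  unfold step
  rw [h]
  by_cases b : tr p ω (edge c.1 c.2) = true
  · rw [if_pos b, if_pos (show ω _ = true from b)]
    simp [T, Prod.ext_iff, add_right_comm]
  · rw [if_neg b, if_neg (show ¬ ω _ = true from b)]
    rfl

theorem lp_T (p : ℤ) (ω : Cfg) (c : D) (k : ℕ) : lp ω (T p c) k = T p (lp (tr p ω) c k) := by
  induction k with
  | zero => rfl
  | succ k ih => rw [lp_succ, lp_succ, ih, step_T]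

theorem key {ω : Cfg} {d d' : Fin 4} {n R p : ℤ} (hn : 1 ≤ n) (hR : n ≤ R) (h1 : -1 ≤ p)
    (h2 : p ≤ 1) (h : ω ∈ AA d (n - 1) n) (hs : step ω (0, d) = T p (0, d')) :
    tr p ω ∈ AA d' R n := by
  obtain ⟨k, a1, a2⟩ := h
  have e : ∀ j, lp ω (0, d) (j + 1) = T p (lp (tr p ω) (0, d') j) := fun j => by
    rw [add_comm, lp_add, ← lp_T, ← hs]
    rfl
  cases k with
  | zero => simp at a1; omega
  | succ k =>
    rw [e] at a1
    refine ⟨k, a1, fun j hj => ?_⟩
    have := a2 (j + 1) (by omega)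
    rw [e] at this
    simp only [Ins, mem_Rc, T] at this ⊢
    omega

theorem Q_tr (p : ℤ) (d : Fin 4) (R n : ℤ) : Q {ω | tr p ω ∈ AA d R n} = Q (AA d R n) :=
  Pr_comp_inj (fun _ => hf) (syT p 0).inj (loc_AA d R n)

theorem mono (d : Fin 4) {n R : ℤ} (hR : n ≤ R) : Q (AA d (n - 1) n) ≤ Q (AA d R n) := by
  refine Pr_mono ?_
  rintro ω ⟨k, a1, a2⟩
  refine ⟨k, a1, fun j hj => ?_⟩
  have := a2 j hj
  simp only [Ins, mem_Rc] at this ⊢
  omega

end ROTBx

open ROTBx in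
theorem p_ROTB :
    S_ROTB := by
  intro d n R hn hR
  rcases cases4 d with rfl | rfl | rfl | rfl
  · rw [← Q_tr 0 1, ← Q_tr 1 3]
    refine (Pr_mono fun ω h => ?_).trans (Pr_union_le _ _ _)
    by_cases b : ω (edge 0 0) = true
    · exact Or.inr (key hn hR (by omega) (by omega) h ((if_pos b).trans (by simp [T])))
    · exact Or.inl (key hn hR (by omega) (by omega) h ((if_neg b).trans rfl))
  · exact (mono 1 hR).trans (le_add_of_nonneg_right (Pr_nonneg _ _))
  · rw [← Q_tr (-1) 1, ← Q_tr 0 3]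
    refine (Pr_mono fun ω h => ?_).trans (Pr_union_le _ _ _)
    by_cases b : ω (edge 0 2) = true
    · exact Or.inl (key hn hR (by omega) (by omega) h ((if_pos b).trans (by simp [T])))
    · exact Or.inr (key hn hR (by omega) (by omega) h ((if_neg b).trans rfl))
  · exact (mono 3 hR).trans (le_add_of_nonneg_left (Pr_nonneg _ _))

end Pool.Agent.P.MP_6c8efb_pr.Two

end ROTBS

section SEPLOS

/-! Step SEPLO. -/

namespace Pool.Agent.P.MP_6c8efb_pr.Two

open Function MeasureTheory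

theorem p_SEPLO (hREC : S_REC) (hUUP : S_UUP) (hLOOP : S_LOOP) (hTALO : S_TALO) :
    S_SEPLO := by
  obtain ⟨c, c0, hc⟩ := hTALO
  obtain ⟨B, hB⟩ := hUUP
  have B0 : 0 < |B| + 1 := by positivity
  obtain ⟨K, C, K1, C0, hK⟩ := hREC (c / (4 * (|B| + 1))) (by positivity)
  refine ⟨120 * K, c / (4 * ((40 * K : ℕ) : ℝ) ^ (1 / 4 : ℝ) * (C + 1)), by omega, by positivity,
    fun m hm => ?_⟩
  have h1 : 1 ≤ 40 * K * m := Nat.mul_pos (by omega) hm
  have a1 := hc (2 * (40 * K * m) + 1) (by omega)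
  have a2 := hB _ h1
  have a3 := hK m hm
  have a4 : Q (TA 0 1 ((2 * (40 * K * m) + 1 : ℕ) : ℤ)) ≤ UR (80 * K * m) := by
    refine (Pr_mono ?_).trans (le_UR 1 _)
    convert hLOOP 1 (80 * K * m) using 2
    push_cast
    ring
  have a5 : ((2 * (40 * K * m) + 1 : ℕ) : ℝ) ^ (1 / 4 : ℝ) ≤
      2 * ((40 * K * m : ℕ) : ℝ) ^ (1 / 4 : ℝ) := by
    rw [show (2 : ℝ) = (2 ^ 4) ^ (1 / 4 : ℝ) by
      rw [one_div]; exact_mod_cast (Real.pow_rpow_inv_natCast zero_le_two four_ne_zero).symm,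
      ← Real.mul_rpow (by positivity) (by positivity)]
    exact Real.rpow_le_rpow (by positivity) (by exact_mod_cast (by omega)) (by positivity)
  have a6 := a1.trans (mul_le_mul a5 a4 (Pr_nonneg _ _) (by positivity))
  rw [Nat.cast_mul (40 * K), Real.mul_rpow (by positivity) (by positivity)] at a2 a6
  have s0 : 0 ≤ Q (Sep 0 (120 * K * m) 1) + Q (Sep 0 (120 * K * m) 3) :=
    add_nonneg (Pr_nonneg _ _) (Pr_nonneg _ _)
  push_cast at a2 a6 ⊢
  rw [div_le_iff₀ (by positivity)]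
  have p1 : 0 ≤ ((40 : ℝ) * K) ^ (1 / 4 : ℝ) := by positivity
  have p2 : 0 ≤ (m : ℝ) ^ (1 / 4 : ℝ) := by positivity
  generalize ((40 : ℝ) * K) ^ (1 / 4 : ℝ) = a at *
  generalize (m : ℝ) ^ (1 / 4 : ℝ) = μ at *
  have b1 := mul_le_mul_of_nonneg_left a3 (mul_nonneg p1 p2)
  have b2 := mul_le_mul_of_nonneg_left (a2.trans (by linarith [le_abs_self B] : B ≤ |B| + 1))
    (by positivity : 0 ≤ c / (4 * (|B| + 1)))
  rw [show c / (4 * (|B| + 1)) * (|B| + 1) = c / 4 by field_simp] at b2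
  nlinarith [mul_nonneg (mul_nonneg p1 p2) s0]

end Pool.Agent.P.MP_6c8efb_pr.Two

end SEPLOS

section VISUPS

/-! Step VISUP. -/

namespace Pool.Agent.P.MP_6c8efb_pr.Two

open Function MeasureTheory

namespace VISUPx

theorem bc_eq (ω : Cfg) {e : E} (h : 1 ≤ e.1.2) : bc ω e = ω e := by
  unfold bc
  rw [if_neg (by omega), if_neg (by omega)]

theorem arm1 {σ σ' : Cfg} {z y : V} {b : ℤ} (hb : 0 ≤ b) (h : Conn σ Set.univ y z)
    (hy : b ≤ nm z y) (he : ∀ e : E, nm z e.1 ≤ b → nm z (hd e) ≤ b → σ e = σ' e) :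
    σ' ∈ AG z Set.univ b := by
  obtain ⟨y', h1, h2⟩ := h.symm'.hit (nm_lip z) (by simpa [nm] using hb) hy
  exact ⟨y', h1.ge, h2.mono (Set.subset_univ _) fun e h3 h4 => he e h3.1.2 h3.2.2 ▸ h4⟩

end VISUPx

open VISUPx

theorem p_VISUP :
    S_VISUP := by
  rintro n x d hx ω ⟨k, hk, -⟩
  rw [path_eq] at hk
  have h1 := lp_conn (bc ω) (0, 0) k (S := Set.univ) fun _ _ => trivial
  have h2 := lp_connD (bc ω) (0, 0) k (S := Set.univ) fun _ _ => trivial
  rw [hk] at h1 h2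
  have h3 := fd_bd (x, d)
  refine ⟨arm1 (by omega) h1 ?_ fun e h4 _ => bc_eq ω ?_, arm1 (by omega) h2 ?_ fun e _ h4 => ?_⟩
  · simp only [nm, abs_eq_max_neg, Prod.fst_zero, Prod.snd_zero]; omega
  · simp only [nm, abs_eq_max_neg] at h4; omega
  · simp only [nm, abs_eq_max_neg, fd, fc0, Prod.fst_zero, Prod.snd_zero] at h3 ⊢; omega
  · unfold du
    rw [bc_eq]
    simp only [nm, abs_eq_max_neg, dl, fd] at h3 h4 ⊢; omega

end Pool.Agent.P.MP_6c8efb_pr.Two

end VISUPS
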