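import Pool.Agent.P.MP_6c8efb_pr.Two.IfaceB

section UUPS

/-! Step UUP. -/

namespace Pool.Agent.P.MP_6c8efb_pr.Two

open Function MeasureTheory

namespace UUPx

theorem two_w (x : ℝ) (hx : 0 ≤ x) :
    (2 * x) ^ (1 / 4 : ℝ) ≤ 3 / 2 * x ^ (1 / 4 : ℝ) := by
  rw [Real.mul_rpow (by norm_num) hx]
  refine mul_le_mul_of_nonneg_right ?_ (Real.rpow_nonneg hx _)
  have h : (2 : ℝ) ≤ (3 / 2 : ℝ) ^ (4 : ℕ) := by norm_num
  have h2 : (2 : ℝ) ^ (1 / 4 : ℝ) ≤ ((3 / 2 : ℝ) ^ (4 : ℕ)) ^ (1 / 4 : ℝ) :=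
    Real.rpow_le_rpow (by norm_num) h (by norm_num)
  have h3 : ((3 / 2 : ℝ) ^ (4 : ℕ)) ^ (1 / 4 : ℝ) = 3 / 2 := by
    rw [← Real.rpow_natCast, ← Real.rpow_mul (by norm_num)]
    norm_num
  rw [h3] at h2
  exact h2

end UUPx

theorem p_UUP (hREC : S_REC) (hSEPUP : S_SEPUP) :
    S_UUP := by
  obtain ⟨K, C, hK, hC, hrec⟩ := hREC (1 / 2) (by norm_num)
  obtain ⟨C0, hC0⟩ := hSEPUP
  have hK0 : (0 : ℝ) ≤ (K : ℝ) := Nat.cast_nonneg K
  set B : ℝ := max (((40 * K : ℕ) : ℝ) ^ (1 / 4 : ℝ) * 4) (4 * (C * (C0 + C0))) with hB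
  have hB1 : ((40 * K : ℕ) : ℝ) ^ (1 / 4 : ℝ) * 4 ≤ B := le_max_left _ _
  have hB2 : 4 * (C * (C0 + C0)) ≤ B := le_max_right _ _
  have key : ∀ j : ℕ, ((40 * K * 2 ^ j : ℕ) : ℝ) ^ (1 / 4 : ℝ) *
      UR ((40 * K * 2 ^ j : ℕ) : ℤ) ≤ B := by
    intro j
    induction j with
    | zero =>
      rw [pow_zero, mul_one]
      exact le_trans (mul_le_mul_of_nonneg_left (UR_le _)
        (Real.rpow_nonneg (Nat.cast_nonneg _) _)) hB1
    | succ j ih =>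
      have hm : 1 ≤ 2 ^ j := Nat.one_le_two_pow
      have h1 := hrec (2 ^ j) hm
      have hr : 1 ≤ 120 * K * 2 ^ j := Nat.mul_pos (by omega) hm
      have h2 := hC0 (120 * K * 2 ^ j) 1 hr (Or.inl rfl)
      have h3 := hC0 (120 * K * 2 ^ j) 3 hr (Or.inr rfl)
      have e1 : ((40 * K * 2 ^ (j + 1) : ℕ) : ℤ) = 80 * K * ((2 ^ j : ℕ) : ℤ) := by
        push_cast; ring
      have e2 : ((120 * K * 2 ^ j : ℕ) : ℤ) = 120 * K * ((2 ^ j : ℕ) : ℤ) := by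
        push_cast; ring
      have e3 : ((40 * K * 2 ^ j : ℕ) : ℤ) = 40 * K * ((2 ^ j : ℕ) : ℤ) := by
        push_cast; ring
      rw [e2] at h2 h3
      rw [e3] at ih
      rw [e1]
      have e4 : ((40 * K * 2 ^ (j + 1) : ℕ) : ℝ) = 2 * ((40 * K * 2 ^ j : ℕ) : ℝ) := by
        push_cast; ring
      have hw1 : ((40 * K * 2 ^ (j + 1) : ℕ) : ℝ) ^ (1 / 4 : ℝ) ≤
          3 / 2 * ((40 * K * 2 ^ j : ℕ) : ℝ) ^ (1 / 4 : ℝ) := by
        rw [e4]; exact UUPx.two_w _ (Nat.cast_nonneg _)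
      have hw2 : ((40 * K * 2 ^ (j + 1) : ℕ) : ℝ) ^ (1 / 4 : ℝ) ≤
          ((120 * K * 2 ^ j : ℕ) : ℝ) ^ (1 / 4 : ℝ) := by
        refine Real.rpow_le_rpow (Nat.cast_nonneg _) ?_ (by norm_num)
        have : 40 * K * 2 ^ (j + 1) ≤ 120 * K * 2 ^ j := by
          rw [pow_succ]; nlinarith [Nat.zero_le (K * 2 ^ j)]
        exact_mod_cast this
      have hw0 : 0 ≤ ((40 * K * 2 ^ (j + 1) : ℕ) : ℝ) ^ (1 / 4 : ℝ) :=
        Real.rpow_nonneg (Nat.cast_nonneg _) _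
      have q1 : 0 ≤ Q (Sep 0 (120 * K * ((2 ^ j : ℕ) : ℤ)) 1) := Pr_nonneg _ _
      have q3 : 0 ≤ Q (Sep 0 (120 * K * ((2 ^ j : ℕ) : ℤ)) 3) := Pr_nonneg _ _
      have u0 : 0 ≤ UR (40 * K * ((2 ^ j : ℕ) : ℤ)) := UR_nonneg _
      generalize ((40 * K * 2 ^ (j + 1) : ℕ) : ℝ) ^ (1 / 4 : ℝ) = w at *
      generalize ((40 * K * 2 ^ j : ℕ) : ℝ) ^ (1 / 4 : ℝ) = w0 at *
      generalize ((120 * K * 2 ^ j : ℕ) : ℝ) ^ (1 / 4 : ℝ) = W at *
      generalize Q (Sep 0 (120 * K * ((2 ^ j : ℕ) : ℤ)) 1) = a1 at *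
      generalize Q (Sep 0 (120 * K * ((2 ^ j : ℕ) : ℤ)) 3) = a3 at *
      generalize UR (40 * K * ((2 ^ j : ℕ) : ℤ)) = u at *
      generalize UR (80 * K * ((2 ^ j : ℕ) : ℤ)) = v at *
      have s1 : w * a1 ≤ C0 := le_trans (mul_le_mul_of_nonneg_right hw2 q1) h2
      have s3 : w * a3 ≤ C0 := le_trans (mul_le_mul_of_nonneg_right hw2 q3) h3
      have s4 : w * u ≤ 3 / 2 * w0 * u := mul_le_mul_of_nonneg_right hw1 u0
      have s5 : w * v ≤ w * (C * (a1 + a3) + 1 / 2 * u) := mul_le_mul_of_nonneg_left h1 hw0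
      have s6 : C * (w * a1 + w * a3) ≤ C * (C0 + C0) :=
        mul_le_mul_of_nonneg_left (add_le_add s1 s3) hC
      nlinarith
  refine ⟨3 / 2 * B, fun n hn => ?_⟩
  have hB0 : 0 ≤ B :=
    le_trans (mul_nonneg (Real.rpow_nonneg (Nat.cast_nonneg _) _) (by norm_num)) hB1
  by_cases hs : n < 40 * K
  · have h1 : (n : ℝ) ^ (1 / 4 : ℝ) ≤ ((40 * K : ℕ) : ℝ) ^ (1 / 4 : ℝ) :=
      Real.rpow_le_rpow (Nat.cast_nonneg _) (by exact_mod_cast hs.le) (by norm_num)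
    have h2 : (n : ℝ) ^ (1 / 4 : ℝ) * UR n ≤ ((40 * K : ℕ) : ℝ) ^ (1 / 4 : ℝ) * 4 :=
      mul_le_mul h1 (UR_le _) (UR_nonneg _) (Real.rpow_nonneg (Nat.cast_nonneg _) _)
    linarith
  · have hp : 0 < 40 * K := by omega
    have hq : 1 ≤ n / (40 * K) := (Nat.one_le_div_iff hp).2 (not_lt.1 hs)
    obtain ⟨j, hj1, hj2⟩ := exists_nat_pow_near hq (show 1 < 2 by norm_num)
    have hl : 40 * K * 2 ^ j ≤ n := by
      rw [mul_comm]; exact (Nat.le_div_iff_mul_le hp).1 hj1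
    have hu : n ≤ 2 * (40 * K * 2 ^ j) := by
      have := (Nat.div_lt_iff_lt_mul hp).1 hj2
      rw [pow_succ] at this
      nlinarith
    have h1 : UR n ≤ UR ((40 * K * 2 ^ j : ℕ) : ℤ) := UR_anti (by exact_mod_cast hl)
    have h2 : (n : ℝ) ^ (1 / 4 : ℝ) ≤ 3 / 2 * ((40 * K * 2 ^ j : ℕ) : ℝ) ^ (1 / 4 : ℝ) := by
      refine le_trans ?_ (UUPx.two_w _ (Nat.cast_nonneg _))
      exact Real.rpow_le_rpow (Nat.cast_nonneg _) (by exact_mod_cast hu) (by norm_num)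
    have h3 := key j
    have h4 : (n : ℝ) ^ (1 / 4 : ℝ) * UR n ≤
        3 / 2 * ((40 * K * 2 ^ j : ℕ) : ℝ) ^ (1 / 4 : ℝ) * UR ((40 * K * 2 ^ j : ℕ) : ℤ) :=
      mul_le_mul h2 h1 (UR_nonneg _)
        (mul_nonneg (by norm_num) (Real.rpow_nonneg (Nat.cast_nonneg _) _))
    linarith

end Pool.Agent.P.MP_6c8efb_pr.Two

end UUPS

section FINLOS

/-! Step FINLO. -/

namespace Pool.Agent.P.MP_6c8efb_pr.Two

open Function MeasureTheory

namespace FINLOx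

open Finset

theorem one (hEXIT : S_EXIT) {n : ℕ} (hn : 1 ≤ n) : 1 ≤ meanExit n := by
  have h0 : nm 0 ((0, 0) : V) < n := by
    rw [nm_zero]
    simp only [abs_zero, max_self]
    omega
  have e : Vis n ((0, 0), 0) = Set.univ := Set.eq_univ_of_forall fun ω =>
    ⟨0, rfl, fun j hj => by rw [Nat.le_zero.1 hj]; exact h0⟩
  have := single_le_sum (f := fun c => Q (Vis n c)) (fun _ _ => Pr_nonneg _ _)
    (mem_Bx.2 h0 : (((0, 0), 0) : D) ∈ Bx n)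
  rwa [← (hEXIT n).2, e, Q, Pr_univ] at this

theorem big (hEXIT : S_EXIT) (hEXTD : S_EXTD) (hPATHD : S_PATHD) {c : ℝ}
    (h : ∀ (z : V) (r : ℤ) (d : Fin 4), 1 ≤ r → r < z.2 → z.2 ≤ 2 * r →
      c * Q (Sep 0 r d) ≤ Q (EV z r d)) {n r : ℕ} (hr : 1 ≤ r) (hn : 4 * r < n) :
    (r : ℝ) ^ 2 * (c * (Q (Sep 0 r 1) + Q (Sep 0 r 3))) ≤ meanExit n := by
  have sub : (Ico (0 : ℤ) r ×ˢ Ioc (r : ℤ) (2 * r)) ×ˢ ({1, 3} : Finset (Fin 4)) ⊆ Bx n := by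
    intro x hx
    simp only [mem_product, mem_Ico, mem_Ioc] at hx
    rw [mem_Bx, nm_zero, max_lt_iff, abs_lt, abs_lt]
    omega
  rw [(hEXIT n).2]
  refine le_trans ?_ (sum_le_sum_of_subset_of_nonneg sub fun _ _ _ => Pr_nonneg _ _)
  refine le_trans (le_of_eq ?_) (sum_le_sum (f := fun x => c * Q (Sep 0 r x.2)) fun x hx => ?_)
  · rw [sum_product]
    simp only [sum_pair (show (1 : Fin 4) ≠ 3 by decide), sum_const, card_product, Int.card_Ico,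
      Int.card_Ioc, nsmul_eq_mul]
    rw [show ((r : ℤ) - 0).toNat = r by omega, show (2 * (r : ℤ) - r).toNat = r by omega]
    push_cast
    ring
  · simp only [mem_product, mem_Ico, mem_Ioc] at hx
    refine (h x.1 r x.2 (by omega) hx.1.2.1 hx.1.2.2).trans (Pr_mono fun ω hω => ?_)
    obtain ⟨a, b⟩ := hEXTD ω x.1 r x.2 (by omega) hx.1.1.2 hx.1.2.1 hx.1.2.2 hω
    exact hPATHD ω (4 * r) n x (by omega) (by omega) (by omega) a b

end FINLOx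

theorem p_FINLO (hEXIT : S_EXIT) (hEXT2 : S_EXT2) (hEXTD : S_EXTD) (hPATHD : S_PATHD) (hSEPLO : S_SEPLO) :
    S_FINLO := by
  obtain ⟨N, c, hN, c0, hc⟩ := hSEPLO
  obtain ⟨c', c0', hc'⟩ := hEXT2
  have K0 : (0 : ℝ) < ((10 * N : ℕ) : ℝ) := by positivity
  have K1 : (0 : ℝ) < ((10 * N : ℕ) : ℝ) ^ (7 / 4 : ℝ) := by positivity
  have m0 : 0 < min 1 (c' * c) := by positivity
  refine ⟨min 1 (c' * c) / ((10 * N : ℕ) : ℝ) ^ (7 / 4 : ℝ), by positivity, fun n hn => ?_⟩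
  rw [div_mul_eq_mul_div, div_le_iff₀ K1]
  by_cases h : n < 5 * N
  · exact mul_le_mul ((min_le_left _ _).trans (FINLOx.one hEXIT hn))
      (Real.rpow_le_rpow (by positivity) (Nat.cast_le.2 (by omega)) (by norm_num))
      (by positivity) (zero_le_one.trans (FINLOx.one hEXIT hn))
  obtain ⟨m, hm, h1, h2⟩ : ∃ m : ℕ, 1 ≤ m ∧ 5 * N * m ≤ n ∧ n < 5 * N * (m + 1) :=
    ⟨n / (5 * N), Nat.div_pos (by omega) (by omega), Nat.mul_div_le _ _,
      Nat.lt_mul_div_succ _ (by omega)⟩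
  have r1 : m ≤ N * m := Nat.le_mul_of_pos_left _ hN
  have a1 := FINLOx.big hEXIT hEXTD hPATHD hc' (n := n) (r := N * m) (by omega) (by nlinarith)
  have a2 := hc m hm
  rw [Nat.cast_mul (α := ℤ)] at a1
  have q0 : 0 ≤ Q (Sep 0 (N * m) 1) + Q (Sep 0 (N * m) 3) :=
    add_nonneg (Pr_nonneg _ _) (Pr_nonneg _ _)
  generalize Q (Sep 0 (N * m) 1) + Q (Sep 0 (N * m) 3) = q at a1 a2 q0
  have mp : (0 : ℝ) < m := by positivity
  have a3 : (n : ℝ) ^ (7 / 4 : ℝ) ≤ (m : ℝ) ^ (7 / 4 : ℝ) * ((10 * N : ℕ) : ℝ) ^ (7 / 4 : ℝ) := by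
    rw [← Real.mul_rpow mp.le K0.le, ← Nat.cast_mul]
    exact Real.rpow_le_rpow (by positivity) (Nat.cast_le.2 (by nlinarith)) (by norm_num)
  have a4 : (m : ℝ) ^ (1 / 4 : ℝ) * (m : ℝ) ^ (7 / 4 : ℝ) = (m : ℝ) ^ 2 := by
    rw [← Real.rpow_add mp, ← Real.rpow_natCast]
    norm_num
  have a5 : (m : ℝ) ^ 2 ≤ ((N * m : ℕ) : ℝ) ^ 2 := by exact_mod_cast Nat.pow_le_pow_left r1 2
  calc min 1 (c' * c) * (n : ℝ) ^ (7 / 4 : ℝ)
      ≤ c' * ((m : ℝ) ^ (1 / 4 : ℝ) * q) *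
        ((m : ℝ) ^ (7 / 4 : ℝ) * ((10 * N : ℕ) : ℝ) ^ (7 / 4 : ℝ)) :=
        mul_le_mul ((min_le_right _ _).trans (mul_le_mul_of_nonneg_left a2 c0'.le)) a3
          (by positivity) (by positivity)
    _ = (m : ℝ) ^ 2 * (c' * q) * ((10 * N : ℕ) : ℝ) ^ (7 / 4 : ℝ) := by rw [← a4]; ring
    _ ≤ _ := mul_le_mul_of_nonneg_right
        ((mul_le_mul_of_nonneg_right a5 (by positivity)).trans a1) K1.le

end Pool.Agent.P.MP_6c8efb_pr.Two

end FINLOS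

section RECS

/-! Step REC. -/

namespace Pool.Agent.P.MP_6c8efb_pr.Two

open Function MeasureTheory

namespace RECx

theorem iter {q c : ℝ} (h0 : 0 ≤ q) (h1 : q ≤ 1) (hc : 0 ≤ c) (a : ℕ → ℝ) (K : ℕ)
    (h : ∀ j < K, a (j + 1) ≤ c + q * a j) : ∀ j ≤ K, a j ≤ j * c + q ^ j * a 0 := by
  intro j
  induction j with
  | zero => simp
  | succ j ih =>
    intro hj
    have h2 := mul_le_mul_of_nonneg_left (ih (by omega)) h0
    have h3 := h j hj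
    have h4 : q * (j * c) ≤ j * c := mul_le_of_le_one_left (by positivity) h1
    push_cast
    rw [pow_succ]
    nlinarith

end RECx

theorem p_REC (hLEVEL : S_LEVEL) (hROTA : S_ROTA) (hROTB : S_ROTB) :
    S_REC := by
  intro ε hε
  obtain ⟨q, h0, h1, hL⟩ := hLEVEL
  obtain ⟨K0, hK0⟩ := exists_pow_lt_of_lt_one (show 0 < ε / 32 by positivity) h1
  obtain ⟨K, hK1, hK⟩ : ∃ K : ℕ, 1 ≤ K ∧ q ^ K ≤ ε / 32 :=
    ⟨K0 + 1, by omega, (pow_le_pow_of_le_one h0 h1.le (by omega)).trans hK0.le⟩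
  obtain ⟨C, hC, hL⟩ := hL (120 * K)
  refine ⟨K, 16 * (K * C), hK1, by positivity, fun m hm => ?_⟩
  have hm' : (1 : ℤ) ≤ m := by exact_mod_cast hm
  have hK' : (1 : ℤ) ≤ K := by exact_mod_cast hK1
  have hKm : (m : ℤ) ≤ K * m := le_mul_of_one_le_left (by omega) hK'
  have key : ∀ d : Fin 4, Q (AA d (80 * K * m) (80 * K * m)) ≤
      K * C * Q (Sep 0 (120 * K * m) d) + ε / 32 * UR (40 * K * m) := fun d => by
    have hS : 0 ≤ Q (Sep 0 (120 * K * m) d) := Pr_nonneg _ _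
    have h2 := RECx.iter h0 h1.le (mul_nonneg hC hS)
      (fun j => Q (AA d (80 * K * m) (40 * K * m + 40 * j * m))) K (fun j hj => by
        have hj' : (j : ℤ) * m ≤ K * m :=
          mul_le_mul_of_nonneg_right (by exact_mod_cast hj.le) (by omega)
        have hj0 : (0 : ℤ) ≤ j * m := by positivity
        have := hL d m (40 * K * m + 40 * j * m) (80 * K * m) (120 * K * m) hm' (by nlinarith)
          (by nlinarith) (by push_cast; exact le_rfl) (by nlinarith)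
        rwa [show (40 * K * m + 40 * j * m + 40 * m : ℤ) = 40 * K * m + 40 * ((j + 1 : ℕ) : ℤ) * m
          by push_cast; ring] at this) K le_rfl
    simp only [Nat.cast_zero, mul_zero, zero_mul, add_zero] at h2
    rw [show (40 * K * m + 40 * K * m : ℤ) = 80 * K * m by ring] at h2
    have h3 : Q (AA d (80 * K * m) (40 * K * m)) ≤ UR (40 * K * m) :=
      (Pr_mono (AA_sub d _ _)).trans (le_UR d _)
    have h4 := mul_le_mul hK h3 (Pr_nonneg _ _) (by positivity)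
    linarith
  have hn : (1 : ℤ) ≤ 80 * K * m := by nlinarith
  have h5 : ∀ d : Fin 4, Q (Reach d (80 * K * m)) ≤
      4 * (Q (AA 1 (80 * K * m) (80 * K * m)) + Q (AA 3 (80 * K * m) (80 * K * m))) := fun d =>
    (hROTA d _ hn).trans ((Finset.sum_le_sum fun d' _ => hROTB d' _ _ hn le_rfl).trans
      (by simp [mul_add]))
  have h6 : UR (80 * K * m) ≤
      4 * (4 * (Q (AA 1 (80 * K * m) (80 * K * m)) + Q (AA 3 (80 * K * m) (80 * K * m)))) :=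
    (Finset.sum_le_sum fun d _ => h5 d).trans (by simp)
  have h7 := key 1
  have h8 := key 3
  linarith

end Pool.Agent.P.MP_6c8efb_pr.Two

end RECS

section LEVELS

/-! Step LEVEL. -/

namespace Pool.Agent.P.MP_6c8efb_pr.Two

open Function MeasureTheory

theorem p_LEVEL (hPAST : S_PAST) (hFUT : S_FUT) (hSTOP : S_STOP) (hKA : S_KA) (hKB : S_KB) (hGOODP : S_GOODP) (hGOODD : S_GOODD) (hRSWP : S_RSWP) (hARMX : S_ARMX) :
    S_LEVEL := by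
  classical
  obtain ⟨q, q0, q1, hq⟩ := hARMX
  refine ⟨q, q0, q1, fun N => ?_⟩
  obtain ⟨c, c0, hc⟩ := hRSWP N
  refine ⟨1 / c, by positivity, fun d m l R r hm hl hR hr hl' => ?_⟩
  have l1 : 1 ≤ l := by omega
  let G : Set D → V → Prop := fun P a => (¬ BadP P a m ∧ ¬ BadD P a m) ∧ -R ≤ a.1 ∧ a.1 ≤ R
  let F : Set D → V → Set Cfg := fun P a =>
    if BadP P a m then {ω | shut (XX P) ω ∈ Arm1 a (13 * m) (39 * m)}
    else {ω | shut (XD P) (du ω) ∈ Arm1 (a.1, l - 1) (13 * m) (39 * m)}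
  have hF : ∀ P a, Loc (F P a) ∧ Dep (F P a) (XX P)ᶜ ∧ Q (F P a) ≤ q := fun P a => by
    simp only [F]
    split_ifs
    · exact (hq P a m hm).1
    · exact (hq P _ m hm).2
  have h1 := (hSTOP d R l G (fun P a => FP P a m r ∩ FD P a m r) c fun P a g =>
    have := hc P a m R r hm g.2.1 g.2.2 hR hr
    ⟨this.1, this.2.1⟩).2 fun P a g => (hc P a m R r hm g.2.1 g.2.2 hR hr).2.2
  have h2 := (hSTOP d R l (fun _ _ => True) F q fun P a _ => ⟨(hF P a).1, (hF P a).2.1⟩).1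
    fun P a _ => (hF P a).2.2
  have h3 : Q {ω | ∃ P a, IsPast ω d R l P a ∧ G P a ∧ ω ∈ FP P a m r ∩ FD P a m r} ≤
      Q (Sep 0 r d) := Pr_mono fun ω ⟨P, a, a1, a2, a3⟩ =>
    have hp := hPAST ω d R l P a l1 a1
    ⟨hGOODP ω d R l P a m r hp hm hl hR hl' a2.1.1 a3.1,
      hGOODD ω d R l P a m r hp hm hl hR hl' a2.1.2 a3.2⟩
  have h4 : Q {ω | ∃ P a, IsPast ω d R l P a ∧ True} ≤ Q (AA d R l) :=
    Pr_mono fun ω ⟨_, _, ⟨k, a1, _⟩, _⟩ => ⟨k, a1⟩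
  have h5 : AA d R (l + 40 * m) ⊆ {ω | ∃ P a, IsPast ω d R l P a ∧ G P a} ∪
      {ω | ∃ P a, IsPast ω d R l P a ∧ True ∧ ω ∈ F P a} := fun ω hω => by
    obtain ⟨P, a, a1, ⟨y, y1, y2⟩, f, f1, f2⟩ := hFUT ω d R l _ l1 (by omega) hω
    have hp := hPAST ω d R l P a l1 a1
    by_cases b1 : BadP P a m
    · refine .inr ⟨P, a, a1, trivial, ?_⟩
      simp only [F, if_pos b1]
      exact by_contra fun h => hKA ω d R l P a m hp hm b1 h y (by omega) y2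
    by_cases b2 : BadD P a m
    · refine .inr ⟨P, a, a1, trivial, ?_⟩
      simp only [F, if_neg b1]
      exact by_contra fun h => hKB ω d R l P a m hp hm b2 h f (by omega) f2
    · exact .inl ⟨P, a, a1, ⟨b1, b2⟩, hp.tip.2⟩
  refine ((Pr_mono h5).trans (Pr_union_le _ _ _)).trans (add_le_add ?_
    (h2.trans (mul_le_mul_of_nonneg_left h4 q0)))
  rw [one_div, ← div_eq_inv_mul, le_div_iff₀' c0]
  exact h1.trans h3

end Pool.Agent.P.MP_6c8efb_pr.Two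

end LEVELS

section EXT2S

/-! Step EXT2. -/

namespace Pool.Agent.P.MP_6c8efb_pr.Two

open Function MeasureTheory

namespace EXT2x

theorem disj_Rc {a b c d a' b' c' d' : ℤ} (h : b < a') : Disjoint (Rc a b c d) (Rc a' b' c' d') :=
  Set.disjoint_left.2 fun w h1 h2 => by
    rw [mem_Rc] at h1 h2
    omega

theorem dep_VC (a b c d : ℤ) : Dep (VC a b c d) (In (Rc a b c d)) := dep_conn _ _

end EXT2x

open EXT2x in
theorem p_EXT2 (hH2 : S_H2) (hTRS : S_TRS) :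
    S_EXT2 := by
  obtain ⟨c, hc0, hc⟩ := rsw' 3
  refine ⟨c * c, mul_pos hc0 hc0, fun z r d hr h1 h2 => ?_⟩
  have key := hH2 (SP z r) (SD z r d) (VC (z.1 - 3 * r) (z.1 - r) 0 (z.2 + r))
    {ω | du ω ∈ VC (z.1 + r) (z.1 + 3 * r) 0 (z.2 + r)} _ _ _ _ (loc_SP z hr) (loc_SD z d hr)
    (loc_VC ..) (loc_du (loc_VC ..)) (up_SP z r) (lower_SD z r d) (up_VC ..) (lower_du (up_VC ..))
    (dep_SP z r hr) (dep_SD z r d hr) (dep_VC ..) (dep_du (dep_VC ..))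
    (disj_dl (disj_Rc (by omega))) (disj_dl (disj_Rc (by omega)))
    (disj_dl (disj_Rc (by omega))).symm
  rw [Q_du (loc_VC ..), Q_VC, Q_VC] at key
  have e1 := hc r (z.2 + r - 0) (z.1 - r - (z.1 - 3 * r)) hr (by omega) (by push_cast; omega)
    (by omega)
  have e2 := hc r (z.2 + r - 0) (z.1 + 3 * r - (z.1 + r)) hr (by omega) (by push_cast; omega)
    (by omega)
  rw [← (hTRS z d r).2 hr]
  have h0 : 0 ≤ Q (Sep z r d) := Pr_nonneg _ _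
  refine le_trans ?_ key
  calc c * c * Q (Sep z r d) = Q (Sep z r d) * c * c := by ring
    _ ≤ _ := mul_le_mul (mul_le_mul_of_nonneg_left e1 h0) e2 hc0.le
      (mul_nonneg h0 (hc0.le.trans e1))

end Pool.Agent.P.MP_6c8efb_pr.Two

end EXT2S
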