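import Pool.Agent.P.MP_6c8efb_pr.Two.IfaceB

section UATTS

/-! Step UATT. -/

namespace Pool.Agent.P.MP_6c8efb_pr.Two

open Function MeasureTheory

namespace UATTx

/-- points joined to `p` after opening `X` avoid `L` -/
theorem avoid {σ : Cfg} {X : Set E} {L U : Set V} {p v : V} (hp : p ∉ L) (hB : ¬ Bad X (U \ L) p)
    (hn : ¬ ∃ z ∈ L, Conn σ U p z) (h : Conn (opn X σ) U p v) : v ∉ L := by
  refine (h.ind (p := fun v => v ∉ L ∧ Conn (shut X σ) (U \ L) p v) ⟨hp, Conn.rfl'⟩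
    fun a d _ ha hb ho ih => ?_).1
  have hX : edge a d ∉ X := fun hX => hB ⟨a, d, ih.2.mono subset_rfl fun e _ he =>
    shut_true.2 ⟨(shut_true.1 he).1, rfl⟩, hX⟩
  have hσ : σ (edge a d) = true := (opn_true.1 ho).resolve_left hX
  have hL : a + u d ∉ L := fun hL => hn ⟨_, hL,
    ((ih.2.up (shut_le X σ)).mono_set Set.sdiff_subset).snoc ha hb hσ⟩
  exact ⟨hL, ih.2.snoc ⟨ha, ih.1⟩ ⟨hb, hL⟩ (shut_true.2 ⟨hX, hσ⟩)⟩

/-- a vertical crossing of a side rectangle meets the crossing of the south rectangle -/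
theorem south {ω : Cfg} {x0 x1 y0 y1 a b h : ℤ} (hy : y0 < y1) (ha : x0 ≤ a) (hb : b ≤ x1)
    (hh : y1 ≤ h) {x y q q' : V} (hx : x ∈ Rc a b y0 h) (hx0 : x.2 = y0) (hy1 : y.2 = h)
    (hc : Conn ω (Rc a b y0 h) x y) (hq : q ∈ Rc x0 x1 y0 y1) (hq0 : q.1 = x0) (hq1 : q'.1 = x1)
    (hc' : Conn ω (Rc x0 x1 y0 y1) q q') : Conn ω (Rc x0 x1 y0 y1) x q := by
  obtain ⟨y', e, h1⟩ := hc.hit (f := fun z => z.2)
    (fun a d => by have := abs_le.1 (lip_snd a d); omega) (b := y1) (by omega) (by omega)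
  refine cross' hy (h1.mono_set fun z hz => ?_) ?_ hx0 e hc' hq hq0 hq1
  · have h2 : z.2 ≤ y1 := hz.2
    have h3 := mem_Rc.1 hz.1
    exact mem_Rc.2 (by omega)
  · have h3 := mem_Rc.1 hx
    exact mem_Rc.2 (by omega)

end UATTx

open UATTx in
theorem p_UATT :
    S_UATT := by
  intro σ X L c o p x y r s h1 h2 hr hrs hh1 hh2 hL hc hco hso hU hp hB hx0 hxy hpx
  by_contra hn
  obtain ⟨⟨⟨xw, yw, ⟨w1, w2, w3⟩, w4⟩, ⟨q, q', ⟨q1, q2, q3⟩, q4⟩⟩, xe, ye, ⟨e1, e2, e3⟩, e4⟩ := hU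
  have sW : Rc (c.1 - s) (c.1 - r) (c.2 - s) h1 ⊆ Ush c r s h1 h2 :=
    fun _ h => Or.inl (Or.inl h)
  have sS : Rc (c.1 - s) (c.1 + s) (c.2 - s) (c.2 - r) ⊆ Ush c r s h1 h2 :=
    fun _ h => Or.inl (Or.inr h)
  have sE : Rc (c.1 + r) (c.1 + s) (c.2 - s) h2 ⊆ Ush c r s h1 h2 := fun _ h => Or.inr h
  have hy : c.2 - s < c.2 - r := by omega
  have pq : Conn (opn X σ) (Ush c r s h1 h2) p q := by
    refine hpx.trans' (Conn.mono_set ?_ sS)
    rcases hxy with ⟨a1, a2, a3⟩ | ⟨a1, a2, a3⟩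
    · exact south hy le_rfl (by omega) (by omega) a1 hx0 a2 a3 q1 q2 q3 q4
    · exact south hy (by omega) le_rfl (by omega) a1 hx0 a2 a3 q1 q2 q3 q4
  have pw : Conn (opn X σ) (Ush c r s h1 h2) p xw := pq.trans'
    ((south hy le_rfl (by omega) (by omega) w1 w2 w3 w4 q1 q2 q3 q4).mono_set sS).symm'
  have pe : Conn (opn X σ) (Ush c r s h1 h2) p xe := pq.trans'
    ((south hy (by omega) le_rfl (by omega) e1 e2 e3 e4 q1 q2 q3 q4).mono_set sS).symm'
  have n0 : nm c c = 0 := by simp [nm]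
  obtain ⟨t, t1, t2⟩ := hco.hit (f := nm c) (nm_lip c) (b := s) (by omega) hso
  have cT : c ∈ L ∩ {z | nm c z ≤ s} := ⟨hc, show nm c c ≤ s by omega⟩
  have tT := t2.mem cT
  have bd : ∀ z ∈ L ∩ {z | nm c z ≤ s},
      c.1 - s ≤ z.1 ∧ z.1 ≤ c.1 + s ∧ c.2 - s ≤ z.2 ∧ z.2 ≤ c.2 := fun z hz => by
    have b1 := hL z hz.1
    have b2 : nm c z ≤ s := hz.2
    simp only [nm, abs_eq_max_neg] at b2
    omega
  have tb := bd t tT
  have tc : t.1 = c.1 - s ∨ t.1 = c.1 + s ∨ t.2 = c.2 - s := by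
    simp only [nm, abs_eq_max_neg] at t1
    omega
  rcases tc with tc | tc | tc
  · obtain ⟨a, b, a1, b1, a2, a3⟩ := t2.symm'.strip (f := fun z => z.1) lip_fst
      (a := c.1 - s) (b := c.1 - r) (by omega) (by omega) (by omega)
    obtain ⟨z, z1, z2⟩ := cross0 (by omega) (fun z hz => hz.1) (fun z hz => by
      have := bd z hz.1
      have b2 : c.1 - s ≤ z.1 ∧ z.1 ≤ c.1 - r := hz.2
      exact mem_Rc.2 (by omega)) w4.cl ⟨w1, Conn.rfl'⟩ w2 w3 a3
      ⟨a2.mem tT, show c.1 - s ≤ a.1 ∧ a.1 ≤ c.1 - r by omega⟩ a1 b1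
    exact avoid hp hB hn (pw.trans' (z1.2.mono_set sW)) z2.1.1
  · obtain ⟨a, b, a1, b1, a2, a3⟩ := t2.strip (f := fun z => z.1) lip_fst
      (a := c.1 + r) (b := c.1 + s) (by omega) (by omega) (by omega)
    obtain ⟨z, z1, z2⟩ := cross0 (by omega) (fun z hz => hz.1) (fun z hz => by
      have := bd z hz.1
      have b2 : c.1 + r ≤ z.1 ∧ z.1 ≤ c.1 + s := hz.2
      exact mem_Rc.2 (by omega)) e4.cl ⟨e1, Conn.rfl'⟩ e2 e3 a3
      ⟨a2.mem cT, show c.1 + r ≤ a.1 ∧ a.1 ≤ c.1 + s by omega⟩ a1 b1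
    exact avoid hp hB hn (pe.trans' (z1.2.mono_set sE)) z2.1.1
  · obtain ⟨a, b, a1, b1, a2, a3⟩ := t2.symm'.strip (f := fun z => z.2) lip_snd
      (a := c.2 - s) (b := c.2 - r) (by omega) (by omega) (by omega)
    obtain ⟨z, z1, z2⟩ := cross0 hy (fun z hz => by
      have := bd z hz.1
      have b2 : c.2 - s ≤ z.2 ∧ z.2 ≤ c.2 - r := hz.2
      exact mem_Rc.2 (by omega)) (fun z hz => hz.1) a3
      ⟨a2.mem tT, show c.2 - s ≤ a.2 ∧ a.2 ≤ c.2 - r by omega⟩ a1 b1 q4.cl ⟨q1, Conn.rfl'⟩ q2 q3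
    exact avoid hp hB hn (pq.trans' (z2.2.mono_set sS)) z1.1.1

end Pool.Agent.P.MP_6c8efb_pr.Two

end UATTS

section GOODDS

/-! Step GOODD. -/

namespace Pool.Agent.P.MP_6c8efb_pr.Two

open Function MeasureTheory

namespace GOODDx

theorem mem_RR {ω : Cfg} {d : Fin 4} {R l : ℤ} {P : Set D} {a : V} (hP : Past ω d R l P a)
    {z : V} (hz : z ∈ RR P) : -R - 1 ≤ z.1 ∧ z.1 ≤ R ∧ -R - 1 ≤ z.2 ∧ z.2 ≤ l - 1 := by
  obtain ⟨c, hc, rfl⟩ := hz
  have h1 := hP.ins c hc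
  have h2 := fd_bd c
  simp only [Ins, mem_Rc] at h1
  omega

theorem conn_RR {ω : Cfg} {d : Fin 4} {R l : ℤ} {P : Set D} {a : V} (hP : Past ω d R l P a)
    {z : V} (hz : z ∈ RR P) : Conn (du ω) (RR P) (a.1, l - 1) z := by
  obtain ⟨c, hc, rfl⟩ := hz
  exact (hP.connD c hc).up (shut_le _ _)

theorem dl_high {g : E} {k : ℤ} (h : k ≤ (hd g).2) : dl g ∈ In {z : V | k ≤ z.2} := by
  obtain ⟨x, b⟩ := g
  cases b <;> simp [In, dl] at h ⊢ <;> omega

end GOODDx

open GOODDx in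
theorem p_GOODD (hUATT : S_UATT) :
    S_GOODD := by
  intro ω d R l P a m r hP hm hl hR hr hB hF
  obtain ⟨t1, t2, t3⟩ := hP.tip
  subst t1
  obtain ⟨hU, q, q', ⟨hq1, hq2, hq3⟩, hq⟩ := hF
  obtain ⟨x, y, ⟨hx1, hx2, hx3⟩, hx⟩ := hU.2
  simp only at hx1 hx2 hx3 hx
  obtain ⟨x', y', e1, e2, c1, c2⟩ := hx.strip (f := fun z => z.2) lip_snd
    (a := a.2 + m) (b := a.2 + 3 * m) (by omega) (by omega) (by omega)
  obtain ⟨t, t', f1, f2, d1, d2⟩ := hq.strip (f := fun z => z.1) lip_fst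
    (a := a.1 + 4 * m) (b := a.1 + 12 * m) (by omega) (by omega) (by omega)
  obtain ⟨p, ⟨p1, p2⟩, p3, p4⟩ := cross0 (x0 := a.1 + 4 * m) (x1 := a.1 + 12 * m) (y0 := a.2 + m)
    (y1 := a.2 + 3 * m) (by omega)
    (fun z hz => by
      have h1 := hz.1.1
      have h2 := hz.1.2
      simp only [mem_Rc, Set.mem_ofPred_eq] at h1 h2 ⊢
      omega)
    (fun z hz => by
      have h1 := hz.1.1
      have h2 := hz.1.2
      simp only [mem_Rc, Set.mem_ofPred_eq] at h1 h2 ⊢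
      omega)
    c2.cl ⟨⟨c1.mem hx1, by simp only [Set.mem_ofPred_eq]; omega⟩, Conn.rfl'⟩ e1 e2
    d2.cl ⟨⟨d1.mem hq1, by simp only [Set.mem_ofPred_eq]; omega⟩, Conn.rfl'⟩ f1 f2
  have pa := p1.1
  have pb := p1.2
  simp only [mem_Rc, Set.mem_ofPred_eq] at pa pb
  have hxp := c1.trans' (p2.mono_set Set.inter_subset_left)
  have hqp := d1.trans' (p4.mono_set Set.inter_subset_left)
  have h0 : fd (0, d) ∈ RR P := ⟨_, hP.start, rfl⟩
  have hb := fd_bd ((0 : V), d)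
  simp only [Prod.fst_zero, Prod.snd_zero] at hb
  obtain ⟨z, z1, z2⟩ := hUATT (du ω) (XD P) (RR P) (a.1, a.2 - 1) (fd (0, d)) p x y (4 * m) (12 * m)
    (a.2 - 1) (a.2 + 3 * m) (by omega) (by omega) le_rfl (by simp only; omega)
    (fun z hz => (mem_RR hP hz).2.2.2) ⟨_, hP.last, rfl⟩
    ((conn_RR hP h0).up fun _ => le_top)
    (by
      simp only [nm, abs_eq_max_neg]
      omega)
    hU (fun hz => by have := mem_RR hP hz; omega)
    (fun h => hB ⟨p, by simp only [mem_Rc]; omega, h⟩) hx2 (Or.inr ⟨hx1, hx3, hx⟩)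
    (hxp.symm'.mono_set fun z hz => Or.inr hz)
  have row : ∀ {v v' : V}, Conn (opn (XD P) (du ω))
      (Rc (a.1 + 4 * m) (3 * r) (a.2 + m) (a.2 + 3 * m)) v v' →
      Conn (du ω) (Rc (a.1 + 4 * m) (3 * r) (a.2 + m) (a.2 + 3 * m)) v v' := fun hv => by
    refine hv.mono subset_rfl fun e he h => ?_
    rcases opn_true.1 h with ⟨c, hc, h3⟩ | h
    · have h4 := dl_high he.2.2.2.1
      rw [← h3] at h4
      have h1 := (edge_mem_In.1 h4).1
      have h2 := hP.ins c hc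
      simp only [Ins, mem_Rc, Set.mem_ofPred_eq] at h1 h2
      omega
    · exact h
  obtain ⟨w, w', w1, w2, w3, w4⟩ := (row hq).strip (f := fun z => z.1) lip_fst
    (a := r) (b := 3 * r) (by omega) (by omega) (by omega)
  have w5 := w3.mem hq1
  simp only [mem_Rc] at w5
  refine ⟨w, w', ?_, ?_, ?_, w4.mono_set fun v hv => ?_, ?_⟩
  · simp only [mem_Rc, Prod.fst_zero, Prod.snd_zero]; omega
  · simp only [Prod.fst_zero]; omega
  · simp only [Prod.fst_zero]; omega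
  · have h1 := hv.1
    have h2 := hv.2
    simp only [mem_Rc, Set.mem_ofPred_eq, Prod.fst_zero, Prod.snd_zero] at h1 h2 ⊢
    omega
  · refine Conn.trans' (Conn.trans' (((conn_RR hP h0).symm'.trans' (conn_RR hP z1)).mono_set
      fun v hv => ?_) (z2.symm'.mono_set fun v hv => ?_))
      (((row hqp).symm'.trans' w3).mono_set fun v hv => ?_)
    · have := mem_RR hP hv
      simp only [mem_Rc, Prod.fst_zero, Prod.snd_zero]
      omega
    · simp only [Ush, Set.mem_union, mem_Rc, Prod.fst_zero, Prod.snd_zero] at hv ⊢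
      omega
    · simp only [mem_Rc, Prod.fst_zero, Prod.snd_zero] at hv ⊢
      omega

end Pool.Agent.P.MP_6c8efb_pr.Two

end GOODDS

section EXTDS

/-! Step EXTD. -/

namespace Pool.Agent.P.MP_6c8efb_pr.Two

open Function MeasureTheory

namespace EXTDx

theorem bct {ω : Cfg} {e : E} (h0 : 0 ≤ e.1.2) (h1 : 1 ≤ e.1.2 ∨ e.1.1 < 0) (h : ω e = true) :
    bc ω e = true := by
  unfold bc
  rw [if_neg (by omega)]
  split_ifs with b
  · exact decide_eq_true (by omega)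
  · exact h

theorem bcf {ω : Cfg} {e : E} (h1 : 1 ≤ (hd e).2 ∨ 0 ≤ (hd e).1) (h : du ω e = true) :
    du (bc ω) e = true := by
  rw [du_true] at h ⊢
  unfold bc
  split_ifs with a b
  · rfl
  · have : (dl e).1 = hd e := rfl
    rw [this] at b ⊢
    exact decide_eq_false (by omega)
  · exact h

theorem east {ω : Cfg} {S : Set V} (a b j : ℤ) (hab : a ≤ b)
    (hS : ∀ i, a ≤ i → i ≤ b → (i, j) ∈ S) (hω : ∀ i, a ≤ i → i < b → ω ((i, j), true) = true) :
    Conn ω S (a, j) (b, j) := by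
  induction b, hab using Int.leInduction with
  | base => exact Conn.rfl'
  | succ k hk ih =>
    have e : ((k + 1, j) : V) = (k, j) + u 0 := by simp
    rw [e]
    exact (ih (fun i h1 h2 => hS i h1 (by omega)) fun i h1 h2 => hω i h1 (by omega)).snoc
      (hS k hk (by omega)) (e ▸ hS _ (by omega) le_rfl) (hω k hk (by omega))

end EXTDx

open EXTDx in
theorem p_EXTD :
    S_EXTD := by
  rintro ω z r d z1 z2 z3 z4 ⟨⟨⟨⟨x, y, a1, a2, a3, a4, a5⟩, x', y', b1, b2, b3, b4, b5⟩,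
    ⟨i, j⟩, p', ⟨c1, c2, c3⟩, c4⟩, ⟨i', j'⟩, q', ⟨d1, d2, d3⟩, d4⟩
  simp only at c2 d2
  subst c2 d2
  constructor
  · have k1 := cross' (by omega) c4 c1 rfl c3 (a4.mono_set fun w hw => by
      simp only [mem_Rc] at hw ⊢; omega) (by simp only [mem_Rc] at a1 ⊢; omega) a2 a3
    simp only [mem_Rc] at c1
    refine (east i 0 0 (by omega) (fun k h1 h2 => by simp only [mem_Rc]; omega)
      fun k h1 h2 => by simp [bc, h2]).symm'.trans' (Conn.trans' (k1.mono (fun w hw => by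
        simp only [mem_Rc] at hw ⊢; omega) fun e he h => ?_) (a5.mono (fun w hw => by
        simp only [mem_Rc] at hw ⊢; omega) fun e he h => ?_).symm')
    · have := he.1
      simp only [mem_Rc] at this
      exact bct (by omega) (by omega) h
    · have := he.1
      simp only [mem_Rc] at this
      exact bct (by omega) (by omega) h
  · have k1 := cross' (by omega) d4 d1 rfl d3 (b4.mono_set fun w hw => by
      simp only [mem_Rc] at hw ⊢; omega) (by simp only [mem_Rc] at b1 ⊢; omega) b2 b3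
    simp only [mem_Rc] at d1
    have e : ((i', 0) : V) = (i', -1) + u 1 := by simp
    have k2 : Conn (du (bc ω)) (Rc (-(4 * r)) (4 * r) (-(4 * r)) (4 * r)) (0, -1) (i', 0) := by
      rw [e]
      refine (east 0 i' (-1) (by omega) (fun k h1 h2 => by simp only [mem_Rc]; omega)
        fun k h1 h2 => by simp [du, dl, bc]).snoc (by simp only [mem_Rc]; omega)
        (by rw [← e]; simp only [mem_Rc]; omega) ?_
      simp [du, dl, bc]
      omega
    refine k2.trans' (Conn.trans' (k1.mono (fun w hw => by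
        simp only [mem_Rc] at hw ⊢; omega) fun e he h => ?_) (b5.mono (fun w hw => by
        simp only [mem_Rc] at hw ⊢; omega) fun e he h => ?_).symm')
    · have := he.2
      simp only [mem_Rc] at this
      exact bcf (by omega) h
    · have := he.2
      simp only [mem_Rc] at this
      exact bcf (by omega) h

end Pool.Agent.P.MP_6c8efb_pr.Two

end EXTDS

section PATHDS

/-! Step PATHD. -/

namespace Pool.Agent.P.MP_6c8efb_pr.Two

open Function MeasureTheory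

namespace PATHDx

theorem J_axis (ω : Cfg) (c : D) (hc : 1 ≤ c.1.2) (J : D → ℤ)
    (hJ : ∀ c', c' ≠ ((0, 0), 0) → c' ≠ c → J (step (bc ω) c') = J c') (k : ℕ) :
    J ((-(k : ℤ), 0), 0) = J ((0, 0), 0) := by
  induction k with
  | zero => simp
  | succ k ih =>
    have hne : ∀ (i : ℤ) (d : Fin 4), (((i, 0), d) : D) ≠ c := fun i d h => by
      rw [← h] at hc; simp at hc
    have e1 : step (bc ω) ((-(k : ℤ), 0), 3) = ((-(k : ℤ), 0), 0) := by
      rw [step_closed (by simp [ed, bc])]; rfl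
    have e2 : step (bc ω) ((-(k : ℤ) - 1, 0), 0) = ((-(k : ℤ), 0), 3) := by
      rw [step_open (by simp [ed, bc]; omega)]
      simp [rot, opp]
    have a1 := hJ ((-(k : ℤ), 0), 3) (by simp) (hne _ _)
    have a2 := hJ ((-(k : ℤ) - 1, 0), 0) (by simp; omega) (hne _ _)
    rw [e1] at a1
    rw [e2] at a2
    have : (-((k + 1 : ℕ) : ℤ)) = -(k : ℤ) - 1 := by push_cast; ring
    rw [this, ← a2, ← a1, ih]

end PATHDx

theorem p_PATHD (hDBL : S_DBL) :
    S_PATHD := by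
  intro ω R n c hR hn hc h1 h2
  have h0 : bc ω ((0, 0), true) = false := by simp [bc]
  have hc0 : c ≠ ((0, 0), 0) := fun h => by rw [h] at hc; simp at hc
  obtain ⟨J, hJ1, hJ2, hJ3⟩ := hDBL (bc ω) R c h0 hR hc0 h1 h2
  have z0 : J ((0, 0), 0) = 0 := by
    rw [← PATHDx.J_axis ω c hc J hJ2 (R + 1).toNat]
    apply hJ3
    rw [nm_zero]
    have : (((R + 1).toNat : ℕ) : ℤ) = R + 1 := Int.toNat_of_nonneg (by omega)
    simp only [this, abs_neg, abs_zero]
    rw [abs_of_nonneg (by omega)]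
    exact lt_max_of_lt_left (by omega)
  have p0 : path ω 0 = ((0, 0), 0) := rfl
  have p1 : path ω 1 = ((0, 0), 1) := by
    rw [path_succ, p0, step_closed (by simp [ed, bc])]; rfl
  have key : ∀ j : ℕ, (∀ i ≤ j, path ω i ≠ c) → J (path ω (j + 1)) ≠ 0 := by
    intro j
    induction j with
    | zero => intro _; rw [p1]; exact fun e => hJ1 (e.trans z0.symm)
    | succ j ih =>
      intro h
      rw [path_succ, hJ2 _ _ (h (j + 1) le_rfl)]
      · exact ih fun i hi => h i (by omega)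
      · intro e
        have := path_inj ω (e.trans p0.symm)
        omega
  have key2 : ∀ j : ℕ, (∀ i < j, path ω i ≠ c) → nm 0 (path ω j).1 < n := by
    intro j h
    rcases j with _ | j
    · rw [p0, nm_zero]; simp; omega
    · have := key j fun i hi => h i (by omega)
      by_contra hh
      exact this (hJ3 _ (by omega))
  have ex : ∃ k, path ω k = c := by
    by_contra hh
    push Not at hh
    obtain ⟨k, hk⟩ := exists_out ω n
    exact absurd (key2 k fun i _ => hh i) (by omega)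
  classical
  refine ⟨Nat.find ex, Nat.find_spec ex, fun j hj => key2 j fun i hi => ?_⟩
  exact Nat.find_min ex (by omega)

end Pool.Agent.P.MP_6c8efb_pr.Two

end PATHDS

section TRSS

/-! Step TRS. -/

namespace Pool.Agent.P.MP_6c8efb_pr.Two

open Function MeasureTheory

namespace TRSx

theorem du_sh (p q : ℤ) (ω : Cfg) :
    du (fun e => ω ((syT p q).e e)) = fun e => du ω ((syT p q).e e) := by
  funext ⟨⟨a, b⟩, c⟩
  cases c <;> simp [du, dl, syT, add_right_comm]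

theorem fc_sh (p q : ℤ) (z : V) (d : Fin 4) : (syT p q).v (fc z d) = fc ((syT p q).v z) d := by
  rcases cases4 d with rfl | rfl | rfl | rfl <;> simp [syT] <;> omega

theorem ag {p q : ℤ} {ω : Cfg} {z : V} {r : ℤ} (h : (fun e => ω ((syT p q).e e)) ∈ AG z Set.univ r) :
    ω ∈ AG ((syT p q).v z) Set.univ r := by
  obtain ⟨y, h1, h2⟩ := h
  exact ⟨_, by simpa [syT, nm] using h1, h2.map _ fun _ _ => trivial⟩

theorem ta (p q : ℤ) (z : V) (d : Fin 4) {r : ℤ} (hr : 0 ≤ r) :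
    Q (TA z d r) ≤ Q (TA ((syT p q).v z) d r) :=
  Q_le_map (syT p q).inj (loc_TA z d hr) fun ω h =>
    ⟨ag h.1, by
      have := h.2
      rw [Set.mem_ofPred_eq, du_sh] at this
      rw [Set.mem_ofPred_eq, ← fc_sh]
      exact ag this⟩

theorem sep (p q : ℤ) (z : V) (d : Fin 4) {r : ℤ} (hr : 1 ≤ r) :
    Q (Sep z r d) ≤ Q (Sep ((syT p q).v z) r d) := by
  refine Q_le_map (syT p q).inj (loc_Sep z d hr) ?_
  rintro ω ⟨⟨x, y, a1, a2, a3, a4, a5⟩, x', y', b1, b2, b3, b4, b5⟩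
  rw [du_sh] at b4 b5
  refine ⟨⟨_, _, ?_, ?_, ?_, a4.map _ ?_, a5.map _ ?_⟩,
    _, _, ?_, ?_, ?_, b4.map _ ?_, fc_sh p q z d ▸ b5.map _ ?_⟩ <;>
  simp only [syT, mem_Rc] at * <;> intros <;> omega

end TRSx

theorem p_TRS :
    S_TRS := by
  intro z d r
  have e1 : (syT (-z.1) (-z.2)).v z = 0 := by simp [syT]
  have e2 : (syT z.1 z.2).v 0 = z := by simp [syT]
  exact ⟨fun h => le_antisymm (e1 ▸ TRSx.ta _ _ z d h) (by simpa only [e2] using TRSx.ta z.1 z.2 0 d h),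
    fun h => le_antisymm (e1 ▸ TRSx.sep _ _ z d h) (by simpa only [e2] using TRSx.sep z.1 z.2 0 d h)⟩

end Pool.Agent.P.MP_6c8efb_pr.Two

end TRSS
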