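import Pool.Agent.P.MP_6c8efb_pr.Two.IfaceB

section FINUPS

/-! Step FINUP. -/

namespace Pool.Agent.P.MP_6c8efb_pr.Two

open Function MeasureTheory

namespace FINUPx

/-- fourth root -/
noncomputable def q (n : ℕ) : ℝ := (n : ℝ) ^ (1 / 4 : ℝ)

theorem q_nonneg (n : ℕ) : 0 ≤ q n := Real.rpow_nonneg (Nat.cast_nonneg _) _

theorem q_pow (n k : ℕ) : q n ^ k = (n : ℝ) ^ ((k : ℝ) / 4) := by
  rw [q, ← Real.rpow_natCast, ← Real.rpow_mul (Nat.cast_nonneg _)]
  congr 1
  ring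

theorem q_four (n : ℕ) : q n ^ 4 = n := by
  rw [q_pow]
  norm_num

theorem q_pos (n : ℕ) : 0 < q (n + 1) := Real.rpow_pos_of_pos (by positivity) _

theorem q_le {a b : ℕ} (h : a ≤ 16 * b) : q a ≤ 2 * q b := by
  refine le_of_pow_le_pow_left₀ (n := 4) (by norm_num) (mul_nonneg zero_le_two (q_nonneg b)) ?_
  rw [mul_pow, q_four, q_four]
  have : (a : ℝ) ≤ 16 * b := mod_cast h
  linarith

theorem sum_q (n : ℕ) : ∑ k ∈ Finset.range n, 1 / q (k + 1) ≤ 2 * q n ^ 3 := by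
  induction n with
  | zero => simpa using pow_nonneg (q_nonneg 0) 3
  | succ n ih =>
    rw [Finset.sum_range_succ]
    have h1 := q_four n
    have h2 := q_four (n + 1)
    have h3 := q_pos n
    have h4 := q_nonneg n
    have h5 : q n ≤ q (n + 1) :=
      Real.rpow_le_rpow (Nat.cast_nonneg _) (Nat.cast_le.2 n.le_succ) (by norm_num)
    push_cast at h2
    generalize q n = a at *
    generalize q (n + 1) = b at *
    have h6 : 1 / b ≤ 2 * b ^ 3 - 2 * a ^ 3 := by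
      rw [div_le_iff₀ h3]
      have h7 : a ^ 2 * b ^ 2 ≤ b ^ 2 * b ^ 2 :=
        mul_le_mul_of_nonneg_right (pow_le_pow_left₀ h4 h5 2) (sq_nonneg _)
      nlinarith [mul_nonneg (sq_nonneg a) (sq_nonneg (a - b))]
    linarith

/-- the bound at height `y` -/
noncomputable def g (y : ℤ) : ℝ := if 0 ≤ y then 1 / q (y.toNat + 1) else 0

theorem sum_g (n : ℕ) : ∑ y ∈ Finset.Ioo (-(n : ℤ)) n, g y ≤ 2 * q n ^ 3 := by
  refine le_trans (le_of_eq ?_) (sum_q n)
  unfold g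
  rw [← Finset.sum_filter]
  refine Finset.sum_nbij' Int.toNat Nat.cast (fun y hy => ?_) (fun k hk => ?_) (fun y hy => ?_)
    (fun k _ => Int.toNat_natCast k) fun _ _ => rfl
  · simp only [Finset.mem_filter, Finset.mem_Ioo, Finset.mem_range] at hy ⊢; omega
  · simp only [Finset.mem_filter, Finset.mem_Ioo, Finset.mem_range] at hk ⊢; omega
  · simp only [Finset.mem_filter, Finset.mem_Ioo] at hy; omega

end FINUPx

theorem p_FINUP (hEXIT : S_EXIT) (hVISUP : S_VISUP) (hTRS : S_TRS) (hLOOP : S_LOOP) (hUUP : S_UUP) :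
    S_FINUP := by
  obtain ⟨C, hC⟩ := hUUP
  have key : ∀ (n : ℕ) (c : D), Q (Vis n c) ≤ 2 * max C 1 * FINUPx.g c.1.2 := by
    rintro n ⟨x, d⟩
    unfold FINUPx.g
    split_ifs with h
    · obtain ⟨k, hk⟩ := Int.eq_ofNat_of_zero_le h
      simp only at hk ⊢
      rw [hk, Int.toNat_natCast, mul_one_div, le_div_iff₀ (FINUPx.q_pos k)]
      have h0 : 0 ≤ Q (Vis n (x, d)) := Pr_nonneg _ _
      by_cases h4 : k ≤ 3
      · have h1 := FINUPx.q_le (a := k + 1) (b := 1) (by omega)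
        have h2 : FINUPx.q 1 = 1 := by simp [FINUPx.q]
        have h3 : Q (Vis n (x, d)) ≤ 1 := Pr_le_one _ _
        have h5 := le_max_right C 1
        have h6 := mul_le_mul_of_nonneg_right h3 (FINUPx.q_nonneg (k + 1))
        linarith
      · obtain ⟨m, rfl⟩ : ∃ m, k = m + 3 := ⟨k - 3, by omega⟩
        have h1 := FINUPx.q_le (a := m + 3 + 1) (b := m) (by omega)
        have h2 : Q (Vis n (x, d)) ≤ UR m := by
          refine (Pr_mono (hVISUP n x d (by omega))).trans ?_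
          rw [show x.2 - 2 = (m : ℤ) + 1 by omega]
          exact ((hTRS x d _).1 (by omega)).le.trans ((Pr_mono (hLOOP d m)).trans (le_UR d m))
        have h3 : FINUPx.q m * UR m ≤ C := hC m (by omega)
        have h5 := le_max_left C 1
        have h6 := mul_le_mul h2 h1 (FINUPx.q_nonneg _) (UR_nonneg _)
        linarith
    · have : Vis n (x, d) = ∅ := Set.eq_empty_of_forall_notMem fun ω ⟨k, hk, _⟩ =>
        h (hk ▸ path_pos ω k)
      rw [this, mul_zero]
      exact (Pr_empty _).le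
  have hM : 0 ≤ 2 * max C 1 := mul_nonneg zero_le_two (zero_le_one.trans (le_max_right C 1))
  refine ⟨2 * max C 1 * 16, fun n _ => ?_⟩
  rw [(hEXIT n).2]
  refine (Finset.sum_le_sum fun c _ => key n c).trans ?_
  rw [← Finset.mul_sum, mul_assoc _ 16]
  refine mul_le_mul_of_nonneg_left ?_ hM
  simp only [Bx, Finset.sum_product, Finset.sum_const, Finset.card_univ, Fintype.card_fin,
    nsmul_eq_mul, ← Finset.mul_sum]
  have h1 : ((Finset.Ioo (-(n : ℤ)) n).card : ℝ) ≤ 2 * n := by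
    have : (Finset.Ioo (-(n : ℤ)) n).card ≤ 2 * n := by rw [Int.card_Ioo]; omega
    exact_mod_cast this
  have h2 := FINUPx.sum_g n
  have h3 : 0 ≤ FINUPx.q n ^ 3 := pow_nonneg (FINUPx.q_nonneg n) 3
  have h4 : (n : ℝ) ^ (7 / 4 : ℝ) = n * FINUPx.q n ^ 3 := by
    have := FINUPx.q_pow n 7
    rw [Nat.cast_ofNat] at this
    rw [← this, ← FINUPx.q_four n]
    ring
  rw [h4]
  have h5 := mul_le_mul_of_nonneg_left h2 (Nat.cast_nonneg (α := ℝ) (Finset.Ioo (-(n : ℤ)) n).card)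
  have h6 := mul_le_mul_of_nonneg_right h1 h3
  push_cast
  nlinarith

end Pool.Agent.P.MP_6c8efb_pr.Two

end FINUPS

section ROTAS

/-! Step ROTA. -/

namespace Pool.Agent.P.MP_6c8efb_pr.Two

open Function MeasureTheory

namespace ROTAx

/-- rotation of the vertices -/
def rv (x : V) : V := (-x.2, x.1)

/-- rotation of the edges -/
def re (e : E) : E := if e.2 then ((-e.1.2, e.1.1), false) else ((-e.1.2 - 1, e.1.1), true)

theorem re_inj : Injective re := by
  rintro ⟨⟨a, b⟩, c⟩ ⟨⟨a', b'⟩, c'⟩ h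
  cases c <;> cases c' <;> simp [re, Prod.ext_iff] at h ⊢ <;> omega

theorem re_edge (x : V) (d : Fin 4) : re (edge x d) = edge (rv x) (d + 1) := by
  rcases cases4 d with rfl | rfl | rfl | rfl <;> simp [re, rv]

theorem rv_add (x : V) (d : Fin 4) : rv (x + u d) = rv x + u (d + 1) := by
  rcases cases4 d with rfl | rfl | rfl | rfl <;> simp [rv, Prod.ext_iff] <;> omega

/-- the rotated configuration -/
def rc (ω : Cfg) : Cfg := fun e => ω (re e)

theorem step_rot (ω : Cfg) (c : D) :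
    step ω (rv c.1, c.2 + 1) = (rv (step (rc ω) c).1, (step (rc ω) c).2 + 1) := by
  unfold step
  simp only [rc, re_edge]
  split_ifs
  · rw [rv_add, add_sub_cancel_right, sub_add_cancel]
  · rfl

theorem lp_rot (ω : Cfg) (d : Fin 4) (k : ℕ) :
    lp ω (0, d + 1) k = (rv (lp (rc ω) (0, d) k).1, (lp (rc ω) (0, d) k).2 + 1) := by
  induction k with
  | zero => rfl
  | succ k ih => rw [lp_succ, lp_succ, ih, step_rot]

/-- the loop leaves the box at a point with the property `p` -/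
def Ex (n : ℤ) (d : Fin 4) (p : V → Prop) : Set Cfg :=
  {ω | ∃ k, p (lp ω (0, d) k).1 ∧ ∀ j < k, (lp ω (0, d) j).1 ∈ Ins (n - 1) n}

theorem ex_rot {n : ℤ} {d : Fin 4} {p q : V → Prop} (h : ∀ z, p (rv z) → q z) {ω : Cfg}
    (hω : ω ∈ Ex n d p) : rc ω ∈ Ex n (d - 1) q := by
  obtain ⟨k, h1, h2⟩ := hω
  rw [← sub_add_cancel d 1] at h1 h2
  refine ⟨k, h _ (by rwa [lp_rot] at h1), fun j hj => ?_⟩
  have := h2 j hj
  rw [lp_rot] at this
  simp only [Ins, mem_Rc, rv] at this ⊢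
  omega

theorem Q_rot {A : Set Cfg} (hA : Loc A) : Q {ω | rc ω ∈ A} = Q A :=
  Pr_comp_inj (fun _ => hf) re_inj hA

theorem loc_rot {A : Set Cfg} (hA : Loc A) : Loc {ω | rc ω ∈ A} := hA.comp re

theorem exit {n : ℤ} (hn : 1 ≤ n) {d : Fin 4} {ω : Cfg} (h : ω ∈ Reach d n) :
    ω ∈ Ex n d (fun z => z.2 = n) ∨ ω ∈ Ex n d (fun z => z.1 = -n) ∨
      ω ∈ Ex n d (fun z => z.2 = -n) ∨ ω ∈ Ex n d fun z => z.1 = n := by
  classical
  have h1 := Nat.find_spec h
  have h2 : ∀ j < Nat.find h, nm 0 (lp ω (0, d) j).1 < n := fun j hj =>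
    not_le.1 (Nat.find_min h hj)
  generalize Nat.find h = k at h1 h2
  have h3 : ∀ j < k, (lp ω (0, d) j).1 ∈ Ins (n - 1) n := fun j hj => by
    have := h2 j hj
    rw [nm_zero, max_lt_iff, abs_lt, abs_lt] at this
    simp only [Ins, mem_Rc]
    omega
  have h4 : nm 0 (lp ω (0, d) k).1 ≤ n := by
    cases k with
    | zero => simp [nm_zero]; omega
    | succ k =>
      have := nm_step 0 ω (lp ω (0, d) k)
      have := h2 k (by omega)
      rw [lp_succ]
      omega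
  rw [nm_zero, max_le_iff, abs_le, abs_le] at h4
  rw [nm_zero, le_max_iff, le_abs, le_abs] at h1
  rcases h1 with (h1 | h1) | h1 | h1
  · exact Or.inr (Or.inr (Or.inr ⟨k, by simp only; omega, h3⟩))
  · exact Or.inr (Or.inl ⟨k, by simp only; omega, h3⟩)
  · exact Or.inl ⟨k, by simp only; omega, h3⟩
  · exact Or.inr (Or.inr (Or.inl ⟨k, by simp only; omega, h3⟩))

end ROTAx

open ROTAx in
theorem p_ROTA :
    S_ROTA := by
  intro d n hn
  have r1 : ∀ z : V, (rv z).1 = -n → z.2 = n := fun z h => by simp only [rv] at h; omega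
  have r2 : ∀ z : V, (rv z).2 = -n → z.1 = -n := fun z h => h
  have r3 : ∀ z : V, (rv z).1 = n → z.2 = -n := fun z h => by simp only [rv] at h; omega
  have l := fun d => loc_AA d (n - 1) n
  have h1 : Reach d n ⊆ AA d (n - 1) n ∪ {ω | rc ω ∈ AA (d - 1) (n - 1) n} ∪
      {ω | rc ω ∈ {ω | rc ω ∈ AA (d - 1 - 1) (n - 1) n}} ∪
      {ω | rc ω ∈ {ω | rc ω ∈ {ω | rc ω ∈ AA (d - 1 - 1 - 1) (n - 1) n}}} := fun ω h => by
    rcases exit hn h with h | h | h | h
    · exact Or.inl (Or.inl (Or.inl h))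
    · have h' := ex_rot r1 h
      exact Or.inl (Or.inl (Or.inr h'))
    · have h' := ex_rot r1 (ex_rot r2 h)
      exact Or.inl (Or.inr h')
    · have h' := ex_rot r1 (ex_rot r2 (ex_rot r3 h))
      exact Or.inr h'
  have h2 := (Pr_mono (π := fun _ => hf) h1).trans ((Pr_union_le _ _ _).trans (add_le_add_left
    ((Pr_union_le _ _ _).trans (add_le_add_left (Pr_union_le _ _ _) _)) _))
  have e1 := Q_rot (l (d - 1))
  have e2 := (Q_rot (loc_rot (l (d - 1 - 1)))).trans (Q_rot (l _))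
  have e3 := (Q_rot (loc_rot (loc_rot (l (d - 1 - 1 - 1))))).trans
    ((Q_rot (loc_rot (l _))).trans (Q_rot (l _)))
  unfold Q at e1 e2 e3 ⊢
  rw [e1, e2, e3] at h2
  rw [Fin.sum_univ_four]
  rcases cases4 d with rfl | rfl | rfl | rfl <;> simp only [s01, s11, s21, s31] at h2 <;> linarith

end Pool.Agent.P.MP_6c8efb_pr.Two

end ROTAS

section RSWPS

/-! Step RSWP. -/

namespace Pool.Agent.P.MP_6c8efb_pr.Two

open Function MeasureTheory

namespace RSWPx

/-- an increasing event of probability at least `c` that depends on the edges inside `S` -/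
structure Gd (c : ℝ) (S : Set V) (A : Set Cfg) : Prop where
  fin : S.Finite
  dep : Dep A (In S)
  up : IsUpperSet A
  le : c ≤ Q A

variable {c c' : ℝ} {S T : Set V} {A B : Set Cfg}

theorem Gd.inter (h : Gd c S A) (h' : Gd c' T B) (h0 : 0 ≤ c') : Gd (c * c') (S ∪ T) (A ∩ B) :=
  ⟨h.fin.union h'.fin, Dep.inter (h.dep.mono fun _ e => ⟨.inl e.1, .inl e.2⟩)
    (h'.dep.mono fun _ e => ⟨.inr e.1, .inr e.2⟩), h.up.inter h'.up,
    (mul_le_mul h.le h'.le h0 (Pr_nonneg _ _)).trans (harris_upper _ (h.dep.loc (In_finite h.fin))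
      (h'.dep.loc (In_finite h'.fin)) h.up h'.up)⟩

theorem gd_HC {x x' y y' : ℤ} (h : c ≤ hc (x' - x) (y' - y)) :
    Gd c (Rc x x' y y') (HC x x' y y') :=
  ⟨Rc_finite .., dep_conn _ _, up_HC .., h.trans (Q_HC ..).ge⟩

theorem gd_VC {x x' y y' : ℤ} (h : c ≤ hc (y' - y) (x' - x)) :
    Gd c (Rc x x' y y') (VC x x' y y') :=
  ⟨Rc_finite .., dep_conn _ _, up_VC .., h.trans (Q_VC ..).ge⟩

theorem Gd.loc (h : Gd c S A) (X : Set E) : Loc {ω | opn X ω ∈ A} :=
  (dep_opn h.dep X).loc ((In_finite h.fin).inter_of_left _)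

theorem Gd.le' (h : Gd c S A) (X : Set E) : c ≤ Q {ω | opn X ω ∈ A} :=
  h.le.trans (Pr_mono fun ω e => h.up (le_opn X ω) e)

theorem both (h : Gd c S A) (h' : Gd c' T B) (h0 : 0 ≤ c') (hd : Disjoint S T) (P : Set D) :
    Loc ({ω | opn (XX P) ω ∈ A} ∩ {ω | opn (XD P) (du ω) ∈ B}) ∧
      Dep ({ω | opn (XX P) ω ∈ A} ∩ {ω | opn (XD P) (du ω) ∈ B}) (XX P)ᶜ ∧
      c * c' ≤ Q ({ω | opn (XX P) ω ∈ A} ∩ {ω | opn (XD P) (du ω) ∈ B}) := by
  have l2 : Loc {ω | opn (XD P) (du ω) ∈ B} := loc_du (h'.loc (XD P))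
  have d2 : Dep {ω | opn (XD P) (du ω) ∈ B} _ := dep_du (dep_opn h'.dep (XD P))
  refine ⟨(h.loc _).inter l2, ((dep_opn h.dep _).mono Set.inter_subset_right).inter
    (d2.mono ?_), ?_⟩
  · rintro _ ⟨e, he, rfl⟩
    exact he.2
  · refine le_trans (mul_le_mul (h.le' (XX P)) ((h'.le' (XD P)).trans (Q_du (h'.loc _)).ge) h0
      (Pr_nonneg _ _)) (Pr_inter_indep _ (h.loc _) l2 (dep_opn h.dep _) d2 ?_).ge
    exact (disj_dl hd).mono Set.inter_subset_left (Set.image_mono Set.inter_subset_left)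

end RSWPx

theorem p_RSWP :
    S_RSWP := by
  intro N
  obtain ⟨c, c0, h⟩ := rsw' (4 * N + 24)
  refine ⟨c * c * c * c * (c * c * c * c), by positivity, fun P a m R r hm h1 h2 h3 h4 => ?_⟩
  have k : ∀ {w v : ℤ}, 0 ≤ w ∧ w ≤ 4 * r + 24 * m ∧ 2 * m ≤ v → c ≤ hc w v := fun e =>
    h m _ _ hm e.1 (e.2.1.trans (by push_cast; linarith)) e.2.2
  refine RSWPx.both ((((RSWPx.gd_VC (k ?_)).inter (RSWPx.gd_HC (k ?_)) c0.le).inter
    (RSWPx.gd_VC (k ?_)) c0.le).inter (RSWPx.gd_HC (k ?_)) c0.le)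
    ((((RSWPx.gd_VC (k ?_)).inter (RSWPx.gd_HC (k ?_)) c0.le).inter
    (RSWPx.gd_VC (k ?_)) c0.le).inter (RSWPx.gd_HC (k ?_)) c0.le) (by positivity)
    (Set.disjoint_left.2 fun z e e' => ?_) P
  all_goals first | omega | (simp only [Set.mem_union, mem_Rc] at *; omega)

end Pool.Agent.P.MP_6c8efb_pr.Two

end RSWPS

section LOOPS

/-! Step LOOP. -/

namespace Pool.Agent.P.MP_6c8efb_pr.Two

open Function MeasureTheory

namespace LOOPx

theorem ray (k : ℤ) (x : V) (h : k ≤ nm 0 x) : ∃ d, ∀ j : ℕ, k ≤ nm 0 (x + j • u d) := by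
  rw [nm_zero, le_max_iff, le_abs, le_abs] at h
  rcases h with (h | h) | h | h
  · exact ⟨0, fun j => by rw [nm_zero, le_max_iff, le_abs]; left; left; simp; omega⟩
  · exact ⟨2, fun j => by rw [nm_zero, le_max_iff, le_abs]; left; right; simp; omega⟩
  · exact ⟨1, fun j => by rw [nm_zero, le_max_iff, le_abs (b := _)]; right; rw [le_abs]; left; simp; omega⟩
  · exact ⟨3, fun j => by rw [nm_zero, le_max_iff, le_abs (b := _)]; right; rw [le_abs]; right; simp; omega⟩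

end LOOPx

theorem p_LOOP :
    S_LOOP := by
  rintro d k ω ⟨⟨y, y1, y2⟩, f, f1, f2⟩
  by_contra hn
  have hin : ∀ j, nm 0 (lp ω (0, d) j).1 < k := fun j => not_le.1 fun b => hn ⟨j, b⟩
  obtain ⟨l, hl⟩ := exists_lp (c := ((0 : V), d)) (step_inj ω) (A := {c : D | nm 0 c.1 ≤ k})
    (((ball_finite 0 Set.univ k).prod (Set.toFinite (Set.univ : Set (Fin 4)))).subset
      fun c hc => ⟨⟨trivial, hc⟩, trivial⟩) fun j => (hin j).le
  obtain ⟨IV, IF, hI⟩ := exists_idx hl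
  have h1 : ∀ c ∈ l, ∃ j, c = lp ω (0, d) j :=
    hl.ind ⟨0, rfl⟩ fun x _ ⟨j, hj⟩ => ⟨j + 1, by rw [lp_succ, hj]⟩
  have h2 : ∀ x e, k ≤ nm 0 x → IV x = IF (fc x e) := fun x e hx => by
    have h3 := hI.rel (x, e)
    rw [ch, if_neg fun b => by
      obtain ⟨j, hj⟩ := h1 _ b
      have := hin j
      rw [← hj] at this
      exact absurd hx (not_le.2 this)] at h3
    exact sub_eq_zero.1 h3
  have h3 : ∀ x, k ≤ nm 0 x → IV x = 0 := fun x hx => by
    obtain ⟨e, he⟩ := LOOPx.ray k x hx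
    refine ray_zero hI.finV x e fun j => ?_
    rw [h2 _ (e - 1) (he (j + 1)), h2 _ e (he j), succ_nsmul, ← add_assoc, fc_step]
  have h4 : IV y = IV 0 := y2.ind (p := fun z => IV z = IV 0) rfl fun a e _ _ _ ho ih =>
    (idx_open hl hI (x := (a, e)) ho).trans ih
  have h5 : IF f = IF (fc 0 d) := f2.ind (p := fun z => IF z = IF (fc 0 d)) rfl
    fun a e _ _ _ ho ih => by
      obtain ⟨v, e', b1, b2, b3⟩ := face_step a e
      have := idx_closed hl hI (x := (v, e')) (by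
        rw [du_true] at ho
        simp only [ed, b3, ho]; decide)
      simp only [fd, rot, b1, b2] at this
      exact this.trans ih
  have h6 := idx_vertex hl hI hl.mem
  have h7 : k ≤ nm 0 f := by
    have := fd_bd ((0 : V), d)
    simp only [fd, nm, abs_eq_max_neg, Prod.fst_zero, Prod.snd_zero] at this f1 ⊢
    omega
  have h8 := h2 f 1 h7
  rw [h3 f h7] at h8
  rw [h3 y (by omega)] at h4
  simp only [fd] at h6
  have h9 : fc f 1 = f := rfl
  rw [h9] at h8
  omega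

end Pool.Agent.P.MP_6c8efb_pr.Two

end LOOPS

section FUTS

/-! Step FUT. -/

namespace Pool.Agent.P.MP_6c8efb_pr.Two

open Function MeasureTheory

namespace FUTx

theorem ht_step (ω : Cfg) (c : D) : (step ω c).1.2 ≤ c.1.2 + 1 := by
  obtain ⟨x, e⟩ := c
  rcases step_cases ω (x, e) with ⟨-, a2, -⟩ | ⟨-, a2, -⟩ <;> rw [a2]
  · rcases cases4 e with rfl | rfl | rfl | rfl <;> simp
  · simp

end FUTx

theorem p_FUT :
    S_FUT := by
  classical
  rintro ω d R l l' hl hll ⟨k', h1, h2⟩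
  have hex : ∃ k, l ≤ (lp ω (0, d) k).1.2 := ⟨k', by omega⟩
  have hk : Nat.find hex ≤ k' := Nat.find_min' hex (by omega)
  have hs := Nat.find_spec hex
  have hm : ∀ j < Nat.find hex, (lp ω (0, d) j).1.2 < l := fun j hj =>
    not_le.1 (Nat.find_min hex hj)
  generalize Nat.find hex = k at hk hs hm
  have hit : Hit ω d R l k := by
    refine ⟨?_, fun j hj => ?_⟩
    · cases k with
      | zero => simp at hs; omega
      | succ j =>
        have a1 := hm j (Nat.lt_succ_self j)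
        have a2 := FUTx.ht_step ω (lp ω (0, d) j)
        rw [← lp_succ] at a2
        omega
    · have a1 := h2 j (by omega)
      have a2 := hm j hj
      simp only [Ins, mem_Rc] at a1 ⊢
      omega
  obtain ⟨j, x, -, -, e, -⟩ := hit_last hl hit
  obtain ⟨m, rfl⟩ := Nat.exists_eq_add_of_le hk
  rw [lp_add] at h1
  refine ⟨_, _, ⟨k, hit, rfl, rfl⟩, ⟨_, h1.ge, lp_conn ω _ m fun _ _ => trivial⟩,
    fd (lp ω (lp ω (0, d) k) m), ?_, ?_⟩
  · have := (fd_bd (lp ω (lp ω (0, d) k) m)).2.2.1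
    omega
  · have := lp_connD ω (lp ω (0, d) k) m (S := Set.univ) fun _ _ => trivial
    have e2 : fd (lp ω (0, d) k) = ((lp ω (0, d) k).1.1, l - 1) := by
      rw [e]; simp [fd]
    rwa [e2] at this

end Pool.Agent.P.MP_6c8efb_pr.Two

end FUTS

section ARMXS

/-! Step ARMX. -/

namespace Pool.Agent.P.MP_6c8efb_pr.Two

open Function MeasureTheory

namespace ARMXx

end ARMXx

theorem p_ARMX :
    S_ARMX := by
  obtain ⟨q, h0, h1, h⟩ := ann_one
  refine ⟨q, h0.le, h1, fun P z m hm => ?_⟩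
  have hr : 13 * m ≤ 39 * m := by omega
  have hq : Q (Arm1 z (13 * m) (39 * m)) ≤ q := by
    have := h z (13 * m) (by omega)
    rwa [show 3 * (13 * m) = 39 * m by ring] at this
  have hd := fun X => dep_shut (dep_Arm1 z hr) X
  have hl : ∀ X, Loc {ω | shut X ω ∈ Arm1 z (13 * m) (39 * m)} := fun X =>
    (hd X).loc ((In_finite (An_finite ..)).subset Set.inter_subset_left)
  have hp : ∀ X, Q {ω | shut X ω ∈ Arm1 z (13 * m) (39 * m)} ≤ q := fun X =>
    (Pr_mono fun ω hω => up_Arm1 _ _ _ (shut_le X ω) hω).trans hq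
  refine ⟨⟨hl _, (hd _).mono Set.inter_subset_right, hp _⟩, loc_du (hl (XD P)),
    (dep_du (hd (XD P))).mono ?_, (Q_du (hl (XD P))).trans_le (hp _)⟩
  rintro _ ⟨e, he, rfl⟩
  exact he.2

end Pool.Agent.P.MP_6c8efb_pr.Two

end ARMXS
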