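import Pool.Agent.P.MP_6c8efb_pr.Two.MA1
import Pool.Agent.P.MP_6c8efb_pr.Two.MA2
import Pool.Agent.P.MP_6c8efb_pr.Two.MA3
import Pool.Agent.P.MP_6c8efb_pr.Two.MA4
import Pool.Agent.P.MP_6c8efb_pr.Two.MB1
import Pool.Agent.P.MP_6c8efb_pr.Two.MB2
import Pool.Agent.P.MP_6c8efb_pr.Two.MB3
import Pool.Agent.P.MP_6c8efb_pr.Two.MB4
import Pool.Agent.P.MP_6c8efb_pr.Two.MB5
import Pool.Agent.P.MP_6c8efb_pr.Two.MB6

/-! Assembly of the steps. -/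

namespace Pool.Agent.P.MP_6c8efb_pr.Two

open MeasureTheory

theorem b_INV : One.S_INV := One.p_INV
theorem b_ONE : One.S_ONE := One.p_ONE
theorem b_ALG : One.S_ALG := One.p_ALG
theorem b_MIN : One.S_MIN := One.p_MIN
theorem b_TW : One.S_TW := One.p_TW b_ALG
theorem b_SGN : One.S_SGN := One.p_SGN b_ONE b_ALG b_MIN b_TW
theorem b_FRM2 : One.S_FRM2 := One.p_FRM2 b_INV b_ONE b_ALG
theorem b_BB : One.S_BB := One.p_BB b_INV b_SGN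
theorem b_KER2 : One.S_KER2 := One.p_KER2
theorem b_NICE2 : One.S_NICE2 := One.p_NICE2
theorem b_LOG2 : One.S_LOG2 := One.p_LOG2
theorem b_RATIO2 : One.S_RATIO2 := One.p_RATIO2 b_FRM2 b_BB b_KER2 b_NICE2
theorem b_ASYM2 : One.S_ASYM2 := One.p_ASYM2 b_NICE2 b_LOG2
theorem b_CYL : One.S_CYL := One.p_CYL b_RATIO2 b_ASYM2
theorem b_WREV : One.S_WREV := One.p_WREV
theorem b_EVFR : One.S_EVFR := One.p_EVFR
theorem b_UP2 : One.S_UP2 := One.p_UP2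
theorem b_WE : One.S_WE := One.p_WE
theorem b_SHIFT : One.S_SHIFT := One.p_SHIFT
theorem b_EXTW : One.S_EXTW := One.p_EXTW
theorem b_H2 : S_H2 := p_H2
theorem b_EXT1 : One.S_EXT1 := One.p_EXT1 b_H2 b_EXTW
theorem b_J2 : S_J2 := p_J2
theorem b_J1 : S_J1 := p_J1 b_J2
theorem b_PAST : S_PAST := p_PAST
theorem b_FUT : S_FUT := p_FUT
theorem b_STOP : S_STOP := p_STOP
theorem b_KA : S_KA := p_KA b_J1
theorem b_KB : S_KB := p_KB b_J1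
theorem b_UATT : S_UATT := p_UATT
theorem b_GOODP : S_GOODP := p_GOODP b_UATT
theorem b_GOODD : S_GOODD := p_GOODD b_UATT
theorem b_RSWP : S_RSWP := p_RSWP
theorem b_ARMX : S_ARMX := p_ARMX
theorem b_LEVEL : S_LEVEL := p_LEVEL b_PAST b_FUT b_STOP b_KA b_KB b_GOODP b_GOODD b_RSWP b_ARMX
theorem b_ROTA : S_ROTA := p_ROTA
theorem b_ROTB : S_ROTB := p_ROTB
theorem b_REC : S_REC := p_REC b_LEVEL b_ROTA b_ROTB
theorem b_LOOP : S_LOOP := p_LOOP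
theorem b_TRS : S_TRS := p_TRS
theorem b_TALO : S_TALO := p_TALO b_CYL b_EVFR b_UP2
theorem b_SEPUP : S_SEPUP := p_SEPUP b_CYL b_WREV b_WE b_SHIFT b_EXT1
theorem b_UUP : S_UUP := p_UUP b_REC b_SEPUP
theorem b_SEPLO : S_SEPLO := p_SEPLO b_REC b_UUP b_LOOP b_TALO
theorem b_EXIT : S_EXIT := p_EXIT
theorem b_VISUP : S_VISUP := p_VISUP
theorem b_EXT2 : S_EXT2 := p_EXT2 b_H2 b_TRS
theorem b_EXTD : S_EXTD := p_EXTD
theorem b_DBL : S_DBL := p_DBL b_J2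
theorem b_PATHD : S_PATHD := p_PATHD b_DBL
theorem b_FINUP : S_FINUP := p_FINUP b_EXIT b_VISUP b_TRS b_LOOP b_UUP
theorem b_FINLO : S_FINLO := p_FINLO b_EXIT b_EXT2 b_EXTD b_PATHD b_SEPLO

theorem main : (∀ n ω, ∃ k, Outside n ω k) ∧
    (∀ n, Integrable (fun ω => (exitTime n ω : ℝ)) crit) ∧
    ∃ c C : ℝ, 0 < c ∧ ∀ n : ℕ, 1 ≤ n →
      c * (n : ℝ) ^ (7 / 4 : ℝ) ≤ meanExit n ∧ meanExit n ≤ C * (n : ℝ) ^ (7 / 4 : ℝ) := by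
  obtain ⟨c, hc, h1⟩ := b_FINLO
  obtain ⟨C, h2⟩ := b_FINUP
  refine ⟨fun n ω => ?_, fun n => (b_EXIT n).1, c, C, hc, fun n hn => ⟨h1 n hn, h2 n hn⟩⟩
  obtain ⟨k, hk⟩ := exists_out ω n
  exact ⟨k, by rwa [nm_zero] at hk⟩

end Pool.Agent.P.MP_6c8efb_pr.Two
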