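import Pool.Agent.P.MP_6c8efb_pr.Two.Stmt
import Pool.Agent.P.MP_6c8efb_pr.Ann
import Pool.Agent.P.MP_6c8efb_pr.Path

/-! Loops, arms and levels: definitions and elementary facts. -/

namespace Pool.Agent.P.MP_6c8efb_pr.Two

open Function

/-- the loop started at a dart -/
def lp (ω : Cfg) (c : D) (k : ℕ) : D := (step ω)^[k] c

/-- an open arm from `z` and a dual arm from the face `fc z d` -/
def TA (z : V) (d : Fin 4) (k : ℤ) : Set Cfg :=
  AG z Set.univ k ∩ {ω | du ω ∈ AG (fc z d) Set.univ k}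

/-- the loop started at the dart `(0, d)` reaches sup norm `n` -/
def Reach (d : Fin 4) (n : ℤ) : Set Cfg := {ω | ∃ k, n ≤ nm 0 (lp ω (0, d) k).1}

noncomputable def UR (n : ℤ) : ℝ := ∑ d : Fin 4, Q (Reach d n)

/-- the box below the level `l` -/
def Ins (R l : ℤ) : Set V := Rc (-R) R (-R) (l - 1)

/-- the loop leaves the box for the first time at time `k`, and does so through the level `l` -/
def Hit (ω : Cfg) (d : Fin 4) (R l : ℤ) (k : ℕ) : Prop :=
  (lp ω (0, d) k).1.2 = l ∧ ∀ j < k, (lp ω (0, d) j).1 ∈ Ins R l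

def AA (d : Fin 4) (R l : ℤ) : Set Cfg := {ω | ∃ k, Hit ω d R l k}

/-- `P` is the set of the darts visited before the level `l` is reached, at the vertex `a` -/
def IsPast (ω : Cfg) (d : Fin 4) (R l : ℤ) (P : Set D) (a : V) : Prop :=
  ∃ k, Hit ω d R l k ∧ (lp ω (0, d) k).1 = a ∧ P = {c | ∃ j < k, lp ω (0, d) j = c}

/-- the explored edges -/
def XX (P : Set D) : Set E := ed '' P

/-- the dual edges which cross explored edges -/
def XD (P : Set D) : Set E := {g | dl g ∈ XX P}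

/-- the vertices on the left of the past -/
def LL (P : Set D) (a : V) : Set V := {v | v = a ∨ ∃ c ∈ P, c.1 = v}

/-- the faces on the right of the past -/
def RR (P : Set D) : Set V := fd '' P

open Classical in
/-- the edges of `X` are opened -/
noncomputable def opn (X : Set E) (ω : Cfg) : Cfg := fun e => if e ∈ X then true else ω e

open Classical in
/-- the edges of `X` are closed -/
noncomputable def shut (X : Set E) (ω : Cfg) : Cfg := fun e => if e ∈ X then false else ω e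

/-- what is known about the past -/
structure Past (ω : Cfg) (d : Fin 4) (R l : ℤ) (P : Set D) (a : V) : Prop where
  ins : ∀ c ∈ P, c.1 ∈ Ins R l
  tip : a.2 = l ∧ -R ≤ a.1 ∧ a.1 ≤ R
  start : ((0 : V), d) ∈ P
  last : ((a.1, l - 1), (1 : Fin 4)) ∈ P
  endP : ∀ c ∈ P, ω (ed c) = true → c.1 + u c.2 ∈ LL P a
  endD : ∀ c ∈ P, ω (ed c) = false → fd (rot c) ∈ RR P
  connP : ∀ c ∈ P, Conn (shut (XX P)ᶜ ω) (LL P a) a c.1
  connD : ∀ c ∈ P, Conn (shut (XD P)ᶜ (du ω)) (RR P) (a.1, l - 1) (fd c)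

/-- three rectangles to the west, the south and the east of `c` -/
def Ush (c : V) (r s h1 h2 : ℤ) : Set V :=
  Rc (c.1 - s) (c.1 - r) (c.2 - s) h1 ∪ Rc (c.1 - s) (c.1 + s) (c.2 - s) (c.2 - r) ∪
    Rc (c.1 + r) (c.1 + s) (c.2 - s) h2

/-- the three rectangles are crossed -/
def Ucr (c : V) (r s h1 h2 : ℤ) : Set Cfg :=
  VC (c.1 - s) (c.1 - r) (c.2 - s) h1 ∩ HC (c.1 - s) (c.1 + s) (c.2 - s) (c.2 - r) ∩
    VC (c.1 + r) (c.1 + s) (c.2 - s) h2

/-- a lattice path without edges of `X` leads inside `S` from `p` to an end point of an edge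
of `X` -/
def Bad (X : Set E) (S : Set V) (p : V) : Prop :=
  ∃ y d, Conn (shut X fun _ => true) S p y ∧ edge y d ∈ X

def BadP (P : Set D) (a : V) (m : ℤ) : Prop :=
  ∃ p ∈ Rc (a.1 - 3 * m) (a.1 - m) (a.2 + m) (a.2 + 3 * m),
    Bad (XX P) (Ush a m (3 * m) (a.2 + 3 * m) a.2 \ LL P a) p

def BadD (P : Set D) (a : V) (m : ℤ) : Prop :=
  ∃ p ∈ Rc (a.1 + 4 * m) (a.1 + 12 * m) (a.2 + m) (a.2 + 3 * m),
    Bad (XD P) (Ush (a.1, a.2 - 1) (4 * m) (12 * m) (a.2 - 1) (a.2 + 3 * m) \ RR P) p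

/-- open crossings around the tip -/
def FP (P : Set D) (a : V) (m r : ℤ) : Set Cfg :=
  {ω | opn (XX P) ω ∈ Ucr a m (3 * m) (a.2 + 3 * m) a.2 ∩
    HC (-3 * r) (a.1 - m) (a.2 + m) (a.2 + 3 * m)}

/-- dual crossings around the tip -/
def FD (P : Set D) (a : V) (m r : ℤ) : Set Cfg :=
  {ω | opn (XD P) (du ω) ∈ Ucr (a.1, a.2 - 1) (4 * m) (12 * m) (a.2 - 1) (a.2 + 3 * m) ∩
    HC (a.1 + 4 * m) (3 * r) (a.2 + m) (a.2 + 3 * m)}

/-- `z` is joined to a crossing of a rectangle to the west -/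
def SP (z : V) (r : ℤ) : Set Cfg :=
  {ω | ∃ x y, x ∈ Rc (z.1 - 3 * r) (z.1 - r) z.2 (z.2 + r) ∧ x.1 = z.1 - 3 * r ∧ y.1 = z.1 - r ∧
    Conn ω (Rc (z.1 - 3 * r) (z.1 - r) z.2 (z.2 + r)) x y ∧
    Conn ω (Rc (z.1 - 3 * r) (z.1 + r - 1) (z.2 - r) (z.2 + r)) z x}

/-- the face `fc z d` is joined to a dual crossing of a rectangle to the east -/
def SD (z : V) (r : ℤ) (d : Fin 4) : Set Cfg :=
  {ω | ∃ x y, x ∈ Rc (z.1 + r) (z.1 + 3 * r) z.2 (z.2 + r) ∧ x.1 = z.1 + r ∧ y.1 = z.1 + 3 * r ∧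
    Conn (du ω) (Rc (z.1 + r) (z.1 + 3 * r) z.2 (z.2 + r)) x y ∧
    Conn (du ω) (Rc (z.1 + 1 - r) (z.1 + 3 * r) (z.2 - r) (z.2 + r)) (fc z d) x}

/-- two separated arms -/
def Sep (z : V) (r : ℤ) (d : Fin 4) : Set Cfg := SP z r ∩ SD z r d

/-- two separated arms at `z`, extended down to the real axis -/
def EV (z : V) (r : ℤ) (d : Fin 4) : Set Cfg :=
  Sep z r d ∩ VC (z.1 - 3 * r) (z.1 - r) 0 (z.2 + r) ∩
    {ω | du ω ∈ VC (z.1 + r) (z.1 + 3 * r) 0 (z.2 + r)}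

/-- the exploration path visits the dart `c` before it reaches sup norm `n` -/
def Vis (n : ℕ) (c : D) : Set Cfg := {ω | ∃ k, path ω k = c ∧ ∀ j ≤ k, nm 0 (path ω j).1 < n}

/-- the darts at sup norm less than `n` -/
noncomputable def Bx (n : ℕ) : Finset D :=
  (Finset.Ioo (-(n : ℤ)) n ×ˢ Finset.Ioo (-(n : ℤ)) n) ×ˢ Finset.univ

/-! ### elementary facts -/

section Basic

variable {ω ω' : Cfg} {X : Set E} {e : E}

@[simp] theorem lp_zero (ω : Cfg) (c : D) : lp ω c 0 = c := rfl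

theorem lp_succ (ω : Cfg) (c : D) (k : ℕ) : lp ω c (k + 1) = step ω (lp ω c k) :=
  iterate_succ_apply' _ _ _

theorem lp_add (ω : Cfg) (c : D) (j k : ℕ) : lp ω c (j + k) = lp ω (lp ω c j) k := by
  rw [lp, lp, lp, add_comm, iterate_add_apply]

theorem path_eq (ω : Cfg) (k : ℕ) : path ω k = lp (bc ω) (0, 0) k := rfl

theorem opn_true : opn X ω e = true ↔ e ∈ X ∨ ω e = true := by
  unfold opn; split_ifs with h <;> simp [h]

theorem shut_true : shut X ω e = true ↔ e ∉ X ∧ ω e = true := by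
  unfold shut; split_ifs with h <;> simp [h]

theorem opn_of_notMem (h : e ∉ X) : opn X ω e = ω e := if_neg h
theorem shut_of_notMem (h : e ∉ X) : shut X ω e = ω e := if_neg h

theorem le_opn (X : Set E) (ω : Cfg) : ω ≤ opn X ω := fun e => by
  unfold opn; split_ifs <;> simp

theorem shut_le (X : Set E) (ω : Cfg) : shut X ω ≤ ω := fun e => by
  unfold shut; split_ifs <;> simp

theorem opn_mono (X : Set E) (h : ω ≤ ω') : opn X ω ≤ opn X ω' := fun e => by
  unfold opn; split_ifs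
  · exact le_rfl
  · exact h e

theorem du_anti (h : ω ≤ ω') : du ω' ≤ du ω := fun e => by
  have := h (dl e)
  unfold du
  revert this
  cases ω (dl e) <;> cases ω' (dl e) <;> simp

theorem du_true : du ω e = true ↔ ω (dl e) = false := by simp [du]

theorem dep_opn {A : Set Cfg} {S : Set E} (h : Dep A S) (X : Set E) :
    Dep {ω | opn X ω ∈ A} (S ∩ Xᶜ) := fun _ _ hω => h fun e he => by
  by_cases b : e ∈ X
  · simp [opn, b]
  · rw [opn_of_notMem b, opn_of_notMem b, hω e ⟨he, b⟩]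

theorem dep_shut {A : Set Cfg} {S : Set E} (h : Dep A S) (X : Set E) :
    Dep {ω | shut X ω ∈ A} (S ∩ Xᶜ) := fun _ _ hω => h fun e he => by
  by_cases b : e ∈ X
  · simp [shut, b]
  · rw [shut_of_notMem b, shut_of_notMem b, hω e ⟨he, b⟩]

theorem dep_du {A : Set Cfg} {S : Set E} (h : Dep A S) : Dep {ω | du ω ∈ A} (dl '' S) :=
  fun _ _ hω => h fun e he => by simp only [du, hω _ ⟨e, he, rfl⟩]

theorem lower_du {A : Set Cfg} (h : IsUpperSet A) : IsLowerSet {ω | du ω ∈ A} :=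
  fun _ _ hω h1 => h (du_anti hω) h1

/-- a set of vertices and a set of faces which are disjoint as subsets of the lattice use disjoint
sets of edges -/
theorem disj_dl {S T : Set V} (h : Disjoint S T) : Disjoint (In S) (dl '' In T) :=
  Set.disjoint_left.2 (by
    rintro _ h1 ⟨e, h2, rfl⟩
    exact Set.disjoint_left.1 h h1.1 h2.2)

/-- the dual edge between two consecutive faces around a vertex -/
theorem dl_fc (v : V) (d : Fin 4) : dl (edge (fc v d) (d + 1)) = edge v d := by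
  rcases cases4 d with rfl | rfl | rfl | rfl <;> simp [dl, sub_eq_add_neg]

theorem dl_dl (e : E) : dl (dl e) = ((e.1.1 + 1, e.1.2 + 1), e.2) := by
  obtain ⟨⟨a, b⟩, c⟩ := e
  cases c <;> simp [dl]

theorem fd_bd (c : D) : c.1.1 - 1 ≤ (fd c).1 ∧ (fd c).1 ≤ c.1.1 ∧
    c.1.2 - 1 ≤ (fd c).2 ∧ (fd c).2 ≤ c.1.2 := by
  obtain ⟨x, d⟩ := c
  rcases cases4 d with rfl | rfl | rfl | rfl <;> simp [fd]

/-- one step of a loop -/
theorem step_cases (ω : Cfg) (c : D) :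
    (ω (ed c) = true ∧ step ω c = (c.1 + u c.2, c.2 - 1) ∧ fd (step ω c) = fd c) ∨
    (ω (ed c) = false ∧ step ω c = (c.1, c.2 + 1) ∧ fd (step ω c) = fd c + u (c.2 + 1) ∧
      du ω (edge (fd c) (c.2 + 1)) = true) := by
  by_cases b : ω (ed c) = true
  · exact Or.inl ⟨b, if_pos b, by rw [step_open b, fd_ro]⟩
  · have b' : ω (ed c) = false := by simpa using b
    refine Or.inr ⟨b', if_neg b, by rw [step_closed b]; exact fc_succ _ _, ?_⟩
    rw [du_true, fd, dl_fc]; exact b'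

theorem lp_conn (ω : Cfg) (c : D) (k : ℕ) {S : Set V} (h : ∀ j ≤ k, (lp ω c j).1 ∈ S) :
    Conn ω S c.1 (lp ω c k).1 := by
  induction k with
  | zero => exact Conn.rfl'
  | succ k ih =>
    have h1 := ih fun j hj => h j (by omega)
    have h2 := h (k + 1) le_rfl
    rw [lp_succ] at h2 ⊢
    rcases step_cases ω (lp ω c k) with ⟨a1, a2, -⟩ | ⟨-, a2, -⟩ <;> rw [a2] at h2 ⊢
    · exact h1.snoc (h k (by omega)) h2 a1
    · exact h1

theorem lp_connD (ω : Cfg) (c : D) (k : ℕ) {S : Set V} (h : ∀ j ≤ k, fd (lp ω c j) ∈ S) :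
    Conn (du ω) S (fd c) (fd (lp ω c k)) := by
  induction k with
  | zero => exact Conn.rfl'
  | succ k ih =>
    have h1 := ih fun j hj => h j (by omega)
    have h2 := h (k + 1) le_rfl
    rw [lp_succ] at h2 ⊢
    rcases step_cases ω (lp ω c k) with ⟨-, -, a3⟩ | ⟨-, -, a3, a4⟩ <;> rw [a3] at h2 ⊢
    · exact h1
    · exact h1.snoc (h k (by omega)) h2 a4

theorem lp_congr (c : D) (k : ℕ) (h : ∀ j < k, ω' (ed (lp ω c j)) = ω (ed (lp ω c j))) :
    ∀ j ≤ k, lp ω' c j = lp ω c j := by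
  intro j
  induction j with
  | zero => exact fun _ => rfl
  | succ j ih => intro hj; rw [lp_succ, lp_succ, ih (by omega), step_congr (h j (by omega))]

theorem nm_step (z : V) (ω : Cfg) (c : D) : nm z (step ω c).1 ≤ nm z c.1 + 1 := by
  rcases step_cases ω c with ⟨-, a2, -⟩ | ⟨-, a2, -⟩ <;> rw [a2]
  · exact nm_lip _ _ _
  · simp

theorem nm_zero (y : V) : nm 0 y = max |y.1| |y.2| := by simp [nm]

theorem mem_Bx {n : ℕ} {c : D} : c ∈ Bx n ↔ nm 0 c.1 < n := by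
  simp only [Bx, Finset.mem_product, Finset.mem_Ioo, Finset.mem_univ, and_true, nm_zero,
    max_lt_iff, abs_lt]

theorem hit_last {d : Fin 4} {R l : ℤ} {k : ℕ} (hl : 1 ≤ l) (h : Hit ω d R l k) :
    ∃ j x, k = j + 1 ∧ lp ω (0, d) j = ((x, l - 1), 1) ∧ lp ω (0, d) k = ((x, l), 0) ∧
      ω (ed (lp ω (0, d) j)) = true := by
  obtain ⟨h1, h2⟩ := h
  cases k with
  | zero => simp at h1; omega
  | succ j =>
    have h3 := (h2 j (by omega)).2.2.2
    rw [lp_succ] at h1 ⊢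
    refine ⟨j, (lp ω (0, d) j).1.1, rfl, ?_⟩
    generalize lp ω (0, d) j = c at h1 h3 ⊢
    obtain ⟨⟨x, y⟩, e⟩ := c
    rcases step_cases ω ((x, y), e) with ⟨a1, a2, -⟩ | ⟨-, a2, -⟩ <;> rw [a2] at h1 ⊢
    · rcases cases4 e with rfl | rfl | rfl | rfl <;> simp at h1 h3 a1 ⊢ <;> first | omega | skip
      exact ⟨by omega, h1, a1⟩
    · simp only at h1 h3; omega

theorem hit_unique {d : Fin 4} {R l : ℤ} {k k' : ℕ} (h : Hit ω d R l k) (h' : Hit ω d R l k') :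
    k = k' := by
  rcases lt_trichotomy k k' with c | c | c
  · have := (h'.2 k c).2.2.2; have := h.1; omega
  · exact c
  · have := (h.2 k' c).2.2.2; have := h'.1; omega

theorem finite_ed {S : Set V} (h : S.Finite) : (ed '' {c : D | c.1 ∈ S}).Finite :=
  ((h.prod (Set.toFinite (Set.univ : Set (Fin 4)))).subset fun _ hc => ⟨hc, trivial⟩).image _

theorem loc_AA (d : Fin 4) (R l : ℤ) : Loc (AA d R l) := by
  refine ⟨_, finite_ed (Rc_finite (-R) R (-R) (l - 1)), ?_⟩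
  rintro ω ω' hω ⟨k, h1, h2⟩
  have e := lp_congr (ω := ω) (ω' := ω') (0, d) k fun j hj => (hω _ ⟨_, h2 j hj, rfl⟩).symm
  exact ⟨k, by rw [e k le_rfl]; exact h1, fun j hj => by rw [e j hj.le]; exact h2 j hj⟩

theorem AA_sub (d : Fin 4) (R l : ℤ) : AA d R l ⊆ Reach d l := fun _ ⟨k, h1, _⟩ =>
  ⟨k, by rw [nm_zero, h1]; exact le_max_of_le_right (le_abs_self l)⟩

theorem path_succ (ω : Cfg) (k : ℕ) : path ω (k + 1) = step (bc ω) (path ω k) := lp_succ _ _ _

theorem path_pos (ω : Cfg) (k : ℕ) : 0 ≤ (path ω k).1.2 := by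
  induction k with
  | zero => exact le_rfl
  | succ k ih =>
    rw [path_succ]
    generalize path ω k = x at ih
    by_cases b : bc ω (ed x) = true
    · rw [step_open b]
      have := bc_pos b
      rcases cases4 x.2 with e | e | e | e <;> simp [e, ed, rot, opp] at this ⊢ <;> omega
    · rw [step_closed b]; exact ih

/-- the darts below the negative axis -/
def WP (c : D) : Prop := c.1.2 = 0 ∧ (c.2 = 0 ∧ c.1.1 < 0 ∨ c.2 = 3 ∧ c.1.1 ≤ 0)

theorem wp_pred (ω : Cfg) {c : D} (h : WP c ∨ c = ((0, 0), 0)) :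
    ∃ c', WP c' ∧ step (bc ω) c' = c := by
  obtain ⟨⟨i, j⟩, d⟩ := c
  have k : ∀ i : ℤ, i ≤ 0 → ∃ c', WP c' ∧ step (bc ω) c' = ((i, 0), 0) := fun i hi =>
    ⟨((i, 0), 3), ⟨rfl, Or.inr ⟨rfl, hi⟩⟩, by
      rw [step_closed (by simp [ed, bc])]; rfl⟩
  rcases h with ⟨h1, ⟨h2, h3⟩ | ⟨h2, h3⟩⟩ | h
  · simp only at h1 h2 h3
    subst h1 h2
    exact k i h3.le
  · simp only at h1 h2 h3
    subst h1 h2
    refine ⟨((i - 1, 0), 0), ⟨rfl, Or.inl ⟨rfl, by simp only; omega⟩⟩, ?_⟩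
    rw [step_open (by simp [ed, bc]; omega)]
    simp [rot, opp]
  · rw [h]; exact k 0 le_rfl

theorem path_not_wp (ω : Cfg) (k : ℕ) : ¬ WP (path ω k) := by
  induction k with
  | zero => simp [path, WP]
  | succ k ih =>
    intro h
    obtain ⟨c, h1, h2⟩ := wp_pred ω (Or.inl h)
    rw [path_succ] at h2
    exact ih (step_inj _ h2 ▸ h1)

theorem path_inj (ω : Cfg) : Injective (path ω) := by
  have k : ∀ j k, path ω j = path ω (j + k + 1) → False := fun j k => by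
    induction j with
    | zero =>
      intro h
      obtain ⟨c, h1, h2⟩ := wp_pred ω (Or.inr rfl)
      rw [show (((0, 0), 0) : D) = path ω 0 from rfl, h, path_succ] at h2
      exact path_not_wp ω _ (step_inj _ h2 ▸ h1)
    | succ j ih =>
      intro h
      rw [show j + 1 + k + 1 = j + k + 1 + 1 by ring, path_succ, path_succ ω (j + k + 1)] at h
      exact ih (step_inj _ h)
  intro a b h
  by_contra hab
  rcases lt_or_gt_of_ne hab with c | c
  · obtain ⟨m, rfl⟩ := Nat.exists_eq_add_of_lt c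
    exact k _ _ h
  · obtain ⟨m, rfl⟩ := Nat.exists_eq_add_of_lt c
    exact k _ _ h.symm

theorem exists_out (ω : Cfg) (n : ℕ) : ∃ k, (n : ℤ) ≤ nm 0 (path ω k).1 := by
  by_contra h
  push Not at h
  exact Set.infinite_range_of_injective (path_inj ω)
    ((Bx n).finite_toSet.subset (by rintro _ ⟨k, rfl⟩; exact mem_Bx.2 (h k)))

theorem loc_TA (z : V) (d : Fin 4) {k : ℤ} (hk : 0 ≤ k) : Loc (TA z d k) :=
  (loc_AG _ _ hk).inter (loc_du (loc_AG _ _ hk))

theorem dep_SP (z : V) (r : ℤ) (hr : 1 ≤ r) :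
    Dep (SP z r) (In (Rc (z.1 - 3 * r) (z.1 + r - 1) (z.2 - r) (z.2 + r))) := by
  rintro ω ω' hω ⟨x, y, h1, h2, h3, h4, h5⟩
  exact ⟨x, y, h1, h2, h3, h4.dep (fun w hw => by simp only [mem_Rc] at hw ⊢; omega) hω,
    h5.dep subset_rfl hω⟩

theorem dep_SD (z : V) (r : ℤ) (d : Fin 4) (hr : 1 ≤ r) :
    Dep (SD z r d) (dl '' In (Rc (z.1 + 1 - r) (z.1 + 3 * r) (z.2 - r) (z.2 + r))) := by
  rintro ω ω' hω ⟨x, y, h1, h2, h3, h4, h5⟩
  have k : ∀ e ∈ In (Rc (z.1 + 1 - r) (z.1 + 3 * r) (z.2 - r) (z.2 + r)), du ω e = du ω' e :=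
    fun e he => by simp only [du, hω _ ⟨e, he, rfl⟩]
  exact ⟨x, y, h1, h2, h3, h4.dep (fun w hw => by simp only [mem_Rc] at hw ⊢; omega) k,
    h5.dep subset_rfl k⟩

theorem loc_SP (z : V) {r : ℤ} (hr : 1 ≤ r) : Loc (SP z r) :=
  (dep_SP z r hr).loc (In_finite (Rc_finite ..))

theorem loc_SD (z : V) {r : ℤ} (d : Fin 4) (hr : 1 ≤ r) : Loc (SD z r d) :=
  (dep_SD z r d hr).loc ((In_finite (Rc_finite ..)).image _)

theorem loc_Sep (z : V) {r : ℤ} (d : Fin 4) (hr : 1 ≤ r) : Loc (Sep z r d) :=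
  (loc_SP z hr).inter (loc_SD z d hr)

theorem up_SP (z : V) (r : ℤ) : IsUpperSet (SP z r) :=
  fun _ _ h ⟨x, y, h1, h2, h3, h4, h5⟩ => ⟨x, y, h1, h2, h3, h4.up h, h5.up h⟩

theorem lower_SD (z : V) (r : ℤ) (d : Fin 4) : IsLowerSet (SD z r d) :=
  fun _ _ h ⟨x, y, h1, h2, h3, h4, h5⟩ =>
    ⟨x, y, h1, h2, h3, h4.up (du_anti h), h5.up (du_anti h)⟩

theorem Reach_anti (d : Fin 4) {n n' : ℤ} (h : n ≤ n') : Reach d n' ⊆ Reach d n :=
  fun _ ⟨k, hk⟩ => ⟨k, h.trans hk⟩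

theorem UR_anti {n n' : ℤ} (h : n ≤ n') : UR n' ≤ UR n :=
  Finset.sum_le_sum fun d _ => Pr_mono (Reach_anti d h)

theorem le_UR (d : Fin 4) (n : ℤ) : Q (Reach d n) ≤ UR n :=
  Finset.single_le_sum (f := fun d => Q (Reach d n)) (fun _ _ => Pr_nonneg _ _) (Finset.mem_univ d)

theorem UR_nonneg (n : ℤ) : 0 ≤ UR n := Finset.sum_nonneg fun _ _ => Pr_nonneg _ _

theorem UR_le (n : ℤ) : UR n ≤ 4 :=
  (Finset.sum_le_sum (g := fun _ => (1 : ℝ)) fun _ _ => Pr_le_one _ _).trans (by simp)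

/-- crossing probabilities of long rectangles -/
theorem rsw' (N : ℕ) : ∃ c : ℝ, 0 < c ∧ ∀ m w h : ℤ, 1 ≤ m → 0 ≤ w → w ≤ N * m → 2 * m ≤ h →
    c ≤ hc w h := by
  obtain ⟨c, h0, h⟩ := rsw N
  exact ⟨c, h0, fun m w h' hm hw h1 h2 => (h m (by omega)).trans (hc_mono hw (by nlinarith) h2)⟩

end Basic

end Pool.Agent.P.MP_6c8efb_pr.Two
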