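import Pool.Agent.P.MP_6c8efb_pr.One.All
import Pool.Agent.P.MP_6c8efb_pr.Two.DefsB

/-! Definitions for the exact solution of a second event on the cylinder. -/

open Polynomial Filter Topology

namespace Pool.Agent.P.MP_6c8efb_pr.One

open Arm (q ah ac Nz Gen Near LPd LP1 TC Pt TConn)

/-- the alternating sum of the colours -/
def lam (L : ℕ) (f : ℕ → K) : K := ∑ i ∈ Finset.range L, (-1) ^ i * f i

/-- the number of loops on which the functional `l` does not vanish -/
noncomputable def Nn (l : (ℕ → K) → K) (S : St) : ℕ :=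
  Module.finrank K (Submodule.span K (Set.range fun f : S => fun g : S => l (f.1 * g.1 * g.1)))

/-- the gluing form with weight `-1` for the loops around the marked point -/
noncomputable def Bm (L : ℕ) : W →ₗ[ℂ] W →ₗ[ℂ] ℂ :=
  Finsupp.linearCombination ℂ fun p =>
    Finsupp.linearCombination ℂ fun r => (-1 : ℂ) ^ Nn (lam L) (p ∩ r)

/-- the loop through the site `0` is not contractible -/
def Ev2 (p r : St) : Prop := ∀ f, f ∈ p → f ∈ r → f 0 = 0

open Classical in
/-- the bilinear form of the event `Ev2` -/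
noncomputable def Bil2 (_ : ℕ) : W →ₗ[ℂ] W →ₗ[ℂ] ℂ :=
  Finsupp.linearCombination ℂ fun p =>
    Finsupp.linearCombination ℂ fun r => if Ev2 p r then (1 : ℂ) else 0

def EvN2 (L n : ℕ) : Set TC := {τ | Ev2 (top L τ 0 n) (top L (flp τ) 0 n)}

/-- the exact probability -/
noncomputable def PP2 (F : List ℂ → W) (L : ℕ) : ℂ :=
  NN Bil2 F (List.replicate L 1) / NN Bt F (List.replicate L 1)

/-- the symbol at the end point of the range of the parameter -/
noncomputable def r2 (x : ℝ) : ℂ := ((1 - 1 / (2 * Real.cosh (Real.pi * x) + 1) : ℝ) : ℂ)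

/-- closed under sums, opposites and triple products -/
structure Alg (S : St) : Prop where
  zero : (0 : ℕ → K) ∈ S
  add : ∀ f ∈ S, ∀ g ∈ S, f + g ∈ S
  neg : ∀ f ∈ S, -f ∈ S
  mul : ∀ f ∈ S, ∀ g ∈ S, ∀ h ∈ S, f * g * h ∈ S

/-- the colouring defined by a potential -/
def grad (L : ℕ) (Φ : ℕ → K) (k : ℕ) : K := if k < L then (-1) ^ k * (Φ k - Φ (k + 1)) else 0

/-- the corner `(j, 0)` is joined to its translate around the cylinder -/
def Wr (L n : ℕ) (j : ℤ) : Set TC :=
  {τ | TConn (per L τ) {c | -(n : ℤ) ≤ c.2 ∧ c.2 < n} (j, 0) (j + L, 0)}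

/-- the corner `(j, 0)` is joined to distance `m` horizontally or `n` vertically -/
def Fr (m n : ℕ) (j : ℤ) : Set TC :=
  {τ | ∃ b : ℤ × ℤ, ((m : ℤ) ≤ |b.1| ∨ (n : ℤ) ≤ |b.2|) ∧ TConn (per (2 * m) τ) Set.univ (j, 0) b}

/-- the origin and the face `fc 0 d` are joined to their translates by `(m, m)` -/
def WD (m : ℤ) (d : Fin 4) : Set Cfg :=
  {σ | Conn σ (MP_6c8efb_pr.Rc (-(3 * m)) (3 * m) (-(3 * m)) (3 * m)) (0, 0) (m, m) ∧
    Conn (du σ) (MP_6c8efb_pr.Rc (-(3 * m)) (3 * m) (-(3 * m)) (3 * m)) (fc 0 d)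
      (fc 0 d + (m, m))}

/-- the same in the periodic bond configuration -/
def WE (m : ℕ) (d : Fin 4) : Set Cfg := {ω | (fun e => ω (perE m e)) ∈ WD m d}

theorem Alg.inter {S T : St} (h : Alg S) (h' : Alg T) : Alg (S ∩ T) :=
  ⟨⟨h.zero, h'.zero⟩, fun f a g b => ⟨h.add f a.1 g b.1, h'.add f a.2 g b.2⟩,
    fun f a => ⟨h.neg f a.1, h'.neg f a.2⟩,
    fun f a g b k c => ⟨h.mul f a.1 g b.1 k c.1, h'.mul f a.2 g b.2 k c.2⟩⟩

theorem Alg.smul {S : St} (h : Alg S) (c : K) {f : ℕ → K} (hf : f ∈ S) : c • f ∈ S := by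
  have : c = 0 ∨ c = 1 ∨ c = -1 := by revert c; decide
  rcases this with rfl | rfl | rfl
  · rw [zero_smul]; exact h.zero
  · rwa [one_smul]
  · rw [neg_smul, one_smul]; exact h.neg f hf

theorem Alg.sub {S : St} (h : Alg S) {f g : ℕ → K} (hf : f ∈ S) (hg : g ∈ S) : f - g ∈ S := by
  rw [sub_eq_add_neg]; exact h.add f hf _ (h.neg g hg)

theorem lam_linear (L : ℕ) : IsLinearMap K (lam L) :=
  ⟨fun f g => by simp [lam, mul_add, Finset.sum_add_distrib],
    fun c f => by simp [lam, Finset.mul_sum, mul_left_comm]⟩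

@[simp] theorem Bm_single (L : ℕ) (p r : St) (c d : ℂ) :
    Bm L (Finsupp.single p c) (Finsupp.single r d) = c * d * (-1) ^ Nn (lam L) (p ∩ r) := by
  simp only [Bm, Finsupp.linearCombination_single, LinearMap.smul_apply, smul_eq_mul]
  ring

open Classical in
@[simp] theorem Bil2_single (L : ℕ) (p r : St) (c d : ℂ) :
    Bil2 L (Finsupp.single p c) (Finsupp.single r d) = if Ev2 p r then c * d else 0 := by
  simp only [Bil2, Finsupp.linearCombination_single, LinearMap.smul_apply, smul_eq_mul]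
  split_ifs <;> simp

end Pool.Agent.P.MP_6c8efb_pr.One
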