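import Pool.Agent.P.MP_6c8efb_pr.Two.DefsA
import Pool.Agent.P.MP_6c8efb_pr.Two.IfaceB

/-! The statements of the algebraic and analytic steps. -/

open Polynomial Filter Topology

namespace Pool.Agent.P.MP_6c8efb_pr.One

open Arm (q ah ac Nz Gen Near LPd LP1 TC Pt TConn)

/-! ### counting loops -/

-- deps:
def S_INV : Prop := ∀ (l l' : (ℕ → K) → K) (S S' : St) (φ : (ℕ → K) → ℕ → K) (c : K), c ≠ 0 →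
  (∀ f ∈ S, φ f ∈ S') → (∀ f' ∈ S', ∃ f ∈ S, φ f = f') →
  (∀ f ∈ S, ∀ g ∈ S, l (f * g * g) = c * l' (φ f * φ g * φ g)) → Nn l S = Nn l' S'

-- deps:
def S_ONE : Prop := ∀ (l l' : (ℕ → K) → K) (S : St) (b : ℕ → K) (j : ℕ), S.Finite → Alg S →
  IsLinearMap K l → IsLinearMap K l' → b ∈ S → b j = 1 → (∀ f ∈ S, f * b * b = f j • b) →
  (∀ h ∈ S, h j = 0 → l h = l' h) → l b = 0 → l' b ≠ 0 → Nn l' S = Nn l S + 1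

-- deps:
def S_ALG : Prop := ∀ L p, Bd L p → p.Finite ∧ Alg p

-- deps:
def S_MIN : Prop := ∀ (S : St) (j : ℕ), S.Finite → Alg S → (∃ f ∈ S, f j ≠ 0) →
  ∃ b ∈ S, b j = 1 ∧ ∀ f ∈ S, f * b * b = f j • b

-- deps: ALG
def S_TW : Prop := ∀ L p, Bd L p →
  (∀ Φ : ℕ → K, Φ L = -Φ 0 → grad L Φ ∈ p → grad L (fun k => (-1) ^ k * Φ k) ∈ p) ∧
    ∃ k ≤ L, ∀ Φ : ℕ → K, Φ L = -Φ 0 → grad L Φ ∈ p → Φ k = 0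

open Classical in
-- deps: ONE ALG MIN TW
def S_SGN : Prop := ∀ L p r, 1 ≤ L → Bd L p → Bd L r →
  (-1 : ℂ) ^ Nn (lam L) (p ∩ r) + (-1) ^ Nn (fun f => lam L f + f 0) (p ∩ r) =
    if Ev2 p r then 2 else 0

-- deps: INV ONE ALG
def S_FRM2 : Prop := Frm (-1) Bm

-- deps: INV SGN
def S_BB : Prop := ∀ F, Sol F → ∀ L, Even L → 2 ≤ L →
  NN Bil2 F (List.replicate L 1) = NN Bm F (List.replicate L 1)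

/-! ### the determinant -/

-- deps:
def S_KER2 : Prop := ∀ s t : ℝ,
  phi (al (Real.pi / 2)) (al (Real.pi / 2))⁻¹ (Complex.exp s) (Complex.exp t) =
    Complex.exp ((-(s + t) / 2 - (t - s) * (Real.pi / 2) / Real.pi : ℝ) : ℂ) * (3 / 4) *
      ∫ x : ℝ, r2 x * Complex.exp (Complex.I * (3 / 2 * (t - s) * x : ℝ)) * (wt0 x : ℂ)

-- deps:
def S_NICE2 : Prop := ∃ c C D : ℝ, 0 < c ∧ Bc C r2 ∧ (∀ x, c ≤ (r2 x).re) ∧ Lw D r2 ∧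
  ∀ x, |Real.log ‖r2 x‖| ≤ C * Real.exp (-(Real.pi * |x|))

-- deps:
def S_LOG2 : Prop :=
  (∫ x, Real.log ‖r2 x‖) - ∫ x, Real.log ‖rr (Real.pi / 4) x‖ = -(Real.pi / 4)

-- deps: FRM2 BB KER2 NICE2
def S_RATIO2 : Prop := ∀ F, Sol F → ∀ L, Even L → 2 ≤ L →
  PP2 F L = HD L r2 / HD L (rr (Real.pi / 4))

-- deps: NICE2 LOG2
def S_ASYM2 : Prop := ∃ c C : ℝ, 0 < c ∧ ∀ m : ℕ, 1 ≤ m →
  c ≤ (m : ℝ) ^ (1 / 4 : ℝ) * ‖HD (2 * m) r2 / HD (2 * m) (rr (Real.pi / 4))‖ ∧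
    (m : ℝ) ^ (1 / 4 : ℝ) * ‖HD (2 * m) r2 / HD (2 * m) (rr (Real.pi / 4))‖ ≤ C

/-! ### percolation on the cylinder -/

-- deps: RATIO2 ASYM2
def S_CYL : Prop := ∃ c C : ℝ, 0 < c ∧ ∀ m : ℕ, 1 ≤ m → ∃ p : ℝ,
  Tendsto (fun n => Pt (EvN2 (2 * m) n)) atTop (𝓝 p) ∧
    c ≤ (m : ℝ) ^ (1 / 4 : ℝ) * p ∧ (m : ℝ) ^ (1 / 4 : ℝ) * p ≤ C

-- deps:
def S_WREV : Prop := ∀ m n : ℕ, 1 ≤ m → Wr (2 * m) n 0 ∩ Wr (2 * m) n 1 ⊆ EvN2 (2 * m) n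

-- deps:
def S_EVFR : Prop := ∀ m n : ℕ, 1 ≤ m → EvN2 (2 * m) n ⊆ Fr m n 0 ∩ Fr m n 1

-- deps:
def S_UP2 : Prop := ∀ k m n : ℕ, 2 * k + 2 ≤ m → 2 * k + 2 ≤ n →
  Pt (Fr m n 0 ∩ Fr m n 1) ≤ Q (Two.TA 0 1 k)

-- deps:
def S_WE : Prop := ∀ m n : ℕ, 1 ≤ m → 7 * m ≤ n →
  Q (WE m 1) ≤ Pt (Wr (2 * m) n 0 ∩ Wr (2 * m) n 1) ∧
    Q (WE m 3) ≤ Pt (Wr (2 * m) n (-1) ∩ Wr (2 * m) n 0)

-- deps: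
def S_SHIFT : Prop := ∀ L n : ℕ, 1 ≤ L →
  Pt (Wr L n (-1) ∩ Wr L n 0) ≤ Pt (Wr L n 0 ∩ Wr L n 1)

-- deps:
def S_EXTW : Prop := ∀ (r : ℤ) (d : Fin 4) (σ : Cfg), 1 ≤ r →
  (∀ e : E, σ (e.1 + (7 * r, 7 * r), e.2) = σ e) → σ ∈ Two.Sep 0 r d →
  σ ∈ VC (-3 * r) (-r) 0 (10 * r) → σ ∈ HC (-3 * r) (6 * r) (8 * r) (10 * r) →
  du σ ∈ VC r (3 * r) (-10 * r) r → du σ ∈ HC r (10 * r) (-3 * r) (-r) → σ ∈ WD (7 * r) d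

-- deps: H2 EXTW
def S_EXT1 : Prop := ∃ c : ℝ, 0 < c ∧ ∀ (r : ℕ) (d : Fin 4), 1 ≤ r →
  c * Q (Two.Sep 0 r d) ≤ Q (WE (7 * r) d)

end Pool.Agent.P.MP_6c8efb_pr.One
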