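import Pool.Agent.P.MP_6c8efb_pr.Two.IfaceA
import Pool.Agent.P.MP_6c8efb_pr.Two.IfaceB

section EXT1S

/-! Step EXT1. -/

namespace Pool.Agent.P.MP_6c8efb_pr.One

open Polynomial Filter Topology
open Arm (q ah ac Nz Gen Near LPd LP1 TC Pt TConn q_eq q_cube q_ne_zero)

namespace EXT1x

open GluePA

/-- the edges based in a set -/
def V1 (S : Set V) : Set E := {e | e.1 ∈ S}

/-- a possible multiple of `m` -/
def Mu (m t : ℤ) : Prop := t ≤ -m ∨ t = 0 ∨ t = m ∨ 2 * m ≤ t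

theorem key {m : ℕ} {e e' : E} (h : perE m e = perE m e') :
    e.2 = e'.2 ∧ ∃ t, Mu m t ∧ e.1.1 = e'.1.1 + t ∧ e.1.2 = e'.1.2 + t := by
  simp only [perE, Prod.mk.injEq] at h
  obtain ⟨⟨e1, e2⟩, e3⟩ := h
  generalize (e.1.1 + e.1.2) / (2 * (m : ℤ)) = k at e1 e2
  generalize (e'.1.1 + e'.1.2) / (2 * (m : ℤ)) = k' at e1 e2
  refine ⟨e3, (k - k') * m, ?_, by linarith, by linarith⟩
  have h0 : (0 : ℤ) ≤ m := by omega
  rcases (by omega : k - k' ≤ -1 ∨ k - k' = 0 ∨ k - k' = 1 ∨ 2 ≤ k - k') with a | a | a | a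
  · exact Or.inl (by nlinarith)
  · simp [Mu, a]
  · simp [Mu, a]
  · exact Or.inr (Or.inr (Or.inr (by nlinarith)))

theorem disj {m : ℕ} {S T : Set V} (h : ∀ z ∈ S, ∀ z' ∈ T, ∀ t, Mu m t → z.1 = z'.1 + t →
    z.2 = z'.2 + t → False) : Disjoint (perE m '' V1 S) (perE m '' V1 T) :=
  Set.disjoint_left.2 (by
    rintro _ ⟨e, h1, rfl⟩ ⟨e', h2, h3⟩
    obtain ⟨-, t, a, b, c⟩ := key h3.symm
    exact h _ h1 _ h2 t a b c)

theorem Qp {m : ℕ} {A : Set Cfg} {a b c d : ℤ} (hA : Dep A (V1 (MP_6c8efb_pr.Rc a b c d)))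
    (h : b - a < m ∨ d - c < m) : Q (pull m A) = Q A := by
  refine a_Reix E A _ (perE m) (((Rc_finite a b c d).prod (Set.toFinite (Set.univ : Set Bool))).subset
    fun _ he => ⟨he, trivial⟩) hA fun e h1 e' h2 h3 => ?_
  obtain ⟨a0, t, a1, a2, a3⟩ := key h3
  have b1 := mem_Rc.1 h1
  have b2 := mem_Rc.1 h2
  unfold Mu at a1
  exact Prod.ext (Prod.ext (by omega) (by omega)) a0

theorem d1 {A : Set Cfg} {S : Set V} (h : Dep A (In S)) : Dep A (V1 S) := h.mono fun _ he => he.1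

theorem d2 {A : Set Cfg} {S : Set V} (h : Dep A (dl '' In S)) : Dep A (V1 S) :=
  h.mono (by rintro _ ⟨e, he, rfl⟩; exact he.2)

theorem low (m : ℕ) {A : Set Cfg} (h : IsLowerSet A) : IsLowerSet (pull m A) :=
  fun _ _ hω h1 => h (fun e => hω (perE m e)) h1

end EXT1x

theorem p_EXT1 (hH2 : Two.S_H2) (hEXTW : S_EXTW) :
    S_EXT1 := by
  obtain ⟨c, c0, hc⟩ := Two.rsw' 11
  refine ⟨c * c * (c * c), by positivity, fun r d hr => ?_⟩
  have hr' : (1 : ℤ) ≤ r := by omega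
  have dV : ∀ a b a' b', Dep (VC a b a' b') (In (MP_6c8efb_pr.Rc a b a' b')) :=
    fun _ _ _ _ => dep_conn _ _
  have dH : ∀ a b a' b', Dep (HC a b a' b') (In (MP_6c8efb_pr.Rc a b a' b')) :=
    fun _ _ _ _ => dep_conn _ _
  have p1 := EXT1x.d1 (dV (-3 * r) (-r) 0 (10 * r))
  have p2 := EXT1x.d1 (dH (-3 * r) (6 * r) (8 * r) (10 * r))
  have p3 := EXT1x.d2 (Two.dep_du (dV r (3 * r) (-10 * r) r))
  have p4 := EXT1x.d2 (Two.dep_du (dH r (10 * r) (-3 * r) (-r)))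
  have p5 := EXT1x.d1 (Two.dep_SP 0 r hr')
  have p6 := EXT1x.d2 (Two.dep_SD 0 r d hr')
  have q1 := EXT1x.Qp (m := 7 * r) p1 (by omega)
  have q2 := EXT1x.Qp (m := 7 * r) p2 (by omega)
  have q3 := EXT1x.Qp (m := 7 * r) p3 (by omega)
  have q4 := EXT1x.Qp (m := 7 * r) p4 (by omega)
  have q5 := EXT1x.Qp (m := 7 * r) (a := -3 * r) (b := 3 * r) (c := -r) (d := r)
    ((p5.inter' p6).mono fun e he => by
      simp only [EXT1x.V1, mem_Rc, Set.mem_union, Set.mem_ofPred_eq, Prod.fst_zero,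
        Prod.snd_zero] at he ⊢
      omega) (by omega)
  rw [Q_VC] at q1
  rw [Q_HC] at q2
  rw [Q_du (loc_VC ..), Q_VC] at q3
  rw [Q_du (loc_HC ..), Q_HC] at q4
  have l1 := p1.comp (perE (7 * r))
  have l2 := p2.comp (perE (7 * r))
  have l3 := p3.comp (perE (7 * r))
  have l4 := p4.comp (perE (7 * r))
  have m1 := GluePA.loc_pull (7 * r) (loc_VC (-3 * r) (-r) 0 (10 * r))
  have m2 := GluePA.loc_pull (7 * r) (loc_HC (-3 * r) (6 * r) (8 * r) (10 * r))
  have m3 := GluePA.loc_pull (7 * r) (loc_du (loc_VC r (3 * r) (-10 * r) r))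
  have m4 := GluePA.loc_pull (7 * r) (loc_du (loc_HC r (10 * r) (-3 * r) (-r)))
  have u1 := GluePA.up_pull (7 * r) (up_VC (-3 * r) (-r) 0 (10 * r))
  have u2 := GluePA.up_pull (7 * r) (up_HC (-3 * r) (6 * r) (8 * r) (10 * r))
  have u3 := EXT1x.low (7 * r) (Two.lower_du (up_VC r (3 * r) (-10 * r) r))
  have u4 := EXT1x.low (7 * r) (Two.lower_du (up_HC r (10 * r) (-3 * r) (-r)))
  have h := hH2 _ _ _ _ _ _ _ _ (GluePA.loc_pull (7 * r) (Two.loc_SP 0 hr'))
    (GluePA.loc_pull (7 * r) (Two.loc_SD 0 d hr')) (m1.inter m2) (m3.inter m4)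
    (GluePA.up_pull _ (Two.up_SP 0 r)) (EXT1x.low _ (Two.lower_SD 0 r d)) (u1.inter u2)
    (u3.inter u4) (p5.comp _) (p6.comp _) (l1.inter' l2) (l3.inter' l4)
    (by
      simp only [Set.disjoint_union_left]
      refine ⟨EXT1x.disj ?_, EXT1x.disj ?_⟩ <;>
        simp only [EXT1x.Mu, mem_Rc, Prod.fst_zero, Prod.snd_zero] <;> intros <;> omega)
    (by
      simp only [Set.disjoint_union_left, Set.disjoint_union_right]
      refine ⟨⟨EXT1x.disj ?_, EXT1x.disj ?_⟩, EXT1x.disj ?_, EXT1x.disj ?_⟩ <;>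
        simp only [mem_Rc] <;> intros <;> omega)
    (by
      simp only [Set.disjoint_union_left]
      refine ⟨EXT1x.disj ?_, EXT1x.disj ?_⟩ <;>
        simp only [EXT1x.Mu, mem_Rc, Prod.fst_zero, Prod.snd_zero] <;> intros <;> omega)
  have f1 := (mul_le_mul ((hc r _ _ hr' (by omega) (by omega) (by omega)).trans q1.ge)
    ((hc r _ _ hr' (by omega) (by omega) (by omega)).trans q2.ge) c0.le (Pr_nonneg _ _)).trans
      (harris_upper _ m1 m2 u1 u2)
  have f2 := (mul_le_mul ((hc r _ _ hr' (by omega) (by omega) (by omega)).trans q3.ge)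
    ((hc r _ _ hr' (by omega) (by omega) (by omega)).trans q4.ge) c0.le (Pr_nonneg _ _)).trans
      (harris_lower _ m3 m4 u3 u4)
  refine le_trans ?_ (h.trans (Pr_mono fun ω hω => ?_))
  · rw [mul_comm, mul_assoc (Q _)]
    exact mul_le_mul q5.ge (mul_le_mul f1 f2 (by positivity) (Pr_nonneg _ _)) (by positivity)
      (Pr_nonneg _ _)
  · have := hEXTW r d (fun e => ω (perE (7 * r) e)) hr' (fun e => by
      have := GluePA.perE_per (m := 7 * r) (by omega) e
      push_cast at this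
      rw [this]) hω.1.1 hω.1.2.1 hω.1.2.2 hω.2.1 hω.2.2
    simpa [WE] using this

end Pool.Agent.P.MP_6c8efb_pr.One

end EXT1S

section EXTWS

/-! Step EXTW. -/

namespace Pool.Agent.P.MP_6c8efb_pr.One

open Polynomial Filter Topology
open Arm (q ah ac Nz Gen Near LPd LP1 TC Pt TConn q_eq q_cube q_ne_zero)

namespace EXTWx

open GlueDA in
theorem gen {ω : Cfg} {r a b c0 c1 e f : ℤ} {z x y : V} (hr : 1 ≤ r)
    (hper : ∀ e : E, ω (e.1 + (7 * r, 7 * r), e.2) = ω e)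
    (hab : -10 * r ≤ a ∧ a ≤ b ∧ b ≤ 10 * r ∧ -10 * r ≤ c0 ∧ c0 ≤ 0 ∧ r ≤ c1 ∧ c1 ≤ 10 * r ∧
      c0 + 7 * r ≤ e ∧ e < f ∧ f ≤ c1 ∧ b + 7 * r ≤ 10 * r)
    (hx : x ∈ MP_6c8efb_pr.Rc a b 0 r) (x1 : x.1 = a) (y1 : y.1 = b)
    (hxy : Conn ω (MP_6c8efb_pr.Rc a b 0 r) x y)
    (hz : Conn ω (MP_6c8efb_pr.Rc (-10 * r) (10 * r) (-10 * r) (10 * r)) z x)
    (hV : ω ∈ VC a b c0 c1) (hH : ω ∈ HC a (b + 7 * r) e f) :
    Conn ω (MP_6c8efb_pr.Rc (-(3 * (7 * r))) (3 * (7 * r)) (-(3 * (7 * r))) (3 * (7 * r))) z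
      (z + (7 * r, 7 * r)) := by
  obtain ⟨p, p', ⟨p1, p2, p3⟩, p4⟩ := hV
  obtain ⟨t, t', ⟨t1, t2, t3⟩, t4⟩ := hH
  have px : Conn ω (MP_6c8efb_pr.Rc (-10 * r) (10 * r) (-10 * r) (10 * r)) p x :=
    X (x0 := a) (x1 := b) (y0 := 0) (y1 := r) (by omega) (by omega) (sub (by omega))
      (sub (by omega)) iny inx (sub (by omega)) hxy hx (by omega) (by omega) p4 p1 (by omega)
      (by omega)
  have pt : Conn ω (MP_6c8efb_pr.Rc (-10 * r) (10 * r) (-10 * r) (10 * r)) p t :=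
    X (x0 := a) (x1 := b) (y0 := e) (y1 := f) (by omega) (by omega) (sub (by omega))
      (sub (by omega)) iny inx (sub (by omega)) t4 t1 (by omega) (by omega) p4 p1 (by omega)
      (by omega)
  have zp := hz.trans' px.symm'
  have ee : (fun e => ω ((syT (7 * r) (7 * r)).e e)) = ω := funext fun e => hper e
  have k1 : Conn ω
      (MP_6c8efb_pr.Rc (-(3 * (7 * r))) (3 * (7 * r)) (-(3 * (7 * r))) (3 * (7 * r)))
      ((syT (7 * r) (7 * r)).v z) ((syT (7 * r) (7 * r)).v p) :=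
    Conn.map (syT (7 * r) (7 * r)) (by rw [ee]; exact zp) fun z hz => by
      simp only [syT, mem_Rc] at hz ⊢; omega
  have k2 : Conn ω (MP_6c8efb_pr.Rc (a + 7 * r) (b + 7 * r) (c0 + 7 * r) (c1 + 7 * r))
      ((syT (7 * r) (7 * r)).v p) ((syT (7 * r) (7 * r)).v p') :=
    Conn.map (syT (7 * r) (7 * r)) (by rw [ee]; exact p4) fun z hz => by
      simp only [syT, mem_Rc] at hz ⊢; omega
  have k3 : Conn ω
      (MP_6c8efb_pr.Rc (-(3 * (7 * r))) (3 * (7 * r)) (-(3 * (7 * r))) (3 * (7 * r)))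
      ((syT (7 * r) (7 * r)).v p) t :=
    X (x0 := a + 7 * r) (x1 := b + 7 * r) (y0 := e) (y1 := f) (by omega) (by omega)
      (sub (by omega)) (sub (by omega)) iny inx (sub (by omega)) t4 t1 (by omega) (by omega) k2
      (by simp only [syT, mem_Rc] at p1 ⊢; omega) (by simp only [syT]; omega)
      (by simp only [syT]; omega)
  exact (((zp.trans' pt).mono_set (sub (by omega))).trans' k3.symm').trans' k1.symm'

theorem du_per {ω : Cfg} {m : ℤ} (h : ∀ e : E, ω (e.1 + (m, m), e.2) = ω e) (e : E) :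
    du ω (e.1 + (m, m), e.2) = du ω e := by
  have : dl (e.1 + (m, m), e.2) = ((dl e).1 + (m, m), (dl e).2) := by
    obtain ⟨⟨a, b⟩, c⟩ := e
    cases c <;> simp [dl, Prod.ext_iff] <;> omega
  simp only [du, this, h]

end EXTWx

theorem p_EXTW :
    S_EXTW := by
  rintro r d σ hr hper ⟨⟨x, y, x0, x1, y1, h1, h2⟩, ⟨u, v, u0, u1, v1, g1, g2⟩⟩ hV hH gV gH
  simp only [Prod.fst_zero, Prod.snd_zero, zero_sub, zero_add] at x0 x1 y1 h1 h2 u0 u1 v1 g1 g2
  constructor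
  · have := EXTWx.gen (a := -3 * r) (b := -r) (c0 := 0) (c1 := 10 * r) (e := 8 * r)
      (f := 10 * r) (z := 0) (x := x) (y := y) hr hper (by omega)
      (GlueDA.sub (by omega) x0) (by omega) (by omega) (h1.mono_set (GlueDA.sub (by omega)))
      (h2.mono_set (GlueDA.sub (by omega))) hV (by rw [show -r + 7 * r = 6 * r by ring]; exact hH)
    rw [zero_add] at this
    exact this
  · exact EXTWx.gen (a := r) (b := 3 * r) (c0 := -10 * r) (c1 := r) (e := -3 * r)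
      (f := -r) (z := fc 0 d) (x := u) (y := v) hr (EXTWx.du_per hper) (by omega)
      u0 u1 v1 g1 (g2.mono_set (GlueDA.sub (by omega))) gV
      (by rw [show 3 * r + 7 * r = 10 * r by ring]; exact gH)

end Pool.Agent.P.MP_6c8efb_pr.One

end EXTWS

section ONES

/-! Step ONE. -/

namespace Pool.Agent.P.MP_6c8efb_pr.One

open Polynomial Filter Topology
open Arm (q ah ac Nz Gen Near LPd LP1 TC Pt TConn q_eq q_cube q_ne_zero)

namespace ONEx

theorem pt : ∀ x y z : K, x * y * y = z * y → y * x * x = z * z * y := by decide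

end ONEx

theorem p_ONE :
    S_ONE := by
  intro l l' S b j hS hA hl hl' hb hbj hm he h0 h1
  have : Finite S := hS.to_subtype
  have hbg : ∀ g ∈ S, b * g * g = (g j * g j) • b := by
    intro g hg
    funext i
    have := congrFun (hm g hg) i
    simp only [Pi.mul_apply, Pi.smul_apply, smul_eq_mul] at this ⊢
    exact ONEx.pt _ _ _ this
  have hf' : ∀ f ∈ S, f - f j • b ∈ S := fun f hf => hA.sub hf (hA.smul _ hb)
  have hsp : ∀ f ∈ S, ∀ g ∈ S,
      f * g * g = (f - f j • b) * g * g + (f j * (g j * g j)) • b := by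
    intro f _ g hg
    rw [mul_smul, ← hbg g hg]
    funext i
    simp only [Pi.mul_apply, Pi.smul_apply, Pi.add_apply, Pi.sub_apply, smul_eq_mul]
    ring
  have e1 : ∀ f ∈ S, ∀ g ∈ S, l (f * g * g) = l' ((f - f j • b) * g * g) := by
    intro f hf g hg
    rw [hsp f hf g hg, hl.map_add, hl.map_smul, h0, smul_zero, add_zero]
    refine he _ (hA.mul _ (hf' f hf) _ hg _ hg) ?_
    simp [hbj]
  have e2 : ∀ f ∈ S, ∀ g ∈ S,
      l' (f * g * g) = l (f * g * g) + (f j * l' b) * (g j * g j) := by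
    intro f hf g hg
    rw [e1 f hf g hg]
    conv_lhs => rw [hsp f hf g hg, hl'.map_add, hl'.map_smul]
    rw [smul_eq_mul]
    ring
  let χ : S → K := fun g => g.1 j * g.1 j
  let V : Submodule K (S → K) :=
    Submodule.span K (Set.range fun f : S => fun g : S => l (f.1 * g.1 * g.1))
  let V' : Submodule K (S → K) :=
    Submodule.span K (Set.range fun f : S => fun g : S => l' (f.1 * g.1 * g.1))
  have e3 : ∀ f : S, (fun g : S => l' (f.1 * g.1 * g.1)) =
      (fun g : S => l (f.1 * g.1 * g.1)) + (f.1 j * l' b) • χ := by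
    intro f
    funext g
    simp only [Pi.add_apply, Pi.smul_apply, smul_eq_mul]
    exact e2 _ f.2 _ g.2
  have hVV : V ≤ V' := by
    refine Submodule.span_le.2 ?_
    rintro _ ⟨f, rfl⟩
    refine Submodule.subset_span ⟨⟨_, hf' f.1 f.2⟩, ?_⟩
    funext g
    exact (e1 _ f.2 _ g.2).symm
  have hχ : χ ∈ V' := by
    have a1 : (fun g : S => l' (b * g.1 * g.1)) ∈ V' := Submodule.subset_span ⟨⟨b, hb⟩, rfl⟩
    have a2 : (fun g : S => l (b * g.1 * g.1)) ∈ V' := hVV (Submodule.subset_span ⟨⟨b, hb⟩, rfl⟩)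
    have a3 := e3 ⟨b, hb⟩
    simp only [hbj, one_mul] at a3
    rw [a3] at a1
    exact (Submodule.smul_mem_iff V' h1).1 ((Submodule.add_mem_iff_right V' a2).1 a1)
  have hV : V' = V ⊔ Submodule.span K {χ} := by
    refine le_antisymm (Submodule.span_le.2 ?_)
      (sup_le hVV ((Submodule.span_singleton_le_iff_mem _ _).2 hχ))
    rintro _ ⟨f, rfl⟩
    show (fun g : S => l' (f.1 * g.1 * g.1)) ∈ V ⊔ Submodule.span K {χ}
    rw [e3 f]
    exact Submodule.add_mem_sup (Submodule.subset_span ⟨f, rfl⟩)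
      (Submodule.smul_mem _ _ (Submodule.mem_span_singleton_self χ))
  have hn : χ ∉ V := by
    intro h
    have a1 : V ≤ LinearMap.ker (LinearMap.proj (R := K) (φ := fun _ : S => K) ⟨b, hb⟩) := by
      refine Submodule.span_le.2 ?_
      rintro _ ⟨f, rfl⟩
      show l (f.1 * b * b) = 0
      rw [hm _ f.2, hl.map_smul, h0, smul_zero]
    have a2 : b j * b j = 0 := a1 h
    rw [hbj, one_mul] at a2
    exact one_ne_zero a2
  show Module.finrank K V' = Module.finrank K V + 1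
  rw [hV]
  exact Submodule.finrank_sup_span_singleton hn

end Pool.Agent.P.MP_6c8efb_pr.One

end ONES

section NICE2S

/-! Step NICE2. -/

namespace Pool.Agent.P.MP_6c8efb_pr.One

open Polynomial Filter Topology
open Arm (q ah ac Nz Gen Near LPd LP1 TC Pt TConn q_eq q_cube q_ne_zero)

namespace NICE2x

open Real

theorem ee (x : ℝ) : 1 ≤ exp (-(π * |x|)) * (2 * cosh (π * x) + 1) := by
  have h := exp_abs_le_cosh (π * x)
  rw [abs_mul, abs_of_pos pi_pos] at h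
  have e : exp (-(π * |x|)) * exp (π * |x|) = 1 := by rw [← exp_add]; simp
  nlinarith [exp_pos (-(π * |x|))]

theorem sub_le (x : ℝ) : ‖r2 x - 1‖ ≤ exp (-(π * |x|)) := by
  have p := cosh_pos (π * x)
  have e : r2 x - 1 = ((-(1 / (2 * cosh (π * x) + 1)) : ℝ) : ℂ) := by
    unfold r2; push_cast; ring
  rw [e, Complex.norm_real, norm_neg, Real.norm_of_nonneg (by positivity),
    div_le_iff₀ (by positivity)]
  exact ee x

theorem re_ge (x : ℝ) : 2 / 3 ≤ (r2 x).re := by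
  have p := one_le_cosh (π * x)
  have : 1 / (2 * cosh (π * x) + 1) ≤ 1 / 3 := by gcongr; linarith
  unfold r2
  rw [Complex.ofReal_re]
  linarith

theorem dr (x : ℝ) : HasDerivAt r2
    ((2 * (sinh (π * x) * π) / (2 * cosh (π * x) + 1) ^ 2 : ℝ) : ℂ) x := by
  have p := cosh_pos (π * x)
  have h0 : HasDerivAt (fun x : ℝ => π * x) π x := by
    simpa using (hasDerivAt_id x).const_mul π
  have h1 := ((h0.cosh.const_mul 2).add_const 1).inv (by positivity)
  have h2 : HasDerivAt (fun x : ℝ => 1 - 1 / (2 * cosh (π * x) + 1))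
      (2 * (sinh (π * x) * π) / (2 * cosh (π * x) + 1) ^ 2) x := by
    simpa only [neg_div, neg_neg, Pi.inv_apply, one_div] using h1.const_sub 1
  exact h2.ofReal_comp

theorem rd_le (x : ℝ) : ‖((2 * (sinh (π * x) * π) / (2 * cosh (π * x) + 1) ^ 2 : ℝ) : ℂ)‖ ≤
    4 * exp (-(π * |x|)) := by
  have p := cosh_pos (π * x)
  have a1 : |sinh (π * x)| ≤ cosh (π * x) :=
    abs_le.2 ⟨by linarith [cosh_add_sinh (π * x), exp_pos (π * x)], (sinh_lt_cosh _).le⟩
  have a2 := ee x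
  have a3 : |sinh (π * x)| * π ≤ cosh (π * x) * 4 := by gcongr; exact pi_le_four
  rw [Complex.norm_real, Real.norm_eq_abs, abs_div, abs_mul, abs_mul, abs_two, abs_of_pos pi_pos,
    abs_of_pos (by positivity : 0 < (2 * cosh (π * x) + 1) ^ 2), div_le_iff₀ (by positivity)]
  nlinarith [mul_le_mul_of_nonneg_right a2 (by positivity : 0 ≤ 2 * cosh (π * x) + 1)]

end NICE2x

open Real NICE2x in
theorem p_NICE2 :
    S_NICE2 := by
  have he : ∀ x : ℝ, exp (-(π * |x|)) ≤ exp (-|x|) := fun x =>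
    exp_le_exp.2 (by nlinarith [pi_gt_three, abs_nonneg x])
  have he1 : ∀ x : ℝ, exp (-(π * |x|)) ≤ 1 := fun x =>
    exp_le_one_iff.2 (by nlinarith [pi_gt_three, abs_nonneg x])
  obtain ⟨D, hD⟩ := a_Lip r2 _ 1 4 dr
    (fun x => by linarith [sub_le x, he x, exp_pos (-|x|)])
    (fun x => by linarith [rd_le x, he x])
  refine ⟨2 / 3, 2, D, by norm_num, ⟨?_, fun x => ?_⟩, re_ge, hD, fun x => ?_⟩
  · exact continuous_iff_continuousAt.2 fun x => (dr x).continuousAt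
  · have a1 : ‖r2 x‖ ≤ ‖r2 x - 1‖ + 1 := by simpa using norm_add_le (r2 x - 1) 1
    linarith [sub_le x, he1 x]
  · refine (NiceA.log_le (by norm_num) (by norm_num)
      ((re_ge x).trans (Complex.re_le_norm _))).trans ?_
    rw [div_le_iff₀ (by norm_num)]
    linarith [sub_le x, exp_pos (-(π * |x|))]

end Pool.Agent.P.MP_6c8efb_pr.One

end NICE2S

section ASYM2S

/-! Step ASYM2. -/

namespace Pool.Agent.P.MP_6c8efb_pr.One

open Polynomial Filter Topology
open Arm (q ah ac Nz Gen Near LPd LP1 TC Pt TConn q_eq q_cube q_ne_zero)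



theorem p_ASYM2 (hNICE2 : S_NICE2) (hLOG2 : S_LOG2) :
    S_ASYM2 := by
  have p := Real.pi_pos
  obtain ⟨c1, C1, D1, c0, b1, hc, hl, he⟩ := hNICE2
  have ct : Continuous fun x => Real.log ‖r2 x‖ := b1.cont.norm.log fun x =>
    (c0.trans_le ((hc x).trans (Complex.re_le_norm _))).ne'
  obtain ⟨K0, k0⟩ := a_Logdet c1 C1 D1 _ c0 b1 hc hl
  obtain ⟨K1, k1⟩ := a_Trace _ C1 ct he
  obtain ⟨-, ⟨C2, b2⟩, K2, k2⟩ := AsymA.one a_Logdet a_Trace a_Nice (ψ := Real.pi / 4)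
    (by positivity) (by linarith)
  have e := hLOG2
  unfold S_LOG2 at e
  refine ⟨Real.exp (-(K0 + K1 + K2)), Real.exp (K0 + K1 + K2), Real.exp_pos _, fun m hm => ?_⟩
  obtain ⟨c, c0, hc⟩ := a_Hank (2 * m)
  obtain ⟨d1, l0⟩ := k0 (2 * m)
  have l1 := k1 m hm
  obtain ⟨d2, l2⟩ := k2 m hm
  have m0 : (0 : ℝ) < m := by exact_mod_cast hm
  have n1 := norm_pos_iff.2 d1
  have n2 := norm_pos_iff.2 d2
  have e2 : Real.log m / Real.pi * (∫ x, Real.log ‖r2 x‖) -
      Real.log m / Real.pi * (∫ x, Real.log ‖rr (Real.pi / 4) x‖) = -(1 / 4 * Real.log m) := by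
    rw [← mul_sub, e]; field_simp
  rw [hc _ _ b1, hc _ _ b2, mul_div_mul_left _ _ c0, norm_div,
    ← Real.le_log_iff_exp_le (by positivity), ← Real.log_le_iff_le_exp (by positivity),
    Real.log_mul (by positivity) (by positivity), Real.log_div n1.ne' n2.ne', Real.log_rpow m0]
  rw [abs_le] at l0 l1 l2
  constructor <;> linarith [l0.1, l0.2, l1.1, l1.2, l2.1, l2.2]

end Pool.Agent.P.MP_6c8efb_pr.One

end ASYM2S
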