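import Pool.Agent.P.MP_6c8efb_pr.Defs

/-! The exit time of the exploration path from a box. -/

open MeasureTheory

namespace Pool.Agent.P.MP_6c8efb_pr

/-- the exploration path is at sup norm at least `n` after `k` steps -/
def Outside (n : ℕ) (ω : Cfg) (k : ℕ) : Prop := (n : ℤ) ≤ max |(path ω k).1.1| |(path ω k).1.2|

/-- the number of steps made by the exploration path until it first reaches sup norm `n` -/
noncomputable def exitTime (n : ℕ) (ω : Cfg) : ℕ := sInf {k | Outside n ω k}

/-- its expectation under critical bond percolation -/
noncomputable def meanExit (n : ℕ) : ℝ := ∫ ω, (exitTime n ω : ℝ) ∂crit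

end Pool.Agent.P.MP_6c8efb_pr
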